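import Pool.Agent.GSN.A1

/-!
# Lemmas for the statements on the twists at a node
-/

set_option autoImplicit false

open Finset

namespace Pool.Agent.GSN

open Pool.Agent.GSP Pool.Agent.GSG Pool.H42.PF

/-- The bound for the large prime. -/
theorem big_bound {a l : ℕ} (hb : 4 ^ (a + 3) ≤ l) : 32 * 2 ^ (a + 1) ≤ l := by
  have h1 : 4 ^ (a + 3) = 16 * (2 ^ (a + 1) * 2 ^ (a + 1)) := by
    rw [show (4 : ℕ) = 2 ^ 2 by norm_num, ← pow_mul, ← pow_add]
    rw [show (16 : ℕ) = 2 ^ 4 by norm_num, ← pow_add]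
    congr 1
    ring
  have h2 : 2 ≤ 2 ^ (a + 1) := by
    calc 2 = 2 ^ 1 := by norm_num
      _ ≤ 2 ^ (a + 1) := Nat.pow_le_pow_right (by norm_num) (by omega)
  rw [h1] at hb
  calc 32 * 2 ^ (a + 1) = 16 * (2 * 2 ^ (a + 1)) := by ring
    _ ≤ 16 * (2 ^ (a + 1) * 2 ^ (a + 1)) :=
      Nat.mul_le_mul_left _ (Nat.mul_le_mul_right _ h2)
    _ ≤ l := hb

theorem five_le {a l : ℕ} (hb : 4 ^ (a + 3) ≤ l) : 64 ≤ l := by
  have h2 : 2 ≤ 2 ^ (a + 1) := by
    calc 2 = 2 ^ 1 := by norm_num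
      _ ≤ 2 ^ (a + 1) := Nat.pow_le_pow_right (by norm_num) (by omega)
  have := big_bound hb
  omega

/-- The trailing coefficient of a twisted moment. -/
theorem tau_eq {N : ℕ} {S : Finset ℕ} {k : ℕ} (hS : LeafG S k) {l : ℕ} (hl : l.Prime)
    (hb : 4 ^ (S.card + 3) ≤ l) (hi : 1 ≤ xp l S) {q : ℕ} {c : ℤ} (hL : Lf N S l q c) {s t : ℤ}
    (hs : UG S (tz N l (xp l S) t * s)) :
    (((YY S k 0 (tz N l (xp l S) t * s)).trailingCoeff : ℝ) : ℂ) =
      kap S k 0 (rr S 0) * gg S k (ii S k 0) (rr S 0) q s (zz l c (t * s)) := by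
  rw [(trail hS hl hb hi (Nat.zero_le 1) hs hL.mem).2, gg_tz hS hL]

/-- `tz N l i t * s` for a unit `s` congruent to `1` modulo the other prime. -/
theorem zz_tz {N l' : ℕ} (hN : 0 < N) (hl' : l'.Prime) {l : ℕ} (hl : l.Prime) (hne : l ≠ l')
    (hN' : l' ∣ N) (i : ℕ) (c t' t : ℤ) : zz l' c (t' * tz N l i t) = zz l' c t' := by
  refine zz_congr hl'.pos ?_
  have h1 := dvd_tw hN hl' hl hne.symm hN' i
  have h2 : t' * tz N l i t - t' = tw N l i * (t' * t) := by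
    unfold tz
    ring
  rw [h2]
  exact Dvd.dvd.mul_right h1 _

theorem dvd_N {N : ℕ} {S : Finset ℕ} (hNS : ∀ p ∈ S, 2 * p ∣ N) {l q : ℕ} {c : ℤ}
    (hL : Lf N S l q c) : l ∣ N :=
  hL.dvd.trans ((Nat.dvd_mul_left q 2).trans (hNS q hL.mem))

/-- The good values of `t`. -/
theorem goods {l : ℕ} (hl : l.Prime) {c : ℤ} (hc : IsCoprime c (l : ℤ)) (t₀ : ℤ) :
    ∃ G : Finset ℤ, l ≤ G.card + 4 ∧ (∀ t ∈ G, ¬ (l : ℤ) ∣ t - t₀ ∧
      ¬ ((l : ℤ) ∣ t ∨ (l : ℤ) ∣ t * c - 1 ∨ (l : ℤ) ∣ t * c + 1)) ∧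
      ∀ t ∈ G, ∀ t' ∈ G, (l : ℤ) ∣ t - t' → t = t' := by
  classical
  set R : Finset ℤ := (Finset.range l).image fun n : ℕ => (n : ℤ) with hR
  have hRc : R.card = l := by
    rw [hR, Finset.card_image_of_injective _ Nat.cast_injective, Finset.card_range]
  have hRm : ∀ t ∈ R, 0 ≤ t ∧ t < l := by
    intro t ht
    obtain ⟨n, hn, rfl⟩ := Finset.mem_image.1 ht
    rw [Finset.mem_range] at hn
    omega
  have hinj : ∀ t ∈ R, ∀ t' ∈ R, (l : ℤ) ∣ t - t' → t = t' := by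
    intro t ht t' ht' h
    have h1 := hRm t ht
    have h2 := hRm t' ht'
    obtain ⟨d, hd⟩ := h
    have h3 : d = 0 := by
      have hl0 : (0 : ℤ) < l := by exact_mod_cast hl.pos
      have h5 : (l : ℤ) * d < l * 1 := by rw [← hd]; omega
      have h6 : (l : ℤ) * (-1) < l * d := by rw [← hd]; omega
      have h7 := lt_of_mul_lt_mul_left h5 hl0.le
      have h8 := lt_of_mul_lt_mul_left h6 hl0.le
      omega
    rw [h3, mul_zero] at hd
    omega
  have hone : ∀ e b : ℤ, IsCoprime e (l : ℤ) → (R.filter fun t => (l : ℤ) ∣ t * e - b).card ≤ 1 := by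
    intro e b he
    rw [Finset.card_le_one]
    intro x hx y hy
    rw [Finset.mem_filter] at hx hy
    refine hinj x hx.1 y hy.1 ?_
    have h1 : (l : ℤ) ∣ (x - y) * e := by
      have := dvd_sub hx.2 hy.2
      have h2 : x * e - b - (y * e - b) = (x - y) * e := by ring
      rwa [h2] at this
    exact he.symm.dvd_of_dvd_mul_right h1
  set A := R.filter fun t => (l : ℤ) ∣ t * 1 - t₀ with hA
  set B := R.filter fun t => (l : ℤ) ∣ t * 1 - 0 with hB
  set D := R.filter fun t => (l : ℤ) ∣ t * c - 1 with hD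
  set E := R.filter fun t => (l : ℤ) ∣ t * c - (-1) with hE
  have hsub : R ⊆ (R \ (A ∪ B ∪ (D ∪ E))) ∪ (A ∪ B ∪ (D ∪ E)) := by
    intro t ht
    rw [Finset.mem_union, Finset.mem_sdiff]
    by_cases h : t ∈ A ∪ B ∪ (D ∪ E)
    · exact Or.inr h
    · exact Or.inl ⟨ht, h⟩
  refine ⟨R \ (A ∪ B ∪ (D ∪ E)), ?_, ?_, ?_⟩
  · have h1 := (Finset.card_le_card hsub).trans (Finset.card_union_le _ _)
    have h2 := Finset.card_union_le (A ∪ B) (D ∪ E)
    have h3 := Finset.card_union_le A B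
    have h4 := Finset.card_union_le D E
    have a1 : A.card ≤ 1 := hone 1 t₀ isCoprime_one_left
    have a2 : B.card ≤ 1 := hone 1 0 isCoprime_one_left
    have a3 : D.card ≤ 1 := hone c 1 hc
    have a4 : E.card ≤ 1 := hone c (-1) hc
    rw [hRc] at h1
    omega
  · intro t ht
    rw [Finset.mem_sdiff] at ht
    obtain ⟨htR, ht2⟩ := ht
    rw [Finset.mem_union, Finset.mem_union, Finset.mem_union, not_or, not_or, not_or] at ht2
    obtain ⟨⟨h1, h2⟩, h3, h4⟩ := ht2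
    refine ⟨fun h => h1 (Finset.mem_filter.2 ⟨htR, by rwa [mul_one]⟩), ?_⟩
    rintro (h | h | h)
    · exact h2 (Finset.mem_filter.2 ⟨htR, by rwa [mul_one, sub_zero]⟩)
    · exact h3 (Finset.mem_filter.2 ⟨htR, h⟩)
    · exact h4 (Finset.mem_filter.2 ⟨htR, by rwa [sub_neg_eq_add]⟩)
  · intro t ht t' ht' h
    exact hinj t (Finset.mem_sdiff.1 ht).1 t' (Finset.mem_sdiff.1 ht').1 h

end Pool.Agent.GSN
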