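import Pool.Agent.GSN.A0

/-!
PROOF (module B2). `Θ = TT S k (ii S k 0) q`. Suppose that for no `T ∈ Θ` `symmDiff T {p} ∈ Θ`. Let `A` be the set of
the `T ⊆ S` with `q ∈ T`, `p ∉ T`; `|A| = 2 ^ (|S| - 2)` (as `card_filter` in module A0: `T = insert q U`,
`U ⊆ (S.erase q).erase p`). For every `T ∈ A`, `T` or `insert p T = symmDiff T {p}` is not in `Θ`, i.e. its Taylor
coefficient is `0` (`mem_TT`). Map `T` to this set: an injective map (remove `p` again) from `A` to the
sets `T ⊆ S` with `tc k i (al S T) = 0`, of which there are at most `k - 1 - i = ms S 0 = |S| - 3` by `card_bad`,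
`ii_lt`, `sub_ii` (module A0). But `2 ^ (|S| - 2) > |S| - 3` (also for `|S| = 2`, where `ms S 0 = 0`; `|S| ≥ 2` as
`p ≠ q`).
-/

set_option autoImplicit false

open Finset

namespace Pool.Agent.GSN

open Pool.Agent.GSP Pool.Agent.GSG Pool.H42.PF

private theorem B2_card {S : Finset ℕ} {q p : ℕ} (hq : q ∈ S) (hp : p ∈ S.erase q) :
    (S.powerset.filter fun T => q ∈ T ∧ p ∉ T).card = 2 ^ (S.card - 2) := by
  have hpq : p ≠ q := Finset.ne_of_mem_erase hp
  have h1 : (S.powerset.filter fun T => q ∈ T ∧ p ∉ T) =
      ((S.erase q).erase p).powerset.image (insert q) := by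
    ext T
    rw [Finset.mem_filter, Finset.mem_image, Finset.mem_powerset]
    constructor
    · rintro ⟨h1, h2, h3⟩
      refine ⟨T.erase q, Finset.mem_powerset.2 ?_, Finset.insert_erase h2⟩
      intro x hx
      rw [Finset.mem_erase] at hx
      refine Finset.mem_erase.2 ⟨?_, Finset.mem_erase.2 ⟨hx.1, h1 hx.2⟩⟩
      rintro rfl
      exact h3 hx.2
    · rintro ⟨U, hU, rfl⟩
      rw [Finset.mem_powerset] at hU
      refine ⟨Finset.insert_subset hq (hU.trans ((Finset.erase_subset p _).trans
        (Finset.erase_subset q S))), Finset.mem_insert_self q U, ?_⟩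
      intro h
      rcases Finset.mem_insert.1 h with h | h
      · exact hpq h
      · exact Finset.notMem_erase p _ (hU h)
  rw [h1, Finset.card_image_of_injOn, Finset.card_powerset, Finset.card_erase_of_mem hp,
    Finset.card_erase_of_mem hq]
  · rfl
  intro U hU U' hU' h
  rw [Finset.mem_coe, Finset.mem_powerset] at hU hU'
  have h2 : q ∉ U := fun h => Finset.notMem_erase q S (Finset.mem_of_mem_erase (hU h))
  have h3 : q ∉ U' := fun h => Finset.notMem_erase q S (Finset.mem_of_mem_erase (hU' h))
  rw [← Finset.erase_insert h2, ← Finset.erase_insert h3]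
  exact congrArg (fun A => Finset.erase A q) h

private theorem B2_symm {T : Finset ℕ} {p : ℕ} (h : p ∉ T) : symmDiff T {p} = insert p T := by
  ext x
  rw [Finset.mem_symmDiff, Finset.mem_singleton, Finset.mem_insert]
  constructor
  · rintro (h1 | h1)
    · exact Or.inr h1.1
    · exact Or.inl h1.1
  · rintro (rfl | h1)
    · exact Or.inr ⟨rfl, h⟩
    · exact Or.inl ⟨h1, fun h2 => h (h2 ▸ h1)⟩

/-- for every other leaf there is a pair of sets which differ in this leaf only -/
theorem pairs {S : Finset ℕ} {k : ℕ} (hS : LeafG S k) {q : ℕ} (hq : q ∈ S) {p : ℕ}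
    (hp : p ∈ S.erase q) : ∃ T ∈ TT S k (ii S k 0) q, symmDiff T {p} ∈ TT S k (ii S k 0) q := by
  by_contra hcon
  push Not at hcon
  have hpS : p ∈ S := Finset.mem_of_mem_erase hp
  have hcard := B2_card hq hp
  have hbad := card_bad hS (ii_lt hS 0)
  rw [sub_ii hS 0] at hbad
  have hle : (S.powerset.filter fun T => q ∈ T ∧ p ∉ T).card ≤
      (S.powerset.filter fun T => tc k (ii S k 0) (al S T) = 0).card := by
    classical
    refine Finset.card_le_card_of_injOn
      (fun T => if tc k (ii S k 0) (al S T) = 0 then T else insert p T) ?_ ?_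
    · intro T hT
      rw [Finset.mem_coe, Finset.mem_filter, Finset.mem_powerset] at hT
      obtain ⟨hTS, hqT, hpT⟩ := hT
      rw [Finset.mem_coe, Finset.mem_filter, Finset.mem_powerset]
      by_cases h : tc k (ii S k 0) (al S T) = 0
      · simp only [if_pos h]
        exact ⟨hTS, h⟩
      · simp only [if_neg h]
        refine ⟨Finset.insert_subset hpS hTS, ?_⟩
        have h1 := hcon T (mem_TT.2 ⟨hTS, hqT, h⟩)
        rw [B2_symm hpT, mem_TT] at h1
        by_contra h2
        exact h1 ⟨Finset.insert_subset hpS hTS, Finset.mem_insert_of_mem hqT, h2⟩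
    · intro T hT T' hT' h
      rw [Finset.mem_coe, Finset.mem_filter] at hT hT'
      have hk : ∀ U : Finset ℕ, p ∉ U →
          (if tc k (ii S k 0) (al S U) = 0 then U else insert p U).erase p = U := by
        intro U hU
        split_ifs
        · exact Finset.erase_eq_of_notMem hU
        · exact Finset.erase_insert hU
      rw [← hk T hT.2.2, ← hk T' hT'.2.2]
      exact congrArg (fun A => Finset.erase A p) h
  rw [hcard] at hle
  have h2 : 2 ≤ S.card := by
    have h3 : 0 < (S.erase q).card := Finset.card_pos.2 ⟨p, hp⟩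
    rw [Finset.card_erase_of_mem hq] at h3
    omega
  have h3 : ms S 0 ≤ S.card - 2 := by
    unfold ms
    omega
  have h4 : S.card - 2 < 2 ^ (S.card - 2) := Nat.lt_two_pow_self
  omega

end Pool.Agent.GSN
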