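import Pool.Agent.GSN.B1

/-!
PROOF (module B3). `al S T = - (∑ p ∈ S, 1 / p) / 2 + ∑ p ∈ T, 1 / p` for `T ⊆ S`; all `T ∈ Θ` contain `q`, all `T' ∈ Θ'`
contain `q'`.
(1) `S.erase q ⊆ S'.erase q'`: let `p ∈ S.erase q`, `T₁ ∈ Θ` with `T₂ := symmDiff T₁ {p} ∈ Θ` (`hp`), `T₁', T₂' ∈ Θ'` for them
(`h`). Then `al S T₁ - al S T₂ = ± 1 / p` and `ε (al S' T₁' - al S' T₂')` differ by an integer; multiply by `p`:
`p (al S' T₁' - al S' T₂')` is an integer, so every `p' ∈ U' := symmDiff T₁' T₂'` divides `p` (`dvd_of_int`, H42/PF/Leaf).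
`U'` is not empty (otherwise `1 / p` is an integer, but `p ≥ 2`), and `q' ∉ U'`. So there is
`p' ∈ S'.erase q'` with `p' ∣ p`. By the same argument for `S'` there is `p'' ∈ S.erase q` with `p'' ∣ p'`. Now `p'' ∣ p`, both
in `S`, so `p'' = p` (coprime, `≥ 2`), and `p = p' ∈ S'.erase q'`. (2) The other inclusion is symmetric
(`ε² = 1`). Let `R = S.erase q = S'.erase q'`. (3) For `T ∈ Θ` with `T' ∈ Θ'` as in `h`: with `σ_p(T) = ± 1` for `p ∈ T` or
not, `al S T = 1 / (2 q) + ∑ p ∈ R, σ_p(T) / (2 p)`, so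
`1 / (2 q) - ε / (2 q') - κ / 2 + ∑ p ∈ R, e_p(T) / p` is an integer, where `e_p(T) = (σ_p(T) - ε σ_p(T')) / 2 ∈ {-1, 0, 1}`,
`e_p(T) ∈ {0, 1}` if `p ∈ T`, `e_p(T) ∈ {-1, 0}` if `p ∉ T`. Subtract two such equations and use `frac`:
`p ∣ e_p(T) - e_p(T~)` for all `T, T~ ∈ Θ`. For `p ∈ R`, `p ≥ 3`, take the pair of `hp`: one of `T, T~` contains `p`, the
other does not, so `e_p(T) - e_p(T~) ∈ {0, 1, 2}`, hence both are `0`; then `e_p(T) = 0` for all `T ∈ Θ`. So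
`∑ p ∈ R, e_p(T) / p` is `0` or `± 1 / 2` (the term of `p = 2`), and `1 / q - ε / q' = 2 (..)` is an integer. As
`q, q' ≥ 5` it is `0`, so `ε = 1`, `q = q'`, `S = insert q R = S'`. (If `R = ∅` take any `T ∈ Θ`.)
-/

set_option autoImplicit false

open Finset

namespace Pool.Agent.GSN

open Pool.Agent.GSP Pool.Agent.GSG Pool.H42.PF

/-- the sign of `p` in `T` -/
private def sgn3 (T : Finset ℕ) (p : ℕ) : ℤ := if p ∈ T then 1 else -1

private theorem sgn3_or (T : Finset ℕ) (p : ℕ) : sgn3 T p = 1 ∨ sgn3 T p = -1 := by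
  unfold sgn3
  split_ifs
  · exact Or.inl rfl
  · exact Or.inr rfl

private theorem al_sgn {S T : Finset ℕ} (hT : T ⊆ S) :
    al S T = ∑ p ∈ S, (sgn3 T p : ℚ) / (2 * p) := by
  unfold al
  have h2 : ∑ p ∈ S, (sgn3 T p : ℚ) / (2 * p) =
      ∑ p ∈ S \ T, (sgn3 T p : ℚ) / (2 * p) + ∑ p ∈ T, (sgn3 T p : ℚ) / (2 * p) :=
    (Finset.sum_sdiff hT).symm
  rw [h2, sub_div, Finset.sum_div, Finset.sum_div]
  have h3 : ∀ p ∈ T, (sgn3 T p : ℚ) / (2 * p) = 1 / p / 2 := by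
    intro p hp
    unfold sgn3
    rw [if_pos hp]
    push_cast
    rw [div_div, mul_comm (p : ℚ) 2]
  have h4 : ∀ p ∈ S \ T, (sgn3 T p : ℚ) / (2 * p) = -(1 / p / 2) := by
    intro p hp
    unfold sgn3
    rw [if_neg (Finset.mem_sdiff.1 hp).2]
    push_cast
    rw [div_div, mul_comm (p : ℚ) 2, neg_div]
  rw [Finset.sum_congr rfl h3, Finset.sum_congr rfl h4, Finset.sum_neg_distrib]
  ring

private theorem al_split {S T : Finset ℕ} (hT : T ⊆ S) {q : ℕ} (hq : q ∈ S) (hqT : q ∈ T) :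
    al S T = 1 / (2 * q) + ∑ p ∈ S.erase q, (sgn3 T p : ℚ) / (2 * p) := by
  rw [al_sgn hT, ← Finset.add_sum_erase S _ hq]
  congr 1
  unfold sgn3
  rw [if_pos hqT]
  push_cast
  rfl

private theorem al_pair {S T : Finset ℕ} (hT : T ⊆ S) {p : ℕ} (hp : p ∈ S) (hp0 : p ≠ 0)
    (hT' : symmDiff T {p} ⊆ S) :
    ∃ u : ℤ, (u = 1 ∨ u = -1) ∧ (p : ℚ) * (al S T - al S (symmDiff T {p})) = u := by
  have hp1 : (p : ℚ) ≠ 0 := by exact_mod_cast hp0
  rw [al_sgn hT, al_sgn hT', ← Finset.add_sum_erase S _ hp,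
    ← Finset.add_sum_erase S (fun x => (sgn3 (symmDiff T {p}) x : ℚ) / (2 * x)) hp]
  have h1 : ∑ x ∈ S.erase p, (sgn3 (symmDiff T {p}) x : ℚ) / (2 * x) =
      ∑ x ∈ S.erase p, (sgn3 T x : ℚ) / (2 * x) := by
    refine Finset.sum_congr rfl fun x hx => ?_
    have h2 : x ∈ symmDiff T {p} ↔ x ∈ T := by
      have h6 := Finset.ne_of_mem_erase hx
      rw [Finset.mem_symmDiff, Finset.mem_singleton]
      tauto
    have h3 : sgn3 (symmDiff T {p}) x = sgn3 T x := by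
      unfold sgn3
      rw [if_congr h2 rfl rfl]
    rw [h3]
  rw [h1]
  by_cases h : p ∈ T
  · refine ⟨1, Or.inl rfl, ?_⟩
    have h5 : p ∉ symmDiff T {p} := by
      rw [Finset.mem_symmDiff, Finset.mem_singleton]
      tauto
    unfold sgn3
    rw [if_pos h, if_neg h5]
    push_cast
    field_simp
    ring
  · refine ⟨-1, Or.inr rfl, ?_⟩
    have h5 : p ∈ symmDiff T {p} := by
      rw [Finset.mem_symmDiff, Finset.mem_singleton]
      tauto
    unfold sgn3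
    rw [if_neg h, if_pos h5]
    push_cast
    field_simp
    ring

private theorem step3 {S S' : Finset ℕ} {k k' : ℕ} (hS : LeafG S k) (hS' : LeafG S' k') {q q' : ℕ}
    {ε : ℤ} (hε : ε = 1 ∨ ε = -1)
    {Θ Θ' : Finset (Finset ℕ)} (hΘ : ∀ T ∈ Θ, T ⊆ S ∧ q ∈ T) (hΘ' : ∀ T ∈ Θ', T ⊆ S' ∧ q' ∈ T)
    {κ : ℤ} (h : ∀ T ∈ Θ, ∃ T' ∈ Θ', ∃ n : ℤ, al S T - ε * al S' T' = n + κ / 2)
    {p : ℕ} (hpS : p ∈ S) (hp : ∃ T ∈ Θ, symmDiff T {p} ∈ Θ) : ∃ p' ∈ S'.erase q', p' ∣ p := by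
  obtain ⟨T₁, hT₁, hT₂⟩ := hp
  obtain ⟨T₁', hT₁', n₁, hn₁⟩ := h T₁ hT₁
  obtain ⟨T₂', hT₂', n₂, hn₂⟩ := h _ hT₂
  have hp2 := hS.two_le p hpS
  obtain ⟨u, hu, hu'⟩ := al_pair (hΘ _ hT₁).1 hpS (by omega) (hΘ _ hT₂).1
  have hεq : (ε : ℚ) * ε = 1 := by
    rcases hε with h1 | h1 <;> rw [h1] <;> norm_num
  have h1 : ((p : ℤ) : ℚ) * (al S' T₁' - al S' T₂') = ((ε * (u - p * (n₁ - n₂)) : ℤ) : ℚ) := by
    push_cast
    rw [← hu']
    linear_combination (-(p : ℚ) * ε) * hn₁ + (p : ℚ) * ε * hn₂ -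
      (p : ℚ) * (al S' T₁' - al S' T₂') * hεq
  have hne : T₁' ≠ T₂' := by
    intro h2
    rw [h2, sub_self, mul_zero] at h1
    have h3 : ε * (u - p * (n₁ - n₂)) = 0 := by exact_mod_cast h1.symm
    have h4 : u - p * (n₁ - n₂) = 0 := by
      rcases mul_eq_zero.1 h3 with h5 | h5
      · rcases hε with h6 | h6 <;> omega
      · exact h5
    have h5 : (p : ℤ) ∣ u := ⟨n₁ - n₂, by linarith⟩
    have h6 : (p : ℤ) ∣ 1 := by
      rcases hu with h7 | h7
      · rwa [h7] at h5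
      · rw [h7] at h5
        exact (dvd_neg.1 h5)
    have h7 := Int.le_of_dvd one_pos h6
    omega
  have h2 : (symmDiff T₁' T₂').Nonempty := by
    rw [Finset.nonempty_iff_ne_empty, Ne, ← Finset.bot_eq_empty, symmDiff_eq_bot]
    exact hne
  obtain ⟨p', hp'⟩ := h2
  have h3 : (p' : ℤ) ∣ (p : ℤ) := dvd_of_int hS'.two_le hS'.coprime (hΘ' _ hT₁').1
    (hΘ' _ hT₂').1 h1 hp'
  refine ⟨p', Finset.mem_erase.2 ⟨?_, ?_⟩, by exact_mod_cast h3⟩
  · rintro rfl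
    rcases Finset.mem_symmDiff.1 hp' with h4 | h4
    · exact h4.2 (hΘ' _ hT₂').2
    · exact h4.2 (hΘ' _ hT₁').2
  · rcases Finset.mem_symmDiff.1 hp' with h4 | h4
    · exact (hΘ' _ hT₁').1 h4.1
    · exact (hΘ' _ hT₂').1 h4.1

private theorem sub3 {S S' : Finset ℕ} {k : ℕ} (hS : LeafG S k) {q q' : ℕ}
    (h1 : ∀ p ∈ S.erase q, ∃ p' ∈ S'.erase q', p' ∣ p)
    (h2 : ∀ p ∈ S'.erase q', ∃ p' ∈ S.erase q, p' ∣ p) : S.erase q ⊆ S'.erase q' := by
  intro p hp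
  obtain ⟨p', hp', h3⟩ := h1 p hp
  obtain ⟨p'', hp'', h4⟩ := h2 p' hp'
  have hpS := Finset.mem_of_mem_erase hp
  have hpS' := Finset.mem_of_mem_erase hp''
  have h5 : p'' = p := by
    by_contra hne
    have h6 := hS.coprime p'' hpS' p hpS hne
    have h7 := Nat.Coprime.eq_one_of_dvd h6 (h4.trans h3)
    have h8 := hS.two_le p'' hpS'
    omega
  rw [h5] at h4
  rw [Nat.dvd_antisymm h4 h3]
  exact hp'

/-- the leaves are determined by sufficiently many of the numbers `α_T` modulo `1` -/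
theorem dec_one {S S' : Finset ℕ} {k k' : ℕ} (hS : LeafG S k) (hS' : LeafG S' k') {q q' : ℕ}
    (hq : q ∈ S) (hq' : q' ∈ S') (h5 : 5 ≤ q) (h5' : 5 ≤ q') {ε : ℤ} (hε : ε = 1 ∨ ε = -1)
    {Θ Θ' : Finset (Finset ℕ)} (hΘ : ∀ T ∈ Θ, T ⊆ S ∧ q ∈ T) (hΘ' : ∀ T ∈ Θ', T ⊆ S' ∧ q' ∈ T)
    (hne : Θ.Nonempty) (hp : ∀ p ∈ S.erase q, ∃ T ∈ Θ, symmDiff T {p} ∈ Θ)
    (hp' : ∀ p ∈ S'.erase q', ∃ T ∈ Θ', symmDiff T {p} ∈ Θ') {κ : ℤ}
    (h : ∀ T ∈ Θ, ∃ T' ∈ Θ', ∃ n : ℤ, al S T - ε * al S' T' = n + κ / 2)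
    (h' : ∀ T' ∈ Θ', ∃ T ∈ Θ, ∃ n : ℤ, al S T - ε * al S' T' = n + κ / 2) : S = S' := by
  have hεq : (ε : ℚ) * ε = 1 := by
    rcases hε with h1 | h1 <;> rw [h1] <;> norm_num
  have h'' : ∀ T' ∈ Θ', ∃ T ∈ Θ, ∃ n : ℤ, al S' T' - ε * al S T = n + ((-ε * κ : ℤ) : ℚ) / 2 := by
    intro T' hT'
    obtain ⟨T, hT, n, hn⟩ := h' T' hT'
    refine ⟨T, hT, -ε * n, ?_⟩
    push_cast
    linear_combination (-(ε : ℚ)) * hn - al S' T' * hεq
  have hs1 : ∀ p ∈ S.erase q, ∃ p' ∈ S'.erase q', p' ∣ p := fun p hpS =>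
    step3 hS hS' hε hΘ hΘ' h (Finset.mem_of_mem_erase hpS) (hp p hpS)
  have hs2 : ∀ p ∈ S'.erase q', ∃ p' ∈ S.erase q, p' ∣ p := fun p hpS =>
    step3 hS' hS hε hΘ' hΘ h'' (Finset.mem_of_mem_erase hpS) (hp' p hpS)
  have hR : S.erase q = S'.erase q' := Finset.Subset.antisymm (sub3 hS hs1 hs2) (sub3 hS' hs2 hs1)
  choose! T' hT' n hn using h
  -- the coefficients
  have hex : ∀ T p, ∃ e : ℤ, 2 * e = sgn3 T p - ε * sgn3 (T' T) p := by
    intro T p
    rcases hε with h1 | h1 <;> rcases sgn3_or T p with h2 | h2 <;>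
      rcases sgn3_or (T' T) p with h3 | h3 <;> rw [h1, h2, h3]
    · exact ⟨0, by norm_num⟩
    · exact ⟨1, by norm_num⟩
    · exact ⟨-1, by norm_num⟩
    · exact ⟨0, by norm_num⟩
    · exact ⟨1, by norm_num⟩
    · exact ⟨0, by norm_num⟩
    · exact ⟨0, by norm_num⟩
    · exact ⟨-1, by norm_num⟩
  choose e he using hex
  have hsum : ∀ T ∈ Θ, ∑ p ∈ S.erase q, (e T p : ℚ) / p =
      n T + (κ / 2 - (1 / (2 * q) - ε / (2 * q'))) := by
    intro T hT
    have h1 := hn T hT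
    rw [al_split (hΘ T hT).1 hq (hΘ T hT).2,
      al_split (hΘ' _ (hT' T hT)).1 hq' (hΘ' _ (hT' T hT)).2, ← hR] at h1
    have h2 : ∑ p ∈ S.erase q, (e T p : ℚ) / p =
        ∑ p ∈ S.erase q, (sgn3 T p : ℚ) / (2 * p) -
          ε * ∑ p ∈ S.erase q, (sgn3 (T' T) p : ℚ) / (2 * p) := by
      rw [Finset.mul_sum, ← Finset.sum_sub_distrib]
      refine Finset.sum_congr rfl fun p _ => ?_
      have h3 : (2 : ℚ) * e T p = sgn3 T p - ε * sgn3 (T' T) p := by exact_mod_cast he T p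
      have h4 : (e T p : ℚ) = (sgn3 T p - ε * sgn3 (T' T) p) / 2 := by linarith
      rw [h4]
      ring
    rw [h2]
    linear_combination h1
  have hdiff : ∀ T ∈ Θ, ∀ U ∈ Θ, ∀ p ∈ S.erase q, (p : ℤ) ∣ e T p - e U p := by
    intro T hT U hU p hpS
    refine frac (R := S.erase q) (fun x hx => hS.pos x (Finset.mem_of_mem_erase hx))
      (fun x hx y hy => hS.coprime x (Finset.mem_of_mem_erase hx) y (Finset.mem_of_mem_erase hy))
      (fun p => e T p - e U p) (n := n T - n U) ?_ hpS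
    push_cast
    simp only [sub_div, Finset.sum_sub_distrib]
    rw [hsum T hT, hsum U hU]
    ring
  have hbd : ∀ T p, (sgn3 T p = 1 → e T p = 0 ∨ e T p = 1) ∧
      (sgn3 T p = -1 → e T p = 0 ∨ e T p = -1) := by
    intro T p
    have h1 := he T p
    constructor
    · intro h2
      rcases hε with h3 | h3 <;> rcases sgn3_or (T' T) p with h4 | h4 <;>
        rw [h2, h3, h4] at h1 <;> omega
    · intro h2
      rcases hε with h3 | h3 <;> rcases sgn3_or (T' T) p with h4 | h4 <;>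
        rw [h2, h3, h4] at h1 <;> omega
  have hz : ∀ p ∈ S.erase q, p ≠ 2 → ∀ T ∈ Θ, e T p = 0 := by
    intro p hpS hp2
    have h2 := hS.two_le p (Finset.mem_of_mem_erase hpS)
    have h3 : (3 : ℤ) ≤ p := by
      have : 3 ≤ p := by omega
      exact_mod_cast this
    have hsmall : ∀ x : ℤ, (p : ℤ) ∣ x → |x| ≤ 2 → x = 0 := by
      intro x hx hx2
      refine Int.eq_zero_of_abs_lt_dvd hx ?_
      linarith
    obtain ⟨T₀, hT₀, hT₁⟩ := hp p hpS
    have h4 := hdiff T₀ hT₀ _ hT₁ p hpS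
    have hzero : e T₀ p = 0 := by
      by_cases h5 : p ∈ T₀
      · have h6 : p ∉ symmDiff T₀ {p} := by
          rw [Finset.mem_symmDiff, Finset.mem_singleton]
          tauto
        have h7 := (hbd T₀ p).1 (by unfold sgn3; rw [if_pos h5])
        have h8 := (hbd (symmDiff T₀ {p}) p).2 (by unfold sgn3; rw [if_neg h6])
        have h9 := hsmall _ h4 (by rw [abs_le]; omega)
        omega
      · have h6 : p ∈ symmDiff T₀ {p} := by
          rw [Finset.mem_symmDiff, Finset.mem_singleton]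
          tauto
        have h7 := (hbd T₀ p).2 (by unfold sgn3; rw [if_neg h5])
        have h8 := (hbd (symmDiff T₀ {p}) p).1 (by unfold sgn3; rw [if_pos h6])
        have h9 := hsmall _ h4 (by rw [abs_le]; omega)
        omega
    intro T hT
    have h5 := hdiff T hT T₀ hT₀ p hpS
    rw [hzero, sub_zero] at h5
    refine hsmall _ h5 ?_
    rcases sgn3_or T p with h6 | h6
    · rcases (hbd T p).1 h6 with h7 | h7 <;> rw [h7] <;> norm_num
    · rcases (hbd T p).2 h6 with h7 | h7 <;> rw [h7] <;> norm_num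
  obtain ⟨T, hT⟩ := hne
  have hint : ∃ m : ℤ, 2 * ∑ p ∈ S.erase q, (e T p : ℚ) / p = m := by
    by_cases h2 : 2 ∈ S.erase q
    · refine ⟨e T 2, ?_⟩
      rw [Finset.sum_eq_single_of_mem 2 h2 fun p hpS hp2 => by rw [hz p hpS hp2 T hT]; simp]
      push_cast
      ring
    · refine ⟨0, ?_⟩
      rw [Finset.sum_eq_zero fun p hpS => by
        rw [hz p hpS (fun h3 => h2 (h3 ▸ hpS)) T hT]; simp]
      simp
  obtain ⟨m, hm⟩ := hint
  rw [hsum T hT] at hm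
  have hq0 : (5 : ℚ) ≤ q := by exact_mod_cast h5
  have hq0' : (5 : ℚ) ≤ q' := by exact_mod_cast h5'
  have h1 : 1 / (q : ℚ) - ε / q' = ((2 * n T + κ - m : ℤ) : ℚ) := by
    push_cast
    rw [← hm]
    field_simp
    ring
  have h2 : 1 / (q : ℚ) ≤ 1 / 5 := one_div_le_one_div_of_le (by norm_num) hq0
  have h2' : 1 / (q' : ℚ) ≤ 1 / 5 := one_div_le_one_div_of_le (by norm_num) hq0'
  have h3 : 0 < 1 / (q : ℚ) := by positivity
  have h3' : 0 < 1 / (q' : ℚ) := by positivity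
  have hqq : q = q' := by
    rcases hε with h4 | h4
    · rw [h4] at h1
      have h5 : ((2 * n T + κ - m : ℤ) : ℚ) < 1 := by
        rw [← h1]
        push_cast
        linarith
      have h6 : (-1 : ℚ) < ((2 * n T + κ - m : ℤ) : ℚ) := by
        rw [← h1]
        push_cast
        linarith
      have h7 : 2 * n T + κ - m < 1 := by exact_mod_cast h5
      have h8 : -1 < 2 * n T + κ - m := by exact_mod_cast h6
      have h9 : 2 * n T + κ - m = 0 := by omega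
      rw [h9] at h1
      push_cast at h1
      have h10 : 1 / (q : ℚ) = 1 / q' := by linarith
      have h11 : (q : ℚ) = q' := by
        rw [one_div, one_div] at h10
        exact inv_injective h10
      exact_mod_cast h11
    · exfalso
      rw [h4] at h1
      have h5 : ((2 * n T + κ - m : ℤ) : ℚ) < 1 := by
        rw [← h1]
        push_cast
        rw [neg_div]
        linarith
      have h6 : (0 : ℚ) < ((2 * n T + κ - m : ℤ) : ℚ) := by
        rw [← h1]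
        push_cast
        rw [neg_div]
        linarith
      have h7 : 2 * n T + κ - m < 1 := by exact_mod_cast h5
      have h8 : 0 < 2 * n T + κ - m := by exact_mod_cast h6
      omega
  rw [← Finset.insert_erase hq, hR, hqq, Finset.insert_erase hq']

end Pool.Agent.GSN
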