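import Pool.Agent.GSN.A0

/-!
PROOF (module B4). Let `F` be the polynomial of `exists_tp` (module A0) for `i = ii S k 0 < k`, `m = natDegree F = ms S 0 =
|S| - 3 ≥ 1` (`sub_ii`). `G = (F.comp (X + C (1 / 2))) ^ 2 - F ^ 2 = (F(x + 1/2) - F(x)) (F(x + 1/2) + F(x))`. Its degree is
`2 m - 1`: the first factor has natDegree `m - 1` (coefficient `m / 2 * lc F`), the second `m` (leading
coefficient `2 lc F`). In particular `G ≠ 0` with `natDegree G ≤ 2 m - 1`. (Alternative without computing
leading coefficients: if `G = 0` then `F(x + 1/2) = ± F(x)` as polynomials; `+`: `F` has a root `x₀` in `ℂ`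
(or use `F(x) = F(x + n)` for all natural `n`, so `F - C (F 0)` has infinitely many roots), so `F` is
constant, against `m ≥ 1`; `-`: compare leading coefficients.)
The points `al S T`, `T ⊆ S`, `q ∈ T`, `2 ∉ T`: there are `2 ^ (|S| - 2)` of them (`al_inj`, module A0), and they are
roots of `G`: `al S (insert 2 T) = al S T + 1 / 2`, `symmDiff T {2} = insert 2 T`. If `T ∈ TT`, `insert 2 T ∈ TT` by `h2` and
`hsq` gives `F(α)² = F(α + 1/2)²`; if `T ∉ TT`, then `F(α) = 0`, and `insert 2 T ∉ TT` (otherwise
`T = symmDiff (insert 2 T) {2} ∈ TT`), so `F(α + 1/2) = 0` too. But `2 ^ (|S| - 2) > 2 (|S| - 3) - 1` for `|S| ≥ 4`.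
-/

set_option autoImplicit false

open Finset

namespace Pool.Agent.GSN

open Pool.Agent.GSP Pool.Agent.GSG Pool.H42.PF

/-- the squares of the Taylor coefficients are not invariant under the exchange of the leaf `2` -/
theorem no_half {S : Finset ℕ} {k : ℕ} (hS : LeafG S k) (h4 : 4 ≤ S.card) {q : ℕ} (hq : q ∈ S)
    (h2q : 2 ∈ S.erase q)
    (h2 : ∀ T ∈ TT S k (ii S k 0) q, symmDiff T {2} ∈ TT S k (ii S k 0) q)
    (hsq : ∀ T ∈ TT S k (ii S k 0) q,
      tc k (ii S k 0) (al S T) ^ 2 = tc k (ii S k 0) (al S (symmDiff T {2})) ^ 2) : False := by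
  have hi := ii_lt hS 0
  obtain ⟨F, hF, hd, hl⟩ := exists_tp hi
  rw [sub_ii hS 0] at hd
  have hm : F.natDegree = S.card - 3 := by
    rw [hd]
    rfl
  have hlc : F.leadingCoeff ≠ 0 := by
    rw [hl]
    have hpos : 0 < (k - 1).choose (ii S k 0) := Nat.choose_pos (by omega)
    have : ((k - 1).choose (ii S k 0) : ℚ) ≠ 0 := by exact_mod_cast hpos.ne'
    have hf : ((k - 1).factorial : ℚ) ≠ 0 := by exact_mod_cast (Nat.factorial_pos _).ne'
    exact div_ne_zero this hf
  obtain ⟨F', hF'⟩ : ∃ F' : Polynomial ℚ, F' = F.comp (Polynomial.X + Polynomial.C (1 / 2)) := ⟨_, rfl⟩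
  have hev : ∀ x, F'.eval x = F.eval (x + 1 / 2) := by
    intro x
    rw [hF', Polynomial.eval_comp, Polynomial.eval_add, Polynomial.eval_X, Polynomial.eval_C]
  have hne1 : F' - F ≠ 0 := by
    intro h
    have h1 : F' = F := sub_eq_zero.1 h
    have h2 : ∀ n : ℕ, F.eval ((n : ℚ) / 2) = F.eval 0 := by
      intro n
      induction n with
      | zero => simp
      | succ n ih =>
        rw [← ih]
        have h3 := hev ((n : ℚ) / 2)
        rw [h1] at h3
        rw [h3]
        congr 1
        push_cast
        ring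
    have h3 : F = Polynomial.C (F.eval 0) := by
      refine Polynomial.eq_of_infinite_eval_eq _ _ ?_
      refine Set.Infinite.mono (s := Set.range fun n : ℕ => (n : ℚ) / 2) ?_ (Set.infinite_range_of_injective ?_)
      · rintro _ ⟨n, rfl⟩
        simp only [Set.mem_ofPred_eq, Polynomial.eval_C]
        exact h2 n
      · intro a b hab
        have h4 : (a : ℚ) = b := by
          have h5 : (a : ℚ) / 2 = b / 2 := hab
          linarith
        exact_mod_cast h4
    have h4 : F.natDegree = 0 := by
      rw [h3]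
      exact Polynomial.natDegree_C _
    omega
  have hne2 : F' + F ≠ 0 := by
    intro h
    have h1 : F'.leadingCoeff = F.leadingCoeff := by
      rw [hF', Polynomial.leadingCoeff_comp (by rw [Polynomial.natDegree_X_add_C]; exact one_ne_zero),
        Polynomial.leadingCoeff_X_add_C, one_pow, mul_one]
    have h2 : F' = -F := eq_neg_of_add_eq_zero_left h
    rw [h2, Polynomial.leadingCoeff_neg] at h1
    apply hlc
    linarith
  obtain ⟨G, hG⟩ : ∃ G : Polynomial ℚ, G = (F' - F) * (F' + F) := ⟨_, rfl⟩
  have hG0 : G ≠ 0 := by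
    rw [hG]
    exact mul_ne_zero hne1 hne2
  have hd' : F'.natDegree = S.card - 3 := by
    rw [hF', Polynomial.natDegree_comp, Polynomial.natDegree_X_add_C, mul_one, hm]
  have hGd : G.natDegree ≤ 2 * (S.card - 3) := by
    rw [hG]
    refine (Polynomial.natDegree_mul_le).trans ?_
    have h1 := Polynomial.natDegree_sub_le F' F
    have h2 := Polynomial.natDegree_add_le F' F
    rw [hd', hm, max_self] at h1 h2
    omega
  have h2S : 2 ∈ S := Finset.mem_of_mem_erase h2q
  have h2ne : 2 ≠ q := Finset.ne_of_mem_erase h2q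
  have hqS : q ∈ S.erase 2 := Finset.mem_erase.2 ⟨h2ne.symm, hq⟩
  have hcard := card_filter hqS
  rw [Finset.card_erase_of_mem h2S] at hcard
  have hroot : ∀ T ∈ (S.erase 2).powerset.filter (fun T => q ∈ T), G.IsRoot (al S T) := by
    intro T hT
    rw [Finset.mem_filter, Finset.mem_powerset] at hT
    obtain ⟨hTS, hqT⟩ := hT
    have h2T : 2 ∉ T := fun h => Finset.notMem_erase 2 S (hTS h)
    have hTS' : T ⊆ S := hTS.trans (Finset.erase_subset 2 S)
    have hIS : insert 2 T ⊆ S := Finset.insert_subset h2S hTS'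
    have hsd : symmDiff T {2} = insert 2 T := by
      ext x
      rw [Finset.mem_symmDiff, Finset.mem_singleton, Finset.mem_insert]
      constructor
      · rintro (⟨h, -⟩ | ⟨h, -⟩)
        · exact Or.inr h
        · exact Or.inl h
      · rintro (h | h)
        · exact Or.inr ⟨h, by rw [h]; exact h2T⟩
        · exact Or.inl ⟨h, fun h' => h2T (by rw [← h']; exact h)⟩
    have hsd' : symmDiff (insert 2 T) {2} = T := by
      rw [← hsd, symmDiff_symmDiff_cancel_right]
    have hal : al S (insert 2 T) = al S T + 1 / 2 := by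
      have h1 := al_sub hIS hTS'
      have h3 : insert 2 T \ T = {2} := by
        rw [Finset.insert_sdiff_of_notMem _ h2T, Finset.sdiff_self]
        rfl
      have h4 : T \ insert 2 T = ∅ := Finset.sdiff_eq_empty_iff_subset.2 (Finset.subset_insert 2 T)
      rw [h3, h4, Finset.sum_singleton, Finset.sum_empty] at h1
      push_cast at h1
      linarith
    have hval : F.eval (al S T + 1 / 2) ^ 2 = F.eval (al S T) ^ 2 := by
      by_cases hTT : T ∈ TT S k (ii S k 0) q
      · have h1 := hsq T hTT
        rw [hsd, hal] at h1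
        rw [hF, hF]
        exact h1.symm
      · have h1 : tc k (ii S k 0) (al S T) = 0 := by
          by_contra hne
          exact hTT (mem_TT.2 ⟨hTS', hqT, hne⟩)
        have h3 : insert 2 T ∉ TT S k (ii S k 0) q := by
          intro h
          have h4 := h2 _ h
          rw [hsd'] at h4
          exact hTT h4
        have h5 : tc k (ii S k 0) (al S (insert 2 T)) = 0 := by
          by_contra hne
          exact h3 (mem_TT.2 ⟨hIS, Finset.mem_insert_of_mem hqT, hne⟩)
        rw [hal] at h5
        rw [hF, hF, h1, h5]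
    rw [Polynomial.IsRoot.def, hG, Polynomial.eval_mul, Polynomial.eval_sub, Polynomial.eval_add, hev]
    linear_combination hval
  have hle : ((S.erase 2).powerset.filter (fun T => q ∈ T)).card ≤ G.natDegree := by
    rw [← Finset.card_image_of_injOn (f := al S)]
    · refine (Finset.card_le_card fun x hx => ?_).trans
        ((Multiset.toFinset_card_le G.roots).trans (Polynomial.card_roots' G))
      obtain ⟨T, hT, rfl⟩ := Finset.mem_image.1 hx
      rw [Multiset.mem_toFinset, Polynomial.mem_roots hG0]
      exact hroot T hT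
    · intro T hT T' hT' h
      rw [Finset.mem_coe, Finset.mem_filter, Finset.mem_powerset] at hT hT'
      exact al_inj hS.two_le hS.coprime (hT.1.trans (Finset.erase_subset 2 S))
        (hT'.1.trans (Finset.erase_subset 2 S)) h
  rw [hcard] at hle
  obtain ⟨n, hn⟩ : ∃ n, S.card = n + 4 := ⟨S.card - 4, by omega⟩
  rw [hn] at hle hGd
  have e1 : n + 4 - 1 - 1 = n + 1 + 1 := by omega
  rw [e1, pow_succ] at hle
  have h5 : n + 1 < 2 ^ (n + 1) := Nat.lt_two_pow_self
  omega

end Pool.Agent.GSN
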