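import Pool.Agent.GSN.B1
import Pool.Agent.GSN.B2
import Pool.Agent.GSN.B3
import Pool.Agent.GSN.B4

/-!
PROOFS (module B5). `P = poles S k i q s`, `P' = poles S' k' i' q' s'`, `i = ii S k 0`, `i' = ii S' k' 0`.
`rot`: let `w ∈ P`. Choose `z` with `z ^ m = w` (`IsAlgClosed.exists_pow_nat_eq`), `η = exp (2 π I / m')` and a natural
number `j` with `j m ≡ 1` modulo `m'`. `z' = z * η ^ j` has `z' ^ m' = z ^ m' ∈ P'`, so `z' ^ m = w * η ^ (j m) = w * η ∈ P`.
`one_two`: by `rot` and the definition of `poles`: for `T ∈ TT` there is `T' ∈ TT` with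
`(ww S k s T)⁻¹ * exp (2 π I / m') = (ww S k s T')⁻¹`; as `s = ± 1`, and with `ww_eq`, `exp_eq_iff` (H42/PF/Leaf) this is
`al S T + δ - al S T' ∈ ℤ` with `δ = ∓ 1 / m'`. `transl` (module B1): `1 / m'` is an integer, so `m' = 1`, or `∓ 1 / m' - 1 / 2`
is an integer, so `m' = 2`, and then `2 ∈ S.erase q` and `TT` is invariant under `symmDiff · {2}`.
`dec_comb`: `one_two` for both sides (exchange the roles, `Nat.Coprime.symm`): `m, m' ∈ {1, 2}`, coprime. Let `n = |TT|`,
`n' = |TT'|`, `m n = m' n'`.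
(a) `m = 1`, `m' = 2` (so `n = 2 n'`): if `|S| ≥ 4`: `no_half` (module B4) for `S`: for `T ∈ TT` let `U = symmDiff T {2} ∈ TT`,
`z = (ww S k s T)⁻¹`, `z₂ = (ww S k s U)⁻¹ = - z` (the exponents differ by `s / 2` modulo `1`, `s = ± 1`); `z ^ 2 = z₂ ^ 2 ∈ P'` is
`(ww S' k' s' T')⁻¹` for some `T' ∈ TT'`, and `hb` for `(T, T')` and for `(U, T')` gives
`tc(T)² = C tc(T')² = tc(U)²`. If `|S| ≤ 3`: `rr S 0 = rr S' 0` gives `|S'| = |S|` if `|S| ≤ 2` and `|S'| ≥ 3` if
`|S| = 3` (so `|S'| = 3`), and `TT_small` (module A0) gives `n = n' = 2 ^ (|S| - 1)`, a contradiction.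
(b) `m = 2`, `m' = 1` (so `2 n = n'`): in the same way `no_half` for `S'` if `|S'| ≥ 4`. If `|S'| ≤ 2`: `|S| = |S'|`, `n = n'`,
a contradiction. If `|S'| = 3`: `n' = 4`, `n = 2`, but `|S| ≥ 3` and `TT_big` gives `n > 2`.
(c) `m = m' = 1`: `P = P'` (`z ^ 1 = z`). Apply `dec_one` (module B3) to `Θ = TT`, `Θ' = TT'`, with `pairs` (module B2),
`ε = s s'`, `κ = s (k - k')`: for `T ∈ TT` there is `T' ∈ TT'` with `(ww S k s T)⁻¹ = (ww S' k' s' T')⁻¹`, i.e.
`s al S T - k / 2 - (s' al S' T' - k' / 2)` is an integer; multiply by `s`. `5 ≤ l ≤ q` since `l ∣ q`, `q > 0`.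
-/

set_option autoImplicit false

open Finset

namespace Pool.Agent.GSN

open Pool.Agent.GSP Pool.Agent.GSG Pool.H42.PF

/-- the set `P` is invariant under the rotation by `1 / m'` -/
theorem rot {m m' : ℕ} (hm : 0 < m) (hm' : 0 < m') (hmm : Nat.Coprime m m') {P P' : Finset ℂ}
    (h : ∀ z : ℂ, z ^ m ∈ P ↔ z ^ m' ∈ P') {w : ℂ} (hw : w ∈ P) :
    w * Complex.exp (2 * Real.pi * Complex.I * ((1 / m' : ℚ) : ℂ)) ∈ P := by
  obtain ⟨η, hη⟩ : ∃ η : ℂ, η = Complex.exp (2 * Real.pi * Complex.I * ((1 / m' : ℚ) : ℂ)) := ⟨_, rfl⟩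
  have hη0 : η ≠ 0 := by
    rw [hη]
    exact Complex.exp_ne_zero _
  have hηm : η ^ m' = 1 := by
    rw [hη, ← Complex.exp_nat_mul]
    have h1 : (m' : ℂ) ≠ 0 := by exact_mod_cast hm'.ne'
    have h2 : (m' : ℂ) * (2 * Real.pi * Complex.I * ((1 / m' : ℚ) : ℂ)) = 2 * Real.pi * Complex.I := by
      push_cast
      field_simp
    rw [h2, Complex.exp_two_pi_mul_I]
  obtain ⟨z, hzw⟩ := IsAlgClosed.exists_pow_nat_eq w hm
  have hb : (m : ℤ) * Nat.gcdA m m' + m' * Nat.gcdB m m' = 1 := by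
    have h1 := Nat.gcd_eq_gcd_ab m m'
    rw [Nat.Coprime.gcd_eq_one hmm] at h1
    exact_mod_cast h1.symm
  have h1 : (z * η ^ (Nat.gcdA m m')) ^ m' = z ^ m' := by
    rw [mul_pow, ← zpow_natCast (η ^ _), ← zpow_mul, mul_comm (Nat.gcdA m m'), zpow_mul, zpow_natCast,
      hηm, one_zpow, mul_one]
  have h2 : (z * η ^ (Nat.gcdA m m')) ^ m = w * η := by
    rw [mul_pow, hzw, ← zpow_natCast (η ^ _), ← zpow_mul]
    have h3 : Nat.gcdA m m' * (m : ℤ) = 1 + (m' : ℤ) * (-Nat.gcdB m m') := by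
      linear_combination hb
    rw [h3, zpow_add₀ hη0, zpow_mul, zpow_natCast, hηm, one_zpow, mul_one, zpow_one]
  rw [← hη, ← h2, h, h1, ← h, hzw]
  exact hw

/-- exponentials in the set of the poles -/
private theorem B5_mem {S : Finset ℕ} {k i q : ℕ} {s : ℤ} {T : Finset ℕ} (hT : T ∈ TT S k i q) :
    (ww S k s T)⁻¹ ∈ poles S k i q s := Finset.mem_image.2 ⟨T, hT, rfl⟩

/-- the exponent `m'` is `1` or `2` -/
theorem one_two {S : Finset ℕ} {k : ℕ} (hS : LeafG S k) {q : ℕ} (hq : q ∈ S) {s : ℤ}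
    (hs : s = 1 ∨ s = -1) {m m' : ℕ} (hm : 0 < m) (hm' : 0 < m') (hmm : Nat.Coprime m m')
    {P' : Finset ℂ} (h : ∀ z : ℂ, z ^ m ∈ poles S k (ii S k 0) q s ↔ z ^ m' ∈ P') :
    m' = 1 ∨ (m' = 2 ∧ 2 ∈ S.erase q ∧
      ∀ T ∈ TT S k (ii S k 0) q, symmDiff T {2} ∈ TT S k (ii S k 0) q) := by
  have hss : (s : ℚ) * s = 1 := by
    rcases hs with h1 | h1 <;> rw [h1] <;> norm_num
  have hm0 : (m' : ℚ) ≠ 0 := by exact_mod_cast hm'.ne'
  have key : ∀ T ∈ TT S k (ii S k 0) q, ∃ T' ∈ TT S k (ii S k 0) q, ∃ n : ℤ,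
      al S T + (-(s : ℚ) / m') - al S T' = n := by
    intro T hT
    have h1 := rot hm hm' hmm h (B5_mem (s := s) hT)
    obtain ⟨T', hT', h2⟩ := Finset.mem_image.1 h1
    refine ⟨T', hT', ?_⟩
    have h3 : ww S k s T = Complex.exp (2 * Real.pi * Complex.I * ((1 / m' : ℚ) : ℂ)) * ww S k s T' := by
      have h4 := ww_ne S k s T
      have h5 := ww_ne S k s T'
      have h6 : (ww S k s T')⁻¹ * (ww S k s T * ww S k s T') =
          (ww S k s T)⁻¹ * Complex.exp (2 * Real.pi * Complex.I * ((1 / m' : ℚ) : ℂ)) *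
            (ww S k s T * ww S k s T') := by rw [h2]
      have h7 : (ww S k s T')⁻¹ * (ww S k s T * ww S k s T') = ww S k s T := by
        field_simp
      have h8 : (ww S k s T)⁻¹ * Complex.exp (2 * Real.pi * Complex.I * ((1 / m' : ℚ) : ℂ)) *
            (ww S k s T * ww S k s T') =
          Complex.exp (2 * Real.pi * Complex.I * ((1 / m' : ℚ) : ℂ)) * ww S k s T' := by
        field_simp
      rw [h7, h8] at h6
      exact h6
    rw [ww_eq, ww_eq, ← Complex.exp_add, ← mul_add, ← Rat.cast_add, exp_eq_iff] at h3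
    obtain ⟨n, hn⟩ := h3
    refine ⟨s * n, ?_⟩
    push_cast
    rw [← hn]
    linear_combination (al S T' - al S T) * hss
  rcases transl hS (fun T hT => ⟨(mem_TT.1 hT).1, (mem_TT.1 hT).2.1⟩) (TT_nonempty hS hq 0) key with
    ⟨n, hn⟩ | ⟨h2, ⟨n, hn⟩, h3⟩
  · left
    have h4 : (m' : ℤ) * n = -s := by
      have h5 : (m' : ℚ) * n = -s := by
        rw [← hn]
        field_simp
      exact_mod_cast h5
    have h5 : (m' : ℤ) ∣ 1 := by
      rcases hs with h6 | h6
      · exact ⟨-n, by rw [mul_neg, h4, h6]; norm_num⟩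
      · exact ⟨n, by rw [h4, h6]; norm_num⟩
    exact_mod_cast Int.eq_one_of_dvd_one (by positivity) h5
  · have h4 : (m' : ℤ) * (2 * n + 1) = -2 * s := by
      have h5 : (m' : ℚ) * (2 * n + 1) = -2 * s := by
        rw [← hn]
        field_simp
        ring
      exact_mod_cast h5
    have h5 : (m' : ℤ) ∣ 2 := by
      rcases hs with h6 | h6
      · exact ⟨-(2 * n + 1), by rw [mul_neg, h4, h6]; norm_num⟩
      · exact ⟨2 * n + 1, by rw [h4, h6]; norm_num⟩
    have h6 : m' ∣ 2 := by exact_mod_cast h5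
    rcases (Nat.dvd_prime Nat.prime_two).1 h6 with h7 | h7
    · exact Or.inl h7
    · exact Or.inr ⟨h7, h2, h3⟩

/-- the squares of the exponentials of `T` and `symmDiff T {2}` agree -/
private theorem B5_sq {S : Finset ℕ} {k : ℕ} {s : ℤ} {T : Finset ℕ}
    (hT : T ⊆ S) (hU : symmDiff T {2} ⊆ S) :
    ((ww S k s (symmDiff T {2}))⁻¹) ^ 2 = ((ww S k s T)⁻¹) ^ 2 := by
  have h1 : al S (symmDiff T {2}) - al S T = 1 / 2 ∨ al S (symmDiff T {2}) - al S T = -(1 / 2) := by
    rw [al_sub hU hT]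
    by_cases h2 : 2 ∈ T
    · right
      have h3 : symmDiff T {2} \ T = ∅ := by
        rw [Finset.eq_empty_iff_forall_notMem]
        intro x hx
        rw [Finset.mem_sdiff, Finset.mem_symmDiff, Finset.mem_singleton] at hx
        obtain ⟨h4 | h4, h5⟩ := hx
        · exact h5 h4.1
        · rw [h4.1] at h5
          exact h5 h2
      have h4 : T \ symmDiff T {2} = {2} := by
        ext x
        rw [Finset.mem_sdiff, Finset.mem_symmDiff, Finset.mem_singleton]
        constructor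
        · rintro ⟨h5, h6⟩
          by_contra h7
          exact h6 (Or.inl ⟨h5, h7⟩)
        · rintro rfl
          refine ⟨h2, ?_⟩
          tauto
      rw [h3, h4, Finset.sum_empty, Finset.sum_singleton]
      norm_num
    · left
      have h3 : symmDiff T {2} \ T = {2} := by
        ext x
        rw [Finset.mem_sdiff, Finset.mem_symmDiff, Finset.mem_singleton]
        constructor
        · rintro ⟨h5 | h5, h6⟩
          · exact absurd h5.1 h6
          · exact h5.1
        · rintro rfl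
          exact ⟨Or.inr ⟨rfl, h2⟩, h2⟩
      have h4 : T \ symmDiff T {2} = ∅ := by
        rw [Finset.eq_empty_iff_forall_notMem]
        intro x hx
        rw [Finset.mem_sdiff, Finset.mem_symmDiff, Finset.mem_singleton] at hx
        refine hx.2 (Or.inl ⟨hx.1, ?_⟩)
        rintro rfl
        exact h2 hx.1
      rw [h3, h4, Finset.sum_empty, Finset.sum_singleton]
      norm_num
  rw [inv_pow, inv_pow, ww_eq, ww_eq, ← Complex.exp_nat_mul, ← Complex.exp_nat_mul]
  congr 1
  have h2 : ∀ x : ℚ, ((2 : ℕ) : ℂ) * (2 * Real.pi * Complex.I * (x : ℂ)) =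
      2 * Real.pi * Complex.I * ((2 * x : ℚ) : ℂ) := by
    intro x
    push_cast
    ring
  rw [h2, h2, exp_eq_iff]
  rcases h1 with h1 | h1
  · refine ⟨s, ?_⟩
    linear_combination 2 * (s : ℚ) * h1
  · refine ⟨-s, ?_⟩
    push_cast
    linear_combination 2 * (s : ℚ) * h1

/-- the comparison of the poles and of the leading coefficients determines the leaves -/
theorem dec_comb {S S' : Finset ℕ} {k k' : ℕ} (hS : LeafG S k) (hS' : LeafG S' k') {q q' : ℕ}
    (hq : q ∈ S) (hq' : q' ∈ S') {l : ℕ} (h5 : 5 ≤ l) (hlq : l ∣ q) (hlq' : l ∣ q')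
    (hc : S'.card ≤ S.card) {s s' : ℤ} (hs : s = 1 ∨ s = -1) (hs' : s' = 1 ∨ s' = -1)
    {m m' : ℕ} (hm : 0 < m) (hm' : 0 < m') (hmm : Nat.Coprime m m') (hrr : rr S 0 = rr S' 0)
    (hn : m * (TT S k (ii S k 0) q).card = m' * (TT S' k' (ii S' k' 0) q').card)
    (hz : ∀ z : ℂ, z ^ m ∈ poles S k (ii S k 0) q s ↔ z ^ m' ∈ poles S' k' (ii S' k' 0) q' s')
    {C : ℂ} (hC : C ≠ 0)
    (hb : ∀ T ∈ TT S k (ii S k 0) q, ∀ T' ∈ TT S' k' (ii S' k' 0) q', ∀ z : ℂ,
      z ^ m = (ww S k s T)⁻¹ → z ^ m' = (ww S' k' s' T')⁻¹ →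
        (tc k (ii S k 0) (al S T) : ℂ) ^ 2 = C * (tc k' (ii S' k' 0) (al S' T') : ℂ) ^ 2) :
    S = S' := by
  have hss : (s : ℚ) * s = 1 := by
    rcases hs with h1 | h1 <;> rw [h1] <;> norm_num
  have hpos := Finset.card_pos.2 (TT_nonempty hS hq 0)
  have hpos' := Finset.card_pos.2 (TT_nonempty hS' hq' 0)
  have hS1 : 1 ≤ S.card := Finset.card_pos.2 ⟨q, hq⟩
  have hS1' : 1 ≤ S'.card := Finset.card_pos.2 ⟨q', hq'⟩
  have hsm : S.card ≤ 3 → S'.card = S.card → False ∨ (TT S k (ii S k 0) q).card =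
      (TT S' k' (ii S' k' 0) q').card := by
    intro h1 h2
    right
    rw [TT_small hS hq 0 (by omega), TT_small hS' hq' 0 (by omega), h2]
  rcases one_two hS hq hs hm hm' hmm hz with h1 | ⟨h1, h2, h3⟩
  · rcases one_two hS' hq' hs' hm' hm hmm.symm (fun z => (hz z).symm) with h4 | ⟨h4, h5, h6⟩
    · -- the case of equal sets of poles
      subst h1 h4
      have hq5 : 5 ≤ q := h5.trans (Nat.le_of_dvd (hS.pos q hq) hlq)
      have hq5' : 5 ≤ q' := h5.trans (Nat.le_of_dvd (hS'.pos q' hq') hlq')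
      refine dec_one hS hS' hq hq' hq5 hq5' (ε := s * s') ?_ (Θ := TT S k (ii S k 0) q)
        (Θ' := TT S' k' (ii S' k' 0) q') (fun T hT => ⟨(mem_TT.1 hT).1, (mem_TT.1 hT).2.1⟩)
        (fun T hT => ⟨(mem_TT.1 hT).1, (mem_TT.1 hT).2.1⟩) (TT_nonempty hS hq 0)
        (fun p hp => pairs hS hq hp) (fun p hp => pairs hS' hq' hp) (κ := s * (k - k')) ?_ ?_
      · rcases hs with h1 | h1 <;> rcases hs' with h2 | h2 <;> rw [h1, h2] <;> norm_num
      · intro T hT
        have h1 := (hz (ww S k s T)⁻¹).1 (by rw [pow_one]; exact B5_mem hT)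
        rw [pow_one] at h1
        obtain ⟨T', hT', h2⟩ := Finset.mem_image.1 h1
        refine ⟨T', hT', ?_⟩
        have h3 := inv_injective h2
        rw [ww_eq, ww_eq, exp_eq_iff] at h3
        obtain ⟨n, hn⟩ := h3
        refine ⟨-(s * n), ?_⟩
        push_cast
        rw [← hn]
        linear_combination -(al S T) * hss
      · intro T' hT'
        have h1 := (hz (ww S' k' s' T')⁻¹).2 (by rw [pow_one]; exact B5_mem hT')
        rw [pow_one] at h1
        obtain ⟨T, hT, h2⟩ := Finset.mem_image.1 h1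
        refine ⟨T, hT, ?_⟩
        have h3 := inv_injective h2
        rw [ww_eq, ww_eq, exp_eq_iff] at h3
        obtain ⟨n, hn⟩ := h3
        refine ⟨s * n, ?_⟩
        push_cast
        rw [← hn]
        linear_combination -(al S T) * hss
    · -- the exponents `2` and `1`
      exfalso
      subst h1 h4
      rcases le_or_gt 4 S'.card with h7 | h7
      · refine no_half hS' h7 hq' h5 h6 fun T' hT' => ?_
        have hU := h6 T' hT'
        have h8 := (hz (ww S' k' s' T')⁻¹).2 (by rw [pow_one]; exact B5_mem hT')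
        obtain ⟨T, hT, h9⟩ := Finset.mem_image.1 h8
        have h10 := hb T hT T' hT' (ww S' k' s' T')⁻¹ h9.symm (pow_one _)
        have h11 := hb T hT _ hU (ww S' k' s' (symmDiff T' {2}))⁻¹
          (by rw [B5_sq (mem_TT.1 hT').1 (mem_TT.1 hU).1]; exact h9.symm) (pow_one _)
        have h12 := mul_left_cancel₀ hC (h10.symm.trans h11)
        exact_mod_cast h12
      · have h8 : S.card ≤ 3 → S'.card = S.card := by
          intro h8
          unfold rr at hrr
          omega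
        rcases Nat.lt_or_ge S'.card 3 with h9 | h9
        · have h10 : S.card ≤ 3 := by
            unfold rr at hrr
            omega
          rcases hsm h10 (h8 h10) with h11 | h11
          · exact h11
          · omega
        · have h10 := TT_big hS hq 0 (by omega)
          have h11 := TT_small hS' hq' 0 (by omega)
          have h12 : S'.card = 3 := by omega
          rw [h12] at h11
          have h13 : 2 ^ 1 ≤ 2 ^ (S.card - 2) := Nat.pow_le_pow_right (by norm_num) (by omega)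
          norm_num at h11 h13
          omega
  · exfalso
    rcases one_two hS' hq' hs' hm' hm hmm.symm (fun z => (hz z).symm) with h4 | ⟨h4, h5, h6⟩
    · -- the exponents `1` and `2`
      subst h1 h4
      rcases le_or_gt 4 S.card with h7 | h7
      · refine no_half hS h7 hq h2 h3 fun T hT => ?_
        have hU := h3 T hT
        have h8 := (hz (ww S k s T)⁻¹).1 (by rw [pow_one]; exact B5_mem hT)
        obtain ⟨T', hT', h9⟩ := Finset.mem_image.1 h8
        have h10 := hb T hT T' hT' (ww S k s T)⁻¹ (pow_one _) h9.symm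
        have h11 := hb _ hU T' hT' (ww S k s (symmDiff T {2}))⁻¹ (pow_one _)
          (by rw [B5_sq (mem_TT.1 hT).1 (mem_TT.1 hU).1]; exact h9.symm)
        have h12 := h10.trans h11.symm
        exact_mod_cast h12
      · have h8 : S'.card = S.card := by
          unfold rr at hrr
          omega
        rcases hsm (by omega) h8 with h11 | h11
        · exact h11
        · omega
    · rw [h1, h4] at hmm
      norm_num at hmm

end Pool.Agent.GSN
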