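import Pool.Agent.GSN.A0
import Pool.Agent.GSG.R6

/-!
# The twists at a node
-/

set_option autoImplicit false

open Finset

namespace Pool.Agent.GSN

open Pool.Agent.GSP Pool.Agent.GSG Pool.H42.PF

/-- The leaf `q` is the only one which is divisible by `l`, and `c / l` is the rotation of the twist. -/
structure Lf (N : ℕ) (S : Finset ℕ) (l q : ℕ) (c : ℤ) : Prop where
  mem : q ∈ S
  dvd : l ∣ q
  not_dvd : ∀ p ∈ S, p ≠ q → ¬ l ∣ p
  two_dvd : ∀ p ∈ S, p ≠ q → (2 * p : ℤ) ∣ tw N l (xp l S)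
  eq : tw N l (xp l S) * l = 2 * q * c
  cop : IsCoprime c (l : ℤ)
  prime : l.Prime
  five : 5 ≤ l

theorem exists_lf {N : ℕ} (hN : 0 < N) {S : Finset ℕ} {k : ℕ} (hS : LeafG S k)
    (hNS : ∀ p ∈ S, 2 * p ∣ N) {l : ℕ} (hl : l.Prime) (h5 : 5 ≤ l) (hi : 1 ≤ xp l S) :
    ∃ (q : ℕ) (c : ℤ), Lf N S l q c := by
  have hne : S.Nonempty := by
    rw [Finset.nonempty_iff_ne_empty]
    rintro rfl
    simp [xp] at hi
  obtain ⟨q, hq, hqx⟩ := Finset.exists_mem_eq_sup S hne (padicValNat l)
  have hqx' : xp l S = padicValNat l q := hqx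
  have hq0 : 0 < q := hS.pos q hq
  have hlq : l ∣ q := by
    have : Fact l.Prime := ⟨hl⟩
    rw [hqx'] at hi
    exact dvd_of_one_le_padicValNat hi
  have hnd : ∀ p ∈ S, p ≠ q → ¬ l ∣ p := by
    intro p hp hpq hlp
    have h1 := Nat.dvd_gcd hlp hlq
    rw [hS.coprime p hp q hq hpq] at h1
    exact hl.one_lt.ne' (Nat.dvd_one.1 h1)
  obtain ⟨c, hc, hce⟩ := tw_eq hN hl h5 hq0 (hNS q hq) (by rw [← hqx']; exact hi)
  refine ⟨q, c, hq, hlq, hnd, fun p hp hpq => ?_, ?_, hc, hl, h5⟩
  · refine tw_dvd hN hl h5 (hS.pos p hp) (hNS p hp) ?_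
    rw [padicValNat.eq_zero_of_not_dvd (hnd p hp hpq)]
    omega
  · rw [hqx', mul_comm]
    exact hce

/-- `exp (2 π i t c / l)` -/
noncomputable def zz (l : ℕ) (c t : ℤ) : ℂ :=
  Complex.exp (2 * Real.pi * Complex.I * ((t * c / l : ℚ) : ℂ))

theorem zz_ne (l : ℕ) (c t : ℤ) : zz l c t ≠ 0 := Complex.exp_ne_zero _

private theorem int_div_iff {l : ℕ} (hl : 0 < l) {x : ℤ} :
    (∃ n : ℤ, (x : ℚ) / l = n) ↔ (l : ℤ) ∣ x := by
  have hl0 : (l : ℚ) ≠ 0 := by exact_mod_cast hl.ne'
  constructor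
  · rintro ⟨n, hn⟩
    refine ⟨n, ?_⟩
    rw [div_eq_iff hl0] at hn
    have h1 : x = n * l := by exact_mod_cast hn
    rw [h1, mul_comm]
  · rintro ⟨n, rfl⟩
    refine ⟨n, ?_⟩
    push_cast
    field_simp

theorem zz_eq_iff {l : ℕ} (hl : 0 < l) {c t t' : ℤ} (hc : IsCoprime c (l : ℤ)) :
    zz l c t = zz l c t' ↔ (l : ℤ) ∣ t - t' := by
  unfold zz
  rw [exp_eq_iff]
  have h1 : (t * c / l - t' * c / l : ℚ) = (((t - t') * c : ℤ) : ℚ) / l := by
    push_cast
    ring
  rw [h1, int_div_iff hl]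
  constructor
  · intro h
    exact hc.symm.dvd_of_dvd_mul_right h
  · intro h
    exact Dvd.dvd.mul_right h _

/-- `zz l c t` depends on `t` modulo `l` only. -/
theorem zz_congr {l : ℕ} (hl : 0 < l) {c t t' : ℤ} (h : (l : ℤ) ∣ t - t') :
    zz l c t = zz l c t' := by
  unfold zz
  rw [exp_eq_iff]
  have h1 : (t * c / l - t' * c / l : ℚ) = (((t - t') * c : ℤ) : ℚ) / l := by
    push_cast
    ring
  rw [h1, int_div_iff hl]
  exact Dvd.dvd.mul_right h _

/-- the twist moves the argument of the function of the leaf -/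
theorem gg_tz {N : ℕ} {S : Finset ℕ} {k : ℕ} (hS : LeafG S k) {l q : ℕ} {c : ℤ}
    (h : Lf N S l q c) (i r : ℕ) (s t : ℤ) :
    gg S k i r q (tz N l (xp l S) t * s) 1 = gg S k i r q s (zz l c (t * s)) := by
  have h1 := gg_twist (k := k) (i := i) (r := r) (s := s) (t := t) hS.two_le h.prime.pos h.mem
    h.two_dvd h.eq 1
  unfold tz
  rw [h1, mul_one]
  unfold zz
  congr 3
  push_cast
  ring

/-- the points of the twists which are units -/
theorem points {l : ℕ} (hl : l.Prime) {c : ℤ} (hc : IsCoprime c (l : ℤ)) (t₀ : ℤ) :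
    ∃ Z : Finset ℂ, l ≤ Z.card + 1 ∧ ∀ z ∈ Z, ∃ t : ℤ, ¬ (l : ℤ) ∣ t - t₀ ∧ z = zz l c t := by
  classical
  refine ⟨((Finset.range l).filter fun n : ℕ => ¬ (l : ℤ) ∣ (n : ℤ) - t₀).image
    fun n : ℕ => zz l c n, ?_, ?_⟩
  · rw [Finset.card_image_of_injOn]
    · have h1 := Finset.card_filter_add_card_filter_not (s := Finset.range l)
        (p := fun n : ℕ => (l : ℤ) ∣ (n : ℤ) - t₀)
      rw [Finset.card_range] at h1
      have h2 : ((Finset.range l).filter fun n : ℕ => (l : ℤ) ∣ (n : ℤ) - t₀).card ≤ 1 := by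
        rw [Finset.card_le_one]
        intro a ha b hb
        rw [Finset.mem_filter, Finset.mem_range] at ha hb
        have h3 : (l : ℤ) ∣ (a : ℤ) - b := by
          have := dvd_sub ha.2 hb.2
          rwa [sub_sub_sub_cancel_right] at this
        have h4 : ((a : ℤ) - b).natAbs < l := by omega
        have h5 : (a : ℤ) - b = 0 := by
          by_contra h6
          have h7 := Int.natAbs_dvd_natAbs.2 h3
          rw [Int.natAbs_natCast] at h7
          have h8 := Nat.le_of_dvd (Int.natAbs_pos.2 h6) h7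
          omega
        omega
      omega
    · intro a ha b hb hab
      rw [Finset.mem_coe, Finset.mem_filter, Finset.mem_range] at ha hb
      have h3 := (zz_eq_iff hl.pos hc).1 hab
      by_contra hne
      have h4 : ((a : ℤ) - b).natAbs < l := by omega
      have h7 := Int.natAbs_dvd_natAbs.2 h3
      rw [Int.natAbs_natCast] at h7
      have h8 := Nat.le_of_dvd (Int.natAbs_pos.2 (by omega)) h7
      omega
  · intro z hz
    obtain ⟨n, hn, rfl⟩ := Finset.mem_image.1 hz
    exact ⟨n, (Finset.mem_filter.1 hn).2, rfl⟩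

/-- the exponentials are not `1` -/
theorem ww_ne_one {S : Finset ℕ} {k : ℕ} (hS : LeafG S k) (hne : S.Nonempty) {s : ℤ}
    (hs : ∀ p ∈ S, IsCoprime s (p : ℤ)) {T : Finset ℕ} (hT : T ⊆ S) : ww S k s T ≠ 1 := by
  intro h
  have h0 : ww S k s T = Complex.exp (2 * Real.pi * Complex.I * ((0 : ℚ) : ℂ)) := by
    rw [h]
    simp
  rw [ww_eq, exp_eq_iff] at h0
  obtain ⟨n, hn⟩ := h0
  have h1 : al S (S \ T) = -al S T := by
    unfold al
    rw [Finset.sdiff_sdiff_eq_self hT]
    ring
  obtain ⟨p, hp⟩ := hne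
  have hpS : p ∈ symmDiff T (S \ T) := by
    rw [Finset.mem_symmDiff, Finset.mem_sdiff]
    by_cases h2 : p ∈ T
    · exact Or.inl ⟨h2, fun h3 => h3.2 h2⟩
    · exact Or.inr ⟨⟨hp, h2⟩, h2⟩
  have h2 : (p : ℤ) ∣ s := dvd_of_int hS.two_le hS.coprime hT Finset.sdiff_subset (m := s)
    (n := 2 * n + k) (by
      rw [h1]
      push_cast
      linear_combination 2 * hn) hpS
  have h4 : IsUnit (p : ℤ) := (hs p hp).isUnit_of_dvd' h2 dvd_rfl
  have h5 := hS.two_le p hp
  rw [Int.isUnit_iff] at h4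
  omega

/-- the points of the units are not poles -/
theorem zz_notMem {N : ℕ} {S : Finset ℕ} {k : ℕ} (hS : LeafG S k) {l q : ℕ} {c : ℤ}
    (h : Lf N S l q c) {s t : ℤ} (hs : ∀ p ∈ S, IsCoprime (tz N l (xp l S) t * s) (p : ℤ))
    (i : ℕ) : zz l c (t * s) ∉ poles S k i q s := by
  intro hmem
  obtain ⟨T, hT, he⟩ := Finset.mem_image.1 hmem
  have hT' := mem_TT.1 hT
  refine ww_ne_one hS ⟨q, h.mem⟩ hs hT'.1 (k := k) ?_
  have h1 := ww_twist (k := k) (s := s) (t := t) hS.two_le h.prime.pos h.mem h.two_dvd h.eq hT'.1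
  unfold tz
  rw [h1, if_pos hT'.2.1]
  have h2 : Complex.exp (2 * Real.pi * Complex.I * (((1 : ℚ) * (s * t * c / l) : ℚ) : ℂ)) =
      zz l c (t * s) := by
    unfold zz
    congr 3
    push_cast
    ring
  rw [h2, ← he, mul_inv_cancel₀ (ww_ne S k s T)]

/-- a pole can be moved to a pole by few twists only -/
theorem order {N : ℕ} {S : Finset ℕ} {k : ℕ} (hS : LeafG S k) {l q : ℕ} {c : ℤ}
    (h : Lf N S l q c) {s t : ℤ} (hs : ∀ p ∈ S, IsCoprime s (p : ℤ)) {T T₀ : Finset ℕ}
    (hT : T ⊆ S) (hT₀ : T₀ ⊆ S) (he : ww S k (tz N l (xp l S) t * s) T₀ = ww S k s T) :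
    (l : ℤ) ∣ t ∨ (l : ℤ) ∣ t * c - 1 ∨ (l : ℤ) ∣ t * c + 1 := by
  have hl0 : (l : ℚ) ≠ 0 := by exact_mod_cast h.prime.pos.ne'
  have hsl : IsCoprime s (l : ℤ) :=
    (hs q h.mem).of_isCoprime_of_dvd_right (by exact_mod_cast h.dvd)
  have h1 := ww_twist (k := k) (s := s) (t := t) hS.two_le h.prime.pos h.mem h.two_dvd h.eq hT₀
  unfold tz at he
  rw [h1, ww_eq, ww_eq, ← Complex.exp_add, ← mul_add, ← Rat.cast_add, exp_eq_iff] at he
  obtain ⟨n, hn⟩ := he
  have h2 : ∀ p ∈ symmDiff T₀ T, p = l := by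
    intro p hp
    have hpS : p ∈ S := by
      rcases Finset.mem_symmDiff.1 hp with h3 | h3
      · exact hT₀ h3.1
      · exact hT h3.1
    have h3 : (p : ℤ) ∣ s * l := by
      refine dvd_of_int hS.two_le hS.coprime hT₀ hT (m := s * l)
        (n := n * l - (if q ∈ T₀ then 1 else -1) * (s * t * c)) ?_ hp
      push_cast
      have h4 : (if q ∈ T₀ then (1 : ℚ) else -1) * (s * t * c / l) * l =
          (if q ∈ T₀ then (1 : ℚ) else -1) * (s * t * c) := by
        field_simp
      rw [← h4]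
      linear_combination (l : ℚ) * hn
    have h4 : (p : ℤ) ∣ l := ((hs p hpS).symm).dvd_of_dvd_mul_left h3
    have h5 : p ∣ l := by exact_mod_cast h4
    rcases (Nat.dvd_prime h.prime).1 h5 with h6 | h6
    · have := hS.two_le p hpS
      omega
    · exact h6
  by_cases he : T₀ = T
  · left
    subst he
    have h3 : (l : ℤ) ∣ s * (t * c) := by
      rw [← int_div_iff h.prime.pos]
      refine ⟨(if q ∈ T₀ then 1 else -1) * n, ?_⟩
      push_cast
      split_ifs at hn ⊢
      · linear_combination hn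
      · linear_combination -hn
    have h4 := hsl.symm.dvd_of_dvd_mul_left h3
    exact h.cop.symm.dvd_of_dvd_mul_right h4
  · right
    right
    have hne : (symmDiff T₀ T).Nonempty := by
      rw [Finset.nonempty_iff_ne_empty, Ne, ← Finset.bot_eq_empty, symmDiff_eq_bot]
      exact he
    obtain ⟨p, hp⟩ := hne
    have hpl := h2 p hp
    subst hpl
    have hpS : p ∈ S := by
      rcases Finset.mem_symmDiff.1 hp with h3 | h3
      · exact hT₀ h3.1
      · exact hT h3.1
    have hpq : p = q := by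
      by_contra hpq
      exact h.not_dvd p hpS hpq dvd_rfl
    subst hpq
    have h3 := al_sub hT₀ hT
    rcases Finset.mem_symmDiff.1 hp with h4 | h4
    · have e1 : T₀ \ T = {p} := by
        ext x
        rw [Finset.mem_sdiff, Finset.mem_singleton]
        constructor
        · intro hx
          exact h2 x (Finset.mem_symmDiff.2 (Or.inl hx))
        · rintro rfl
          exact h4
      have e2 : T \ T₀ = ∅ := by
        ext x
        rw [Finset.mem_sdiff]
        constructor
        · intro hx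
          have := h2 x (Finset.mem_symmDiff.2 (Or.inr hx))
          subst this
          exact absurd h4.1 hx.2
        · intro hx
          exact absurd hx (Finset.notMem_empty x)
      rw [e1, e2, Finset.sum_singleton, Finset.sum_empty, sub_zero] at h3
      rw [if_pos h4.1] at hn
      have h5 : (p : ℤ) ∣ s * (t * c + 1) := by
        rw [← int_div_iff h.prime.pos]
        refine ⟨n, ?_⟩
        rw [← hn]
        push_cast
        linear_combination (-(s : ℚ)) * h3
      exact hsl.symm.dvd_of_dvd_mul_left h5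
    · have e1 : T \ T₀ = {p} := by
        ext x
        rw [Finset.mem_sdiff, Finset.mem_singleton]
        constructor
        · intro hx
          exact h2 x (Finset.mem_symmDiff.2 (Or.inr hx))
        · rintro rfl
          exact h4
      have e2 : T₀ \ T = ∅ := by
        ext x
        rw [Finset.mem_sdiff]
        constructor
        · intro hx
          have := h2 x (Finset.mem_symmDiff.2 (Or.inl hx))
          subst this
          exact absurd hx.1 h4.2
        · intro hx
          exact absurd hx (Finset.notMem_empty x)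
      rw [e1, e2, Finset.sum_singleton, Finset.sum_empty, zero_sub] at h3
      rw [if_neg h4.2] at hn
      have h5 : (p : ℤ) ∣ s * (t * c + 1) := by
        rw [← int_div_iff h.prime.pos]
        refine ⟨-n, ?_⟩
        push_cast
        rw [← hn]
        linear_combination (s : ℚ) * h3
      exact hsl.symm.dvd_of_dvd_mul_left h5

/-- different twists give different poles -/
theorem distinct {N : ℕ} {S : Finset ℕ} {k : ℕ} (hS : LeafG S k) {l q : ℕ} {c : ℤ}
    (h : Lf N S l q c) {s t t' : ℤ} (hs : ∀ p ∈ S, IsCoprime s (p : ℤ)) {T T' : Finset ℕ}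
    (hT : T ⊆ S) (hT' : T' ⊆ S) (hk : q ∈ T ↔ q ∈ T')
    (he : ww S k (tz N l (xp l S) t * s) T = ww S k (tz N l (xp l S) t' * s) T') :
    T = T' ∧ (l : ℤ) ∣ t - t' := by
  have hl0 : (l : ℚ) ≠ 0 := by exact_mod_cast h.prime.pos.ne'
  have hsl : IsCoprime s (l : ℤ) :=
    (hs q h.mem).of_isCoprime_of_dvd_right (by exact_mod_cast h.dvd)
  have h1 := ww_twist (k := k) (s := s) (t := t) hS.two_le h.prime.pos h.mem h.two_dvd h.eq hT
  have h1' := ww_twist (k := k) (s := s) (t := t') hS.two_le h.prime.pos h.mem h.two_dvd h.eq hT'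
  unfold tz at he
  have hkk : (if q ∈ T' then (1 : ℚ) else -1) = if q ∈ T then (1 : ℚ) else -1 := by
    by_cases hq : q ∈ T
    · rw [if_pos hq, if_pos (hk.1 hq)]
    · rw [if_neg hq, if_neg (fun h => hq (hk.2 h))]
  rw [hkk] at h1'
  rw [h1, h1', ww_eq, ww_eq, ← Complex.exp_add, ← Complex.exp_add, ← mul_add, ← mul_add,
    ← Rat.cast_add, ← Rat.cast_add, exp_eq_iff] at he
  obtain ⟨n, hn⟩ := he
  set σ : ℚ := if q ∈ T then (1 : ℚ) else -1 with hσ
  have hσi : ∃ σ' : ℤ, (σ' = 1 ∨ σ' = -1) ∧ σ = σ' := by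
    rw [hσ]
    split_ifs
    · exact ⟨1, Or.inl rfl, by norm_num⟩
    · exact ⟨-1, Or.inr rfl, by norm_num⟩
  obtain ⟨σ', hσ', hσe⟩ := hσi
  have h2 : ∀ p ∈ symmDiff T T', p = l := by
    intro p hp
    have hpS : p ∈ S := by
      rcases Finset.mem_symmDiff.1 hp with h3 | h3
      · exact hT h3.1
      · exact hT' h3.1
    have h3 : (p : ℤ) ∣ s * l := by
      refine dvd_of_int hS.two_le hS.coprime hT hT' (m := s * l)
        (n := n * l - σ' * (s * (t - t') * c)) ?_ hp
      push_cast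
      have h4 : σ * (s * t * c / l) * l - σ * (s * t' * c / l) * l =
          σ' * (s * (t - t') * c) := by
        rw [hσe]
        field_simp
      rw [← h4]
      linear_combination (l : ℚ) * hn
    have h4 : (p : ℤ) ∣ l := ((hs p hpS).symm).dvd_of_dvd_mul_left h3
    have h5 : p ∣ l := by exact_mod_cast h4
    rcases (Nat.dvd_prime h.prime).1 h5 with h6 | h6
    · have := hS.two_le p hpS
      omega
    · exact h6
  have hTT : T = T' := by
    by_contra hne
    have hne' : (symmDiff T T').Nonempty := by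
      rw [Finset.nonempty_iff_ne_empty, Ne, ← Finset.bot_eq_empty, symmDiff_eq_bot]
      exact hne
    obtain ⟨p, hp⟩ := hne'
    have hpl := h2 p hp
    subst hpl
    have hpS : p ∈ S := by
      rcases Finset.mem_symmDiff.1 hp with h3 | h3
      · exact hT h3.1
      · exact hT' h3.1
    have hpq : p = q := by
      by_contra hpq
      exact h.not_dvd p hpS hpq dvd_rfl
    subst hpq
    rcases Finset.mem_symmDiff.1 hp with h3 | h3
    · exact h3.2 (hk.1 h3.1)
    · exact h3.2 (hk.2 h3.1)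
  refine ⟨hTT, ?_⟩
  subst hTT
  have h3 : (l : ℤ) ∣ s * ((t - t') * c) := by
    rw [← int_div_iff h.prime.pos]
    refine ⟨σ' * n, ?_⟩
    push_cast
    rw [← hn, hσe]
    rcases hσ' with h4 | h4
    · rw [h4]
      push_cast
      ring
    · rw [h4]
      push_cast
      ring
  exact h.cop.symm.dvd_of_dvd_mul_right (hsl.symm.dvd_of_dvd_mul_left h3)

/-- the functions of a leaf for `-s` -/
theorem gg_neg (S : Finset ℕ) (k i r q : ℕ) (s : ℤ) {z : ℂ} (hz : z ≠ 0) :
    gg S k i r q s z⁻¹ = (-1) ^ r * gg S k i r q (-s) z := by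
  unfold gg
  rw [cs_inv (fun x => cotP_negC r x) (fun T _ => Complex.exp_ne_zero _) hz]
  congr 1
  unfold cs
  refine Finset.sum_congr rfl fun T _ => ?_
  have h1 : (Complex.exp (2 * Real.pi * Complex.I * (s * (al S T : ℂ) - k / 2)))⁻¹ =
      Complex.exp (2 * Real.pi * Complex.I * (((-s : ℤ) : ℂ) * (al S T : ℂ) - k / 2)) := by
    rw [← Complex.exp_neg, Complex.exp_eq_exp_iff_exists_int]
    refine ⟨k, ?_⟩
    push_cast
    ring
  simp only [h1]

end Pool.Agent.GSN
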