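import Pool.Agent.GSN.A1
import Pool.Agent.GSN.A2

/-!
PROOF (module C2). `i = ii S k 0`, `i' = ii S k' 0`, `r = rr S 0` (the same for `k` and `k'`). `q`, `c` from `exists_lf`
(for the given `q`: it is the leaf divisible by `l`, `Lf.not_dvd`).
(1) For `t` with `tz t` a unit: `YY S k 0 (tz t) * YY S k' 0 1 = ± YY S k' 0 (tz t) * YY S k 0 1` (`sq_eq_sq_iff_eq_or_eq_neg`
in `ℝ[X]`). With `b₀ = coeff r`, `b₁ = coeff (r + 1)`, and `coeff n = 0` for `n < r` (`coeff_lt`), the coefficients of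
`X ^ (2 r)` and `X ^ (2 r + 1)` (both sides have the factor `X ^ r` in each of the two factors: write `A = X ^ r * A'`)
give `b₀(t) b₀'(0) = ± b₀'(t) b₀(0)` and `b₁(t) b₀'(0) + b₀(t) b₁'(0) = ± (b₁'(t) b₀(0) + b₀'(t) b₁(0))`, where `(0)` means
`s = 1`. Eliminating the sign: `b₁(t) b₀'(t) - b₁'(t) b₀(t) = K b₀(t) b₀'(t)` with
`K = b₁(0) / b₀(0) - b₁'(0) / b₀'(0)` (all `b₀ ≠ 0` by `lemN`).
(2) By `coeff_eq` and `gg_tz` (`s = 1`): `b₀(t) = kap * gg S k i r q 1 z`, `z = zz l c t`, and `b₁(t) = - kap * f z` with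
`f = gg S k (i - 1) (r + 1) q 1` if `i ≥ 1` (`ex + 1 - (r + 1) = i - 1`) and `f = 0` if `i = 0` (`coeff_gt`); the same for `k'`.
So `f z g' z - f' z g z = K₁ g z g' z` for `g = gg S k i r q 1`, `g' = gg S k' i' r q 1`.
(3) Let `W` be the set of the `(ww S k 1 T)⁻¹`, `T ⊆ S`, `q ∈ T` (all sets, `|W| = 2 ^ (|S| - 1)`, `ww_inj`, `card_filter`), and
`W'` the same for `k'`. From `hex` (`ww_eq_iff`-like: `al S T₁ - al S T₁' - (k - k') / 2` is an integer; `dvd_of_int` with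
`m = 2`): `symmDiff T₁ T₁' ⊆ {2}`; so `k ≡ k'` modulo `2` (if `T₁ = T₁'`) or `2 ∈ S.erase q` and `(k - k') / 2 ≡ 1 / 2`; in both
cases `W = W'` (use `T ↦ T` resp. `T ↦ symmDiff T {2}`). `cs_isQ` (H42/PF/Cot) gives `IsQ` for the four functions on
this `W` (for `f = 0` with `c = 0`: `IsQ` with `P = 0`), with the coefficients `(-1) ^ |S \ T| * tm * (2 I) ^ (r + 1)` etc. at
`(ww S k 1 T)⁻¹` and `(-1) ^ |S \ T'| ..` at the same point `(ww S k' 1 T')⁻¹`. `IsQ.cross` (H42/PF/Basic) with `Z` from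
`points` (`tz_unit`), the condition `(2 r + 1) |W| ≤ 7 * 2 ^ (|S| - 1) < l - 1 ≤ |Z|`, `zz_notMem`-like argument for `W`
(`ww_ne_one` and `ww_twist`) gives `c x * b' x = c' x * b x`, and after cancelling `(-1) ^ .. (2 I) ^ ..` the claim.
-/

set_option autoImplicit false

open Finset

namespace Pool.Agent.GSN

open Pool.Agent.GSP Pool.Agent.GSG Pool.H42.PF

/-- the previous Taylor coefficient -/
noncomputable def tm (k i : ℕ) (x : ℚ) : ℚ := if i = 0 then 0 else tc k (i - 1) x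

/-- the coefficients of the product of two polynomials which are divisible by `X ^ r` -/
private theorem C2_mul {R : Type} [CommRing R] {P Q : Polynomial R} {r : ℕ}
    (hP : ∀ n < r, P.coeff n = 0) (hQ : ∀ n < r, Q.coeff n = 0) :
    (P * Q).coeff (2 * r) = P.coeff r * Q.coeff r ∧
      (P * Q).coeff (2 * r + 1) = P.coeff r * Q.coeff (r + 1) + P.coeff (r + 1) * Q.coeff r := by
  obtain ⟨P₁, rfl⟩ := Polynomial.X_pow_dvd_iff.2 hP
  obtain ⟨Q₁, rfl⟩ := Polynomial.X_pow_dvd_iff.2 hQ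
  have h1 : Polynomial.X ^ r * P₁ * (Polynomial.X ^ r * Q₁) =
      Polynomial.X ^ (2 * r) * (P₁ * Q₁) := by ring
  have e0 : ∀ (n : ℕ) (A : Polynomial R), (Polynomial.X ^ n * A).coeff n = A.coeff 0 := by
    intro n A
    have h2 := Polynomial.coeff_X_pow_mul A n 0
    rwa [zero_add] at h2
  have e1 : ∀ (n : ℕ) (A : Polynomial R), (Polynomial.X ^ n * A).coeff (n + 1) = A.coeff 1 := by
    intro n A
    have h2 := Polynomial.coeff_X_pow_mul A n 1
    rwa [add_comm] at h2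
  rw [h1, e0, e1, e0, e0, e1, e1, Polynomial.mul_coeff_zero, Polynomial.mul_coeff_one]
  exact ⟨rfl, rfl⟩

/-- the elimination of the sign -/
private theorem C2_elim {A A' B B' : Polynomial ℝ} {r : ℕ} (hA : ∀ n < r, A.coeff n = 0)
    (hA' : ∀ n < r, A'.coeff n = 0) (hB : ∀ n < r, B.coeff n = 0) (hB' : ∀ n < r, B'.coeff n = 0)
    (nB : B.coeff r ≠ 0) (nB' : B'.coeff r ≠ 0) (h : (A * B') ^ 2 = (A' * B) ^ 2) :
    A.coeff (r + 1) * A'.coeff r - A'.coeff (r + 1) * A.coeff r =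
      (B.coeff (r + 1) / B.coeff r - B'.coeff (r + 1) / B'.coeff r) * A.coeff r * A'.coeff r := by
  obtain ⟨h1, h2⟩ := C2_mul hA hB'
  obtain ⟨h3, h4⟩ := C2_mul hA' hB
  rcases sq_eq_sq_iff_eq_or_eq_neg.1 h with h5 | h5
  · rw [h5] at h1 h2
    rw [h3] at h1
    rw [h4] at h2
    field_simp
    have e1 : A'.coeff r * B.coeff r = A.coeff r * B'.coeff r := h1
    have e2 : A'.coeff r * B.coeff (r + 1) + A'.coeff (r + 1) * B.coeff r =
        A.coeff r * B'.coeff (r + 1) + A.coeff (r + 1) * B'.coeff r := h2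
    linear_combination (A.coeff (r + 1) * B'.coeff r + A.coeff r * B'.coeff (r + 1)) * e1 -
      A.coeff r * B'.coeff r * e2
  · rw [h5] at h1 h2
    rw [Polynomial.coeff_neg, h3] at h1
    rw [Polynomial.coeff_neg, h4] at h2
    field_simp
    have e1 : -(A'.coeff r * B.coeff r) = A.coeff r * B'.coeff r := h1
    have e2 : -(A'.coeff r * B.coeff (r + 1) + A'.coeff (r + 1) * B.coeff r) =
        A.coeff r * B'.coeff (r + 1) + A.coeff (r + 1) * B'.coeff r := h2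
    linear_combination -(A.coeff (r + 1) * B'.coeff r + A.coeff r * B'.coeff (r + 1)) * e1 +
      A.coeff r * B'.coeff r * e2

/-- the function of the second lowest coefficient -/
private noncomputable def C2f (S : Finset ℕ) (k i r q : ℕ) (z : ℂ) : ℂ :=
  cs ((cotP (r + 1)).map (algebraMap ℚ ℂ)) (S.powerset.filter fun T => q ∈ T) (ww S k 1)
    (fun T => (-1) ^ (S \ T).card * (tm k i (al S T) : ℂ)) z

private theorem C2_gg (S : Finset ℕ) (k i r q : ℕ) (z : ℂ) : gg S k i r q 1 z =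
    cs ((cotP r).map (algebraMap ℚ ℂ)) (S.powerset.filter fun T => q ∈ T) (ww S k 1)
      (fun T => (-1) ^ (S \ T).card * (tc k i (al S T) : ℂ)) z := rfl

/-- the lowest coefficient -/
private theorem C2_low {N : ℕ} {S : Finset ℕ} {k : ℕ} (hS : LeafG S k) {l q : ℕ} {c : ℤ}
    (h : Lf N S l q c) (t : ℤ) :
    (((YY S k 0 (tz N l (xp l S) t)).coeff (rr S 0) : ℝ) : ℂ) =
      kap S k 0 (rr S 0) * gg S k (ii S k 0) (rr S 0) q 1 (zz l c t) := by
  rw [coeff_eq hS h.mem 0 le_rfl (rr_le hS 0), ex_sub_rr]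
  have h1 := gg_tz hS h (ii S k 0) (rr S 0) 1 t
  rw [mul_one, mul_one] at h1
  rw [h1]

/-- the second lowest coefficient -/
private theorem C2_second {N : ℕ} {S : Finset ℕ} {k : ℕ} (hS : LeafG S k) {l q : ℕ} {c : ℤ}
    (h : Lf N S l q c) (t : ℤ) :
    (((YY S k 0 (tz N l (xp l S) t)).coeff (rr S 0 + 1) : ℝ) : ℂ) =
      -(kap S k 0 (rr S 0) * C2f S k (ii S k 0) (rr S 0) q (zz l c t)) := by
  by_cases h0 : ii S k 0 = 0
  · have h1 : ex S k 0 + 1 < rr S 0 + 1 := by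
      have h2 : ii S k 0 = ex S k 0 + 1 - rr S 0 := rfl
      omega
    rw [coeff_gt ⟨q, h.mem⟩ k 0 _ h1, Complex.ofReal_zero]
    unfold C2f cs tm
    simp only [if_pos h0, Rat.cast_zero, mul_zero, zero_mul, Finset.sum_const_zero, neg_zero]
  · have h2 : ii S k 0 = ex S k 0 + 1 - rr S 0 := rfl
    have h3 : rr S 0 + 1 ≤ ex S k 0 + 1 := by omega
    rw [coeff_eq hS h.mem 0 (Nat.le_succ _) h3]
    have h4 : ex S k 0 + 1 - (rr S 0 + 1) = ii S k 0 - 1 := by omega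
    rw [h4]
    have h1 := gg_tz hS h (ii S k 0 - 1) (rr S 0 + 1) 1 t
    rw [mul_one, mul_one] at h1
    rw [h1, C2_gg]
    have h5 : kap S k 0 (rr S 0 + 1) = -kap S k 0 (rr S 0) := by
      unfold kap
      rw [pow_succ]
      ring
    rw [h5]
    unfold C2f tm
    simp only [if_neg h0]
    ring

/-- the functions are quotients -/
private theorem C2_isQ {S : Finset ℕ} {k : ℕ} (hS : LeafG S k) (q : ℕ) {r : ℕ} (hr : 1 ≤ r)
    (β : Finset ℕ → ℂ) : ∃ b : ℂ → ℂ,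
      IsQ (cs ((cotP r).map (algebraMap ℚ ℂ)) (S.powerset.filter fun T => q ∈ T) (ww S k 1) β) r
        ((S.powerset.filter fun T => q ∈ T).image fun T => (ww S k 1 T)⁻¹) b ∧
      ∀ T, T ⊆ S → q ∈ T → b (ww S k 1 T)⁻¹ = β T * (2 * Complex.I) ^ r := by
  have hinj : Set.InjOn (ww S k 1) (S.powerset.filter fun T => q ∈ T) := by
    intro T hT T' hT' h
    rw [Finset.mem_coe, Finset.mem_filter, Finset.mem_powerset] at hT hT'
    exact ww_inj hS.two_le hS.coprime (fun p _ => isCoprime_one_left) hT.1 hT'.1 h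
  obtain ⟨b, hb⟩ := exists_b (β := β) hinj ((2 * Complex.I) ^ r)
  refine ⟨b, cs_isQ (cotP_natDegree r) hr (fun T _ => ww_ne S k 1 T) hinj fun T hT => ?_,
    fun T hT hq => hb T (Finset.mem_filter.2 ⟨Finset.mem_powerset.2 hT, hq⟩)⟩
  rw [cotP_coeff hr, one_mul]
  exact hb T hT

/-- the difference for two sets which differ by `2` -/
private theorem C2_two {S T T' : Finset ℕ} (hT : T ⊆ S) (hT' : T' ⊆ S)
    (h : symmDiff T T' = {2}) : al S T - al S T' = 1 / 2 ∨ al S T - al S T' = -(1 / 2) := by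
  have h1 : (T \ T') ∪ (T' \ T) = {2} := h
  have h2 : Disjoint (T \ T') (T' \ T) := by
    rw [Finset.disjoint_left]
    intro x hx hx'
    exact (Finset.mem_sdiff.1 hx).2 (Finset.mem_sdiff.1 hx').1
  rw [al_sub hT hT']
  have h3 : (2 : ℕ) ∈ (T \ T') ∪ (T' \ T) := by
    rw [h1]
    exact Finset.mem_singleton_self 2
  have h4 : T \ T' ⊆ {2} := h1 ▸ Finset.subset_union_left
  have h5 : T' \ T ⊆ {2} := h1 ▸ Finset.subset_union_right
  rcases Finset.mem_union.1 h3 with h6 | h6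
  · left
    have e1 : T \ T' = {2} := Finset.Subset.antisymm h4 (Finset.singleton_subset_iff.2 h6)
    have e2 : T' \ T = ∅ := by
      rcases Finset.subset_singleton_iff.1 h5 with e | e
      · exact e
      · exfalso
        rw [e1, e] at h2
        exact Finset.disjoint_left.1 h2 (Finset.mem_singleton_self 2) (Finset.mem_singleton_self 2)
    rw [e1, e2, Finset.sum_singleton, Finset.sum_empty]
    norm_num
  · right
    have e1 : T' \ T = {2} := Finset.Subset.antisymm h5 (Finset.singleton_subset_iff.2 h6)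
    have e2 : T \ T' = ∅ := by
      rcases Finset.subset_singleton_iff.1 h4 with e | e
      · exact e
      · exfalso
        rw [e1, e] at h2
        exact Finset.disjoint_left.1 h2 (Finset.mem_singleton_self 2) (Finset.mem_singleton_self 2)
    rw [e1, e2, Finset.sum_singleton, Finset.sum_empty]
    norm_num

/-- the exponentials of the two nodes are the same -/
private theorem C2_W {S : Finset ℕ} {k k' : ℕ} (hS : LeafG S k) {q : ℕ}
    {T₁ T₁' : Finset ℕ} (hT₁ : T₁ ⊆ S) (hT₁' : T₁' ⊆ S) (hqT : q ∈ T₁) (hqT' : q ∈ T₁')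
    (hex : ww S k 1 T₁ = ww S k' 1 T₁') {T : Finset ℕ} (hT : T ⊆ S) (hq : q ∈ T) :
    ∃ T', T' ⊆ S ∧ q ∈ T' ∧ ww S k 1 T = ww S k' 1 T' := by
  rw [ww_eq, ww_eq, exp_eq_iff] at hex
  obtain ⟨n, hn⟩ := hex
  have h1 : symmDiff T₁ T₁' ⊆ {2} := by
    intro p hp
    have h2 : (p : ℤ) ∣ 2 := by
      refine dvd_of_int hS.two_le hS.coprime hT₁ hT₁' (m := 2) (n := 2 * n + k - k') ?_ hp
      push_cast at hn ⊢
      linear_combination 2 * hn
    have h3 : p ∈ S := by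
      rcases Finset.mem_symmDiff.1 hp with h3 | h3
      · exact hT₁ h3.1
      · exact hT₁' h3.1
    have h4 := hS.two_le p h3
    have h5 : p ∣ 2 := by exact_mod_cast h2
    have h6 := Nat.le_of_dvd (by norm_num) h5
    rw [Finset.mem_singleton]
    omega
  rcases Finset.subset_singleton_iff.1 h1 with h2 | h2
  · rw [← Finset.bot_eq_empty, symmDiff_eq_bot] at h2
    refine ⟨T, hT, hq, ?_⟩
    rw [ww_eq, ww_eq, exp_eq_iff]
    refine ⟨n, ?_⟩
    rw [h2] at hn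
    push_cast at hn ⊢
    linear_combination hn
  · have hq2 : q ∉ ({2} : Finset ℕ) := by
      rw [← h2, Finset.mem_symmDiff]
      tauto
    have h2S : (2 : ℕ) ∈ S := by
      have h3 : (2 : ℕ) ∈ symmDiff T₁ T₁' := by
        rw [h2]
        exact Finset.mem_singleton_self 2
      rcases Finset.mem_symmDiff.1 h3 with h3 | h3
      · exact hT₁ h3.1
      · exact hT₁' h3.1
    have hTS : symmDiff T {2} ⊆ S := by
      intro x hx
      rcases Finset.mem_symmDiff.1 hx with h3 | h3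
      · exact hT h3.1
      · rw [Finset.mem_singleton.1 h3.1]
        exact h2S
    refine ⟨symmDiff T {2}, hTS, Finset.mem_symmDiff.2 (Or.inl ⟨hq, hq2⟩), ?_⟩
    have h4 := C2_two hT₁ hT₁' h2
    have h5 := C2_two hT hTS (symmDiff_symmDiff_cancel_left T {2})
    rw [ww_eq, ww_eq, exp_eq_iff]
    push_cast at hn ⊢
    rcases h4 with h4 | h4 <;> rcases h5 with h5 | h5
    · exact ⟨n, by linear_combination hn - h4 + h5⟩
    · exact ⟨n - 1, by push_cast; linear_combination hn - h4 + h5⟩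
    · exact ⟨n + 1, by push_cast; linear_combination hn - h4 + h5⟩
    · exact ⟨n, by linear_combination hn - h4 + h5⟩

/-- the points of the units are no exponentials -/
private theorem C2_notMem {N : ℕ} {S : Finset ℕ} {k : ℕ} (hS : LeafG S k) {l q : ℕ} {c : ℤ}
    (h : Lf N S l q c) {t : ℤ} (hs : ∀ p ∈ S, IsCoprime (tz N l (xp l S) t) (p : ℤ)) :
    zz l c t ∉ (S.powerset.filter fun T => q ∈ T).image fun T => (ww S k 1 T)⁻¹ := by
  intro hz
  obtain ⟨T, hT, hz⟩ := Finset.mem_image.1 hz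
  rw [Finset.mem_filter, Finset.mem_powerset] at hT
  have h1 := ww_twist (k := k) (s := 1) (t := t) hS.two_le h.prime.pos h.mem h.two_dvd h.eq hT.1
  rw [if_pos hT.2, mul_one, one_mul, Int.cast_one, one_mul] at h1
  refine ww_ne_one hS ⟨q, h.mem⟩ hs hT.1 (h1.trans ?_)
  have h2 : zz l c t = (ww S k 1 T)⁻¹ := hz.symm
  unfold zz at h2
  rw [h2, mul_inv_cancel₀ (ww_ne S k 1 T)]

/-- the second lowest coefficients of the moments of two nodes with the same leaves -/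
theorem val_id {N : ℕ} (hN : 0 < N) (h4 : 4 ∣ N) {S : Finset ℕ} {k k' : ℕ}
    (hS : LeafG S k) (hS' : LeafG S k') (hNS : ∀ p ∈ S, 2 * p ∣ N) {l : ℕ} (hl : l.Prime)
    (hb : 4 ^ (S.card + 3) ≤ l) {q : ℕ} (hq : q ∈ S) (hlq : l ∣ q)
    (h : ∀ t : ℤ, IsCoprime (tz N l (xp l S) t) (N : ℤ) →
      (YY S k 0 (tz N l (xp l S) t) * YY S k' 0 1) ^ 2 =
        (YY S k' 0 (tz N l (xp l S) t) * YY S k 0 1) ^ 2)
    {T₁ T₁' : Finset ℕ} (hT₁ : T₁ ⊆ S) (hT₁' : T₁' ⊆ S) (hqT : q ∈ T₁) (hqT' : q ∈ T₁')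
    (hex : ww S k 1 T₁ = ww S k' 1 T₁') {T T' : Finset ℕ} (hT : T ⊆ S) (hT' : T' ⊆ S)
    (hq1 : q ∈ T) (hq2 : q ∈ T') (he : ww S k 1 T = ww S k' 1 T') :
    tm k (ii S k 0) (al S T) * tc k' (ii S k' 0) (al S T') =
      tm k' (ii S k' 0) (al S T') * tc k (ii S k 0) (al S T) := by
  have hne : S.Nonempty := ⟨q, hq⟩
  obtain ⟨n, hn⟩ : ∃ n, S.card = n + 1 := by
    have h1 : 1 ≤ S.card := Finset.card_pos.2 hne
    exact ⟨S.card - 1, by omega⟩
  have hpow : 4 ^ (S.card + 3) = 256 * 4 ^ n := by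
    rw [hn]
    ring
  have hpow2 : 2 ^ n ≤ 4 ^ n := Nat.pow_le_pow_left (by norm_num) n
  have hpow1 : 1 ≤ 2 ^ n := Nat.one_le_two_pow
  have h5 : 5 ≤ l := by omega
  have : Fact l.Prime := ⟨hl⟩
  have hq0 : q ≠ 0 := by
    have := hS.two_le q hq
    omega
  have hi : 1 ≤ xp l S :=
    (one_le_padicValNat_of_dvd hq0 hlq).trans (Finset.le_sup (f := padicValNat l) hq)
  obtain ⟨q₀, c, hL⟩ := exists_lf hN hS hNS hl h5 hi
  have hqq : q₀ = q := by
    by_contra hne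
    exact hL.not_dvd q hq (Ne.symm hne) hlq
  rw [hqq] at hL
  obtain ⟨t₀, ht₀⟩ := tz_unit (N := N) hN hl hi
  obtain ⟨Z, hZ, hZ'⟩ := points hl hL.cop t₀
  have hU1 : UG S 1 := ⟨odd_one, fun p _ => isCoprime_one_left⟩
  -- the four functions
  have hr1 : 1 ≤ rr S 0 := rr_pos S 0
  obtain ⟨cc, hf, hcc⟩ := C2_isQ hS q (Nat.le_add_left 1 (rr S 0))
    (fun T => (-1) ^ (S \ T).card * (tm k (ii S k 0) (al S T) : ℂ))
  obtain ⟨bb, hg, hbb⟩ := C2_isQ hS q hr1
    (fun T => (-1) ^ (S \ T).card * (tc k (ii S k 0) (al S T) : ℂ))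
  obtain ⟨cc', hf', hcc'⟩ := C2_isQ hS' q (Nat.le_add_left 1 (rr S 0))
    (fun T => (-1) ^ (S \ T).card * (tm k' (ii S k' 0) (al S T) : ℂ))
  obtain ⟨bb', hg', hbb'⟩ := C2_isQ hS' q hr1
    (fun T => (-1) ^ (S \ T).card * (tc k' (ii S k' 0) (al S T) : ℂ))
  -- the sets of the poles
  have hWW : ((S.powerset.filter fun T => q ∈ T).image fun T => (ww S k' 1 T)⁻¹) =
      (S.powerset.filter fun T => q ∈ T).image fun T => (ww S k 1 T)⁻¹ := by
    ext x
    rw [Finset.mem_image, Finset.mem_image]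
    constructor
    · rintro ⟨U, hU, rfl⟩
      rw [Finset.mem_filter, Finset.mem_powerset] at hU
      obtain ⟨U', h1, h2, h3⟩ := C2_W hS' hT₁' hT₁ hqT' hqT hex.symm hU.1 hU.2
      exact ⟨U', Finset.mem_filter.2 ⟨Finset.mem_powerset.2 h1, h2⟩, by rw [h3]⟩
    · rintro ⟨U, hU, rfl⟩
      rw [Finset.mem_filter, Finset.mem_powerset] at hU
      obtain ⟨U', h1, h2, h3⟩ := C2_W hS hT₁ hT₁' hqT hqT' hex hU.1 hU.2
      exact ⟨U', Finset.mem_filter.2 ⟨Finset.mem_powerset.2 h1, h2⟩, by rw [h3]⟩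
  rw [hWW] at hf' hg'
  have hcardW : ((S.powerset.filter fun T => q ∈ T).image fun T => (ww S k 1 T)⁻¹).card ≤
      2 ^ n := by
    refine Finset.card_image_le.trans ?_
    rw [card_filter hq, hn, Nat.add_sub_cancel]
  have hr3 : rr S 0 ≤ 3 := by
    unfold rr
    omega
  have hcard : (2 * rr S 0 + 1) *
      ((S.powerset.filter fun T => q ∈ T).image fun T => (ww S k 1 T)⁻¹).card < Z.card := by
    have h1 : (2 * rr S 0 + 1) *
        ((S.powerset.filter fun T => q ∈ T).image fun T => (ww S k 1 T)⁻¹).card ≤ 7 * 2 ^ n :=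
      Nat.mul_le_mul (by omega) hcardW
    omega
  have hcross : ∀ z ∈ Z, z ≠ 0 ∧
      z ∉ ((S.powerset.filter fun T => q ∈ T).image fun T => (ww S k 1 T)⁻¹) ∧
      C2f S k (ii S k 0) (rr S 0) q z * gg S k' (ii S k' 0) (rr S 0) q 1 z -
        C2f S k' (ii S k' 0) (rr S 0) q z * gg S k (ii S k 0) (rr S 0) q 1 z =
      (-((((YY S k 0 1).coeff (rr S 0 + 1) / (YY S k 0 1).coeff (rr S 0) -
        (YY S k' 0 1).coeff (rr S 0 + 1) / (YY S k' 0 1).coeff (rr S 0) : ℝ)) : ℂ)) *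
        gg S k (ii S k 0) (rr S 0) q 1 z * gg S k' (ii S k' 0) (rr S 0) q 1 z := by
    intro z hz
    obtain ⟨t, ht, rfl⟩ := hZ' z hz
    have hu := ht₀ t ht
    have hU : UG S (tz N l (xp l S) t) := uG_of h4 hNS hu
    refine ⟨zz_ne l c t, C2_notMem hS hL hU.2, ?_⟩
    have h1 := C2_elim (fun n hn => coeff_lt hS hne 0 (tz N l (xp l S) t) hn)
      (fun n hn => coeff_lt hS' hne 0 (tz N l (xp l S) t) hn)
      (fun n hn => coeff_lt hS hne 0 1 hn) (fun n hn => coeff_lt hS' hne 0 1 hn)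
      (lemN hS hl hb hi zero_le_one hU1) (lemN hS' hl hb hi zero_le_one hU1) (h t hu)
    have h2 := congrArg (fun x : ℝ => (x : ℂ)) h1
    simp only [Complex.ofReal_sub, Complex.ofReal_mul] at h2
    rw [C2_low hS hL, C2_low hS' hL, C2_second hS hL, C2_second hS' hL] at h2
    have hk := kap_ne hS 0 (rr S 0)
    have hk' := kap_ne hS' 0 (rr S 0)
    apply mul_left_cancel₀ (mul_ne_zero hk hk')
    simp only [Complex.ofReal_sub]
    linear_combination -h2
  have hx : (ww S k 1 T)⁻¹ ∈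
      (S.powerset.filter fun T => q ∈ T).image fun T => (ww S k 1 T)⁻¹ :=
    Finset.mem_image.2 ⟨T, Finset.mem_filter.2 ⟨Finset.mem_powerset.2 hT, hq1⟩, rfl⟩
  have key := IsQ.cross hf hg hf' hg' hcard hcross hx
  rw [hcc T hT hq1, hbb T hT hq1, he, hcc' T' hT' hq2, hbb' T' hT' hq2] at key
  have hI : (2 * Complex.I : ℂ) ≠ 0 := mul_ne_zero two_ne_zero Complex.I_ne_zero
  have hm1 : ((-1 : ℂ)) ^ (S \ T).card * (-1) ^ (S \ T').card *
      ((2 * Complex.I) ^ (rr S 0 + 1) * (2 * Complex.I) ^ rr S 0) ≠ 0 :=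
    mul_ne_zero (mul_ne_zero (pow_ne_zero _ (by norm_num)) (pow_ne_zero _ (by norm_num)))
      (mul_ne_zero (pow_ne_zero _ hI) (pow_ne_zero _ hI))
  have key2 : ((tm k (ii S k 0) (al S T) * tc k' (ii S k' 0) (al S T') : ℚ) : ℂ) =
      ((tm k' (ii S k' 0) (al S T') * tc k (ii S k 0) (al S T) : ℚ) : ℂ) := by
    apply mul_left_cancel₀ hm1
    push_cast
    linear_combination key
  exact_mod_cast key2

end Pool.Agent.GSN
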