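import Pool.Agent.GSN.B1
import Pool.Agent.GSN.C2

/-!
PROOF (module B6). `i = ii S k 0`, `i' = ii S k' 0`, `m = ms S 0`: `i + m + 1 = k`, `i' + m + 1 = k'` (`ii_eq`), so `k = k'`
iff `i = i'`. `a = |S| ≥ 1`. From `hex` (`al S T₁ - al S T₁' - (k - k') / 2` is an integer, compare `ww_eq`, `exp_eq_iff`)
and `dvd_of_int` (`m = 2`): every member of `symmDiff T₁ T₁'` divides `2`. So (A) `T₁ = T₁'` and `k ≡ k'` modulo `2`, and then
`ww S k 1 T = ww S k' 1 T` for all `T`, or (B) `symmDiff T₁ T₁' = {2}`, `2 ∈ S` and `2 ≠ q` (`q ∈ T₁ ∩ T₁'`), `(k - k') / 2 - 1 / 2`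
is an integer, and `ww S k 1 T = ww S k' 1 (symmDiff T {2})` for all `T ⊆ S` (`al S (symmDiff T {2}) = al S T ± 1 / 2`).
Let `F, F'` be the polynomials of `exists_tp` for `(k, i)`, `(k', i')` (natDegree `m`) and, if `i ≥ 1`, `G` for `(k, i - 1)`
(natDegree `m + 1`, leading coefficient `(k-1).choose (i-1) / (k-1)!`), `G = 0` if `i = 0`; the same `G'`.
`hx` gives in case (A) `G(α) F'(α) = G'(α) F(α)` for all `α = al S T`, `q ∈ T ⊆ S`: `2 ^ (a - 1)` different points
(`card_filter`, `al_inj`), and in case (B) `G(α) F'(α + 1/2) = G'(α + 1/2) F(α)` for the `T` with `2 ∉ T`: `2 ^ (a - 2)` points.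
(i) `a ≥ 3`: `m = a - 3`, the degrees are at most `2 m + 1 = 2 a - 5 < 2 ^ (a - 2)`, so the polynomials are equal, and so are
the coefficients of `X ^ (2 m + 1)`: `(k-1).choose (i-1) * (k'-1).choose i' = (k'-1).choose (i'-1) * (k-1).choose i` with the
convention that `choose (i - 1)` is replaced by `0` if `i = 0`. With `(k-1).choose (i-1) * (m + 1) = (k-1).choose i * i`
(`Nat.choose_succ_right_eq`: `n.choose (j+1) * (j+1) = n.choose j * (n - j)`, `n = k - 1 = i + m`) this gives `i = i'`.
(ii) `a ≤ 2`: `m = 0`, `F = 1 / (k-1)!` constant, and `G(x) = (k - 1) x / (k-1)!` (also for `k = 1`, where `i = 0` and `G = 0`;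
`G` has degree at most `1`, leading coefficient `(k-1) / (k-1)!`, and `tc_neg` (H42/PF/Coef) gives `G(-x) = - G(x)`). So
`hx` says `(k - 1) α = (k' - 1) α*` where `α* = α` in case (A); there `α = al S T ≠ 0` for `T = S` gives `k = k'`. In case (B)
`a = 2`, `S = {q, 2}`: `T = {q}`, `T* = {q, 2}` and the other way round: `(k - 1) α = (k' - 1) α*` and
`(k - 1) α* = (k' - 1) α`; add: `(k - 1) (α + α*) = (k' - 1) (α + α*)`, `α + α* = 1 / q ≠ 0`, so `k = k'`.
-/

set_option autoImplicit false

open Finset

namespace Pool.Agent.GSN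

open Pool.Agent.GSP Pool.Agent.GSG Pool.H42.PF

private theorem B6_card {S : Finset ℕ} {q p : ℕ} (hq : q ∈ S) (hp : p ∈ S.erase q) :
    (S.powerset.filter fun T => q ∈ T ∧ p ∉ T).card = 2 ^ (S.card - 2) := by
  have hpq : p ≠ q := Finset.ne_of_mem_erase hp
  have h1 : (S.powerset.filter fun T => q ∈ T ∧ p ∉ T) =
      ((S.erase q).erase p).powerset.image (insert q) := by
    ext T
    rw [Finset.mem_filter, Finset.mem_image, Finset.mem_powerset]
    constructor
    · rintro ⟨h1, h2, h3⟩
      refine ⟨T.erase q, Finset.mem_powerset.2 ?_, Finset.insert_erase h2⟩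
      intro x hx
      rw [Finset.mem_erase] at hx
      refine Finset.mem_erase.2 ⟨?_, Finset.mem_erase.2 ⟨hx.1, h1 hx.2⟩⟩
      rintro rfl
      exact h3 hx.2
    · rintro ⟨U, hU, rfl⟩
      rw [Finset.mem_powerset] at hU
      refine ⟨Finset.insert_subset hq (hU.trans ((Finset.erase_subset p _).trans
        (Finset.erase_subset q S))), Finset.mem_insert_self q U, ?_⟩
      intro h
      rcases Finset.mem_insert.1 h with h | h
      · exact hpq h
      · exact Finset.notMem_erase p _ (hU h)
  rw [h1, Finset.card_image_of_injOn, Finset.card_powerset, Finset.card_erase_of_mem hp,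
    Finset.card_erase_of_mem hq]
  · rfl
  intro U hU U' hU' h
  rw [Finset.mem_coe, Finset.mem_powerset] at hU hU'
  have h2 : q ∉ U := fun h => Finset.notMem_erase q S (Finset.mem_of_mem_erase (hU h))
  have h3 : q ∉ U' := fun h => Finset.notMem_erase q S (Finset.mem_of_mem_erase (hU' h))
  rw [← Finset.erase_insert h2, ← Finset.erase_insert h3]
  exact congrArg (fun A => Finset.erase A q) h

/-- the polynomial of the previous coefficient -/
private theorem B6_tm {k i m : ℕ} (h : i + m + 1 = k) : ∃ G : Polynomial ℚ,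
    (∀ x, G.eval x = tm k i x) ∧ G.natDegree ≤ m + 1 ∧
      ((m : ℚ) + 1) * G.coeff (m + 1) = i * (((k - 1).choose i : ℚ) / (k - 1).factorial) := by
  by_cases h0 : i = 0
  · refine ⟨0, fun x => ?_, ?_, ?_⟩
    · unfold tm
      rw [if_pos h0, Polynomial.eval_zero]
    · rw [Polynomial.natDegree_zero]
      exact Nat.zero_le _
    · rw [Polynomial.coeff_zero, h0]
      push_cast
      ring
  · obtain ⟨G, hG, hd, hl⟩ := exists_tp (k := k) (i := i - 1) (by omega)
    have hd' : G.natDegree = m + 1 := by omega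
    refine ⟨G, fun x => ?_, hd'.le, ?_⟩
    · unfold tm
      rw [if_neg h0]
      exact hG x
    · have h1 : G.coeff (m + 1) = ((k - 1).choose (i - 1) : ℚ) / (k - 1).factorial := by
        rw [← hl, Polynomial.leadingCoeff, hd']
      have h2 := Nat.choose_succ_right_eq (k - 1) (i - 1)
      have h3 : i - 1 + 1 = i := by omega
      have h4 : k - 1 - (i - 1) = m + 1 := by omega
      rw [h3, h4] at h2
      have h5 : ((k - 1).choose i : ℚ) * i = ((k - 1).choose (i - 1) : ℚ) * (m + 1) := by
        exact_mod_cast h2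
      rw [h1, mul_div_assoc', mul_div_assoc']
      congr 1
      linear_combination -h5

/-- the polynomial of the coefficient -/
private theorem B6_tc {k i m : ℕ} (h : i + m + 1 = k) : ∃ F : Polynomial ℚ,
    (∀ x, F.eval x = tc k i x) ∧ F.natDegree ≤ m ∧
      F.coeff m = ((k - 1).choose i : ℚ) / (k - 1).factorial := by
  obtain ⟨F, hF, hd, hl⟩ := exists_tp (k := k) (i := i) (by omega)
  have hd' : F.natDegree = m := by omega
  refine ⟨F, hF, hd'.le, ?_⟩
  rw [← hl, Polynomial.leadingCoeff, hd']

private theorem B6_ne {k i m : ℕ} (h : i + m + 1 = k) :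
    ((k - 1).choose i : ℚ) / (k - 1).factorial ≠ 0 := by
  have hpos : 0 < (k - 1).choose i := Nat.choose_pos (by omega)
  have h1 : ((k - 1).choose i : ℚ) ≠ 0 := by exact_mod_cast hpos.ne'
  positivity

private theorem B6_comp (P : Polynomial ℚ) {n : ℕ} (h : P.natDegree ≤ n) (a : ℚ) :
    (P.comp (Polynomial.X + Polynomial.C a)).natDegree ≤ n ∧
      (P.comp (Polynomial.X + Polynomial.C a)).coeff n = P.coeff n := by
  have h1 : (P.comp (Polynomial.X + Polynomial.C a)).natDegree = P.natDegree := by
    rw [Polynomial.natDegree_comp, Polynomial.natDegree_X_add_C, mul_one]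
  refine ⟨h1.le.trans h, ?_⟩
  rcases h.lt_or_eq with h2 | h2
  · rw [Polynomial.coeff_eq_zero_of_natDegree_lt (h1 ▸ h2),
      Polynomial.coeff_eq_zero_of_natDegree_lt h2]
  · have h3 : (Polynomial.X + Polynomial.C a : Polynomial ℚ).natDegree ≠ 0 := by
      rw [Polynomial.natDegree_X_add_C]
      exact one_ne_zero
    have h4 := Polynomial.leadingCoeff_comp (p := P) h3
    rw [Polynomial.leadingCoeff_X_add_C, one_pow, mul_one, Polynomial.leadingCoeff,
      Polynomial.leadingCoeff, h1, h2] at h4
    exact h4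

/-- many points -/
private theorem B6_big {k k' i i' m : ℕ} (hk : i + m + 1 = k) (hk' : i' + m + 1 = k') (δ : ℚ)
    (A : Finset ℚ) (hA : 2 * m + 1 < A.card)
    (h : ∀ x ∈ A, tm k i x * tc k' i' (x + δ) = tm k' i' (x + δ) * tc k i x) : k = k' := by
  obtain ⟨G, hG, dG, cG⟩ := B6_tm hk
  obtain ⟨G', hG', dG', cG'⟩ := B6_tm hk'
  obtain ⟨F, hF, dF, cF⟩ := B6_tc hk
  obtain ⟨F', hF', dF', cF'⟩ := B6_tc hk'
  obtain ⟨dG1, cG1⟩ := B6_comp G' dG' δ
  obtain ⟨dF1, cF1⟩ := B6_comp F' dF' δ
  have h1 : G * F'.comp (Polynomial.X + Polynomial.C δ) -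
      G'.comp (Polynomial.X + Polynomial.C δ) * F = 0 := by
    refine Polynomial.eq_zero_of_natDegree_lt_card_of_eval_eq_zero' _ A ?_ ?_
    · intro x hx
      rw [Polynomial.eval_sub, Polynomial.eval_mul, Polynomial.eval_mul, Polynomial.eval_comp,
        Polynomial.eval_comp, Polynomial.eval_add, Polynomial.eval_X, Polynomial.eval_C, hG, hG',
        hF, hF', h x hx, sub_self]
    · refine lt_of_le_of_lt (Polynomial.natDegree_sub_le _ _) (lt_of_le_of_lt (max_le ?_ ?_) hA)
      · refine Polynomial.natDegree_mul_le.trans ?_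
        omega
      · refine Polynomial.natDegree_mul_le.trans ?_
        omega
  have h2 := congrArg (fun P : Polynomial ℚ => P.coeff (m + 1 + m)) h1
  simp only [Polynomial.coeff_sub, Polynomial.coeff_zero] at h2
  rw [Polynomial.coeff_mul_add_eq_of_natDegree_le dG dF1, Polynomial.coeff_mul_add_eq_of_natDegree_le dG1 dF,
    cG1, cF1, cF, cF'] at h2
  have n1 := B6_ne hk
  have n2 := B6_ne hk'
  have h3 : ((i : ℚ) - i') * ((((k - 1).choose i : ℚ) / (k - 1).factorial) *
      (((k' - 1).choose i' : ℚ) / (k' - 1).factorial)) = 0 := by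
    linear_combination ((m : ℚ) + 1) * h2 - (((k' - 1).choose i' : ℚ) / (k' - 1).factorial) * cG +
      (((k - 1).choose i : ℚ) / (k - 1).factorial) * cG'
  rcases mul_eq_zero.1 h3 with h4 | h4
  · have h5 : (i : ℚ) = i' := sub_eq_zero.1 h4
    have h6 : i = i' := by exact_mod_cast h5
    omega
  · rcases mul_eq_zero.1 h4 with h5 | h5
    · exact absurd h5 n1
    · exact absurd h5 n2

/-- at most three leaves -/
private theorem B6_small {k i : ℕ} (h : i + 1 = k) : ∃ f : ℚ, f ≠ 0 ∧ (∀ x, tc k i x = f) ∧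
    ∀ x, tm k i x = i * f * x := by
  have hk : i + 0 + 1 = k := h
  obtain ⟨G, hG, dG, cG⟩ := B6_tm (m := 0) hk
  obtain ⟨F, hF, dF, cF⟩ := B6_tc (m := 0) hk
  refine ⟨((k - 1).choose i : ℚ) / (k - 1).factorial, B6_ne (m := 0) hk, fun x => ?_, fun x => ?_⟩
  · rw [← hF, Polynomial.eq_C_of_natDegree_le_zero dF, Polynomial.eval_C, cF]
  · have h0 : tm k i 0 = 0 := by
      unfold tm
      split_ifs with h1
      · rfl
      · have h2 := tc_neg (k := k) (i := i - 1) (by omega) 0
        have h3 : k - 1 - (i - 1) = 1 := by omega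
        rw [neg_zero, h3, pow_one] at h2
        linarith
    rw [← hG] at h0 ⊢
    have h1 : ∀ y, G.eval y = G.coeff 1 * y + G.coeff 0 := by
      intro y
      have h2 : G = Polynomial.C (G.coeff 1) * Polynomial.X + Polynomial.C (G.coeff 0) :=
        Polynomial.eq_X_add_C_of_natDegree_le_one dG
      conv_lhs => rw [h2]
      simp
    rw [h1] at h0 ⊢
    rw [mul_zero, zero_add] at h0
    push_cast at cG
    rw [zero_add, one_mul] at cG
    rw [h0, cG, add_zero]

private theorem B6_al {S T : Finset ℕ} (hT : T ⊆ S) (h2 : 2 ∈ S) (hn : 2 ∉ T) :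
    al S (insert 2 T) = al S T + 1 / 2 := by
  have h3 : insert 2 T ⊆ S := Finset.insert_subset h2 hT
  have h4 := al_sub h3 hT
  have e1 : insert 2 T \ T = {2} := by
    ext x
    rw [Finset.mem_sdiff, Finset.mem_insert, Finset.mem_singleton]
    constructor
    · rintro ⟨h5 | h5, h6⟩
      · exact h5
      · exact absurd h5 h6
    · rintro rfl
      exact ⟨Or.inl rfl, hn⟩
  have e2 : T \ insert 2 T = ∅ := by
    rw [Finset.sdiff_eq_empty_iff_subset]
    exact Finset.subset_insert _ _
  rw [e1, e2, Finset.sum_singleton, Finset.sum_empty] at h4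
  push_cast at h4
  linarith

/-- the valence is determined by the two lowest coefficients -/
theorem val_comb {S : Finset ℕ} {k k' : ℕ} (hS : LeafG S k) (hS' : LeafG S k') {q : ℕ}
    (hq : q ∈ S) {T₁ T₁' : Finset ℕ} (hT₁ : T₁ ⊆ S) (hT₁' : T₁' ⊆ S) (hqT : q ∈ T₁)
    (hqT' : q ∈ T₁') (hex : ww S k 1 T₁ = ww S k' 1 T₁')
    (hx : ∀ T T' : Finset ℕ, T ⊆ S → T' ⊆ S → q ∈ T → q ∈ T' → ww S k 1 T = ww S k' 1 T' →
      tm k (ii S k 0) (al S T) * tc k' (ii S k' 0) (al S T') =
        tm k' (ii S k' 0) (al S T') * tc k (ii S k 0) (al S T)) : k = k' := by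
  have hi := ii_eq hS 0
  have hi' := ii_eq hS' 0
  have hm : ms S 0 = S.card - 3 := rfl
  have hii : ∀ a b : ℕ, ii S k 0 = a → ii S k' 0 = b → a = b → k = k' := by
    intro a b h1 h2 h3
    omega
  rw [ww_eq, ww_eq, exp_eq_iff] at hex
  obtain ⟨n, hn⟩ := hex
  have hsub : symmDiff T₁ T₁' ⊆ {2} := by
    intro p hp
    have h2 : (p : ℤ) ∣ 2 := by
      refine dvd_of_int hS.two_le hS.coprime hT₁ hT₁' (m := 2) (n := 2 * n + k - k') ?_ hp
      push_cast at hn ⊢
      linear_combination 2 * hn
    have h3 : p ∈ S := by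
      rcases Finset.mem_symmDiff.1 hp with h3 | h3
      · exact hT₁ h3.1
      · exact hT₁' h3.1
    have h4 := hS.two_le p h3
    have h5 : p ∣ 2 := by exact_mod_cast h2
    have h6 := Nat.le_of_dvd (by norm_num) h5
    rw [Finset.mem_singleton]
    omega
  have hinj : Set.InjOn (al S) (S.powerset : Finset (Finset ℕ)) := by
    intro T hT T' hT' h
    rw [Finset.mem_coe, Finset.mem_powerset] at hT hT'
    exact al_inj hS.two_le hS.coprime hT hT' h
  have hpow : ∀ m : ℕ, 2 * m + 1 < 2 ^ (m + 1) := by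
    intro m
    have h1 : m < 2 ^ m := Nat.lt_two_pow_self
    rw [pow_succ]
    omega
  rcases Finset.subset_singleton_iff.1 hsub with h2 | h2
  · -- the same sets
    rw [← Finset.bot_eq_empty, symmDiff_eq_bot] at h2
    have hrel : ∀ T : Finset ℕ, T ⊆ S → q ∈ T →
        tm k (ii S k 0) (al S T) * tc k' (ii S k' 0) (al S T) =
          tm k' (ii S k' 0) (al S T) * tc k (ii S k 0) (al S T) := by
      intro T hT hqT₂
      refine hx T T hT hT hqT₂ hqT₂ ?_
      rw [ww_eq, ww_eq, exp_eq_iff]
      refine ⟨n, ?_⟩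
      rw [h2] at hn
      push_cast at hn ⊢
      linear_combination hn
    rcases le_or_gt 3 S.card with h3 | h3
    · refine B6_big (m := ms S 0) hi hi' 0 ((S.powerset.filter fun T => q ∈ T).image (al S)) ?_ ?_
      · rw [Finset.card_image_of_injOn (hinj.mono (by
          intro T hT
          exact (Finset.mem_filter.1 hT).1)), card_filter hq]
        refine (hpow _).trans_le (Nat.pow_le_pow_right (by norm_num) ?_)
        omega
      · intro x hx
        obtain ⟨T, hT, rfl⟩ := Finset.mem_image.1 hx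
        rw [Finset.mem_filter, Finset.mem_powerset] at hT
        rw [add_zero]
        exact hrel T hT.1 hT.2
    · have hm0 : ms S 0 = 0 := by omega
      rw [hm0] at hi hi'
      obtain ⟨f, hf0, hf, hg⟩ := B6_small (k := k) (i := ii S k 0) (by omega)
      obtain ⟨f', hf0', hf', hg'⟩ := B6_small (k := k') (i := ii S k' 0) (by omega)
      have h4 := hrel S (Finset.Subset.refl S) hq
      rw [hf, hf', hg, hg'] at h4
      have h5 : 0 < al S S := by
        unfold al
        rw [Finset.sdiff_self, Finset.sum_empty, sub_zero]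
        have h6 : 0 < ∑ p ∈ S, (1 : ℚ) / p := by
          refine Finset.sum_pos (fun p hp => ?_) ⟨q, hq⟩
          have := hS.pos p hp
          positivity
        linarith
      have h6 : ((ii S k 0 : ℚ) - ii S k' 0) * (f * f' * al S S) = 0 := by
        linear_combination h4
      rcases mul_eq_zero.1 h6 with h7 | h7
      · have h8 : (ii S k 0 : ℚ) = ii S k' 0 := sub_eq_zero.1 h7
        have h9 : ii S k 0 = ii S k' 0 := by exact_mod_cast h8
        omega
      · exfalso
        exact mul_ne_zero (mul_ne_zero hf0 hf0') h5.ne' h7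
  · -- the sets differ by `2`
    have h2S : (2 : ℕ) ∈ S := by
      have h3 : (2 : ℕ) ∈ symmDiff T₁ T₁' := by
        rw [h2]
        exact Finset.mem_singleton_self 2
      rcases Finset.mem_symmDiff.1 h3 with h3 | h3
      · exact hT₁ h3.1
      · exact hT₁' h3.1
    have hq2 : q ≠ 2 := by
      intro h3
      have h4 : q ∈ symmDiff T₁ T₁' := by
        rw [h2, h3]
        exact Finset.mem_singleton_self 2
      rcases Finset.mem_symmDiff.1 h4 with h5 | h5
      · exact h5.2 hqT'
      · exact h5.2 hqT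
    have h2e : 2 ∈ S.erase q := Finset.mem_erase.2 ⟨hq2.symm, h2S⟩
    -- the difference of the two valences
    have hpar : ∃ n' : ℤ, ((k : ℚ) - k') / 2 + 1 / 2 = n' := by
      have h3 : (2 : ℕ) ∈ symmDiff T₁ T₁' := by
        rw [h2]
        exact Finset.mem_singleton_self 2
      rcases Finset.mem_symmDiff.1 h3 with h4 | h4
      · have e1 : T₁ = insert 2 T₁' := by
          have h5 : T₁ = symmDiff T₁' {2} := by
            rw [← h2, symmDiff_comm T₁ T₁', symmDiff_symmDiff_cancel_left]
          rw [h5]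
          ext x
          rw [Finset.mem_symmDiff, Finset.mem_singleton, Finset.mem_insert]
          by_cases hx2 : x = 2
          · rw [hx2]
            simp [h4.2]
          · simp [hx2]
        have h6 := B6_al hT₁' h2S h4.2
        rw [e1, h6] at hn
        refine ⟨1 - n, ?_⟩
        push_cast at hn ⊢
        linarith
      · have e1 : T₁' = insert 2 T₁ := by
          have h5 : T₁' = symmDiff T₁ {2} := by
            rw [← h2, symmDiff_symmDiff_cancel_left]
          rw [h5]
          ext x
          rw [Finset.mem_symmDiff, Finset.mem_singleton, Finset.mem_insert]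
          by_cases hx2 : x = 2
          · rw [hx2]
            simp [h4.2]
          · simp [hx2]
        have h6 := B6_al hT₁ h2S h4.2
        rw [e1, h6] at hn
        refine ⟨-n, ?_⟩
        push_cast at hn ⊢
        linarith
    obtain ⟨n', hn'⟩ := hpar
    have hrel : ∀ T : Finset ℕ, T ⊆ S → q ∈ T → 2 ∉ T →
        tm k (ii S k 0) (al S T) * tc k' (ii S k' 0) (al S T + 1 / 2) =
          tm k' (ii S k' 0) (al S T + 1 / 2) * tc k (ii S k 0) (al S T) := by
      intro T hT hqT₂ h2T
      rw [← B6_al hT h2S h2T]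
      refine hx T (insert 2 T) hT (Finset.insert_subset h2S hT) hqT₂
        (Finset.mem_insert_of_mem hqT₂) ?_
      rw [ww_eq, ww_eq, exp_eq_iff, B6_al hT h2S h2T]
      refine ⟨-n', ?_⟩
      push_cast
      linear_combination -hn'
    have hrel' : ∀ T : Finset ℕ, T ⊆ S → q ∈ T → 2 ∉ T →
        tm k (ii S k 0) (al S T + 1 / 2) * tc k' (ii S k' 0) (al S T) =
          tm k' (ii S k' 0) (al S T) * tc k (ii S k 0) (al S T + 1 / 2) := by
      intro T hT hqT₂ h2T
      rw [← B6_al hT h2S h2T]
      refine hx (insert 2 T) T (Finset.insert_subset h2S hT) hT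
        (Finset.mem_insert_of_mem hqT₂) hqT₂ ?_
      rw [ww_eq, ww_eq, exp_eq_iff, B6_al hT h2S h2T]
      refine ⟨1 - n', ?_⟩
      push_cast
      linear_combination -hn'
    rcases le_or_gt 3 S.card with h3 | h3
    · refine B6_big (m := ms S 0) hi hi' (1 / 2)
        ((S.powerset.filter fun T => q ∈ T ∧ 2 ∉ T).image (al S)) ?_ ?_
      · rw [Finset.card_image_of_injOn (hinj.mono (by
          intro T hT
          exact (Finset.mem_filter.1 hT).1)), B6_card hq h2e]
        refine (hpow _).trans_le (Nat.pow_le_pow_right (by norm_num) ?_)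
        omega
      · intro x hx
        obtain ⟨T, hT, rfl⟩ := Finset.mem_image.1 hx
        rw [Finset.mem_filter, Finset.mem_powerset] at hT
        exact hrel T hT.1 hT.2.1 hT.2.2
    · have hm0 : ms S 0 = 0 := by omega
      rw [hm0] at hi hi'
      obtain ⟨f, hf0, hf, hg⟩ := B6_small (k := k) (i := ii S k 0) (by omega)
      obtain ⟨f', hf0', hf', hg'⟩ := B6_small (k := k') (i := ii S k' 0) (by omega)
      have hqS : ({q} : Finset ℕ) ⊆ S := Finset.singleton_subset_iff.2 hq
      have h2q : 2 ∉ ({q} : Finset ℕ) := by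
        rw [Finset.mem_singleton]
        exact hq2.symm
      have h4 := hrel {q} hqS (Finset.mem_singleton_self q) h2q
      have h5 := hrel' {q} hqS (Finset.mem_singleton_self q) h2q
      rw [hf, hf', hg, hg'] at h4 h5
      have hSe : S \ {q} = {2} := by
        have h6 : (S \ {q}).card = 1 := by
          have h7 := Finset.card_erase_of_mem hq
          have h8 : 1 ≤ (S.erase q).card := Finset.card_pos.2 ⟨2, h2e⟩
          rw [Finset.sdiff_singleton_eq_erase]
          omega
        obtain ⟨y, hy⟩ := Finset.card_eq_one.1 h6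
        have h9 : (2 : ℕ) ∈ S \ {q} := by
          rw [Finset.sdiff_singleton_eq_erase]
          exact h2e
        rw [hy, Finset.mem_singleton] at h9
        rw [hy, h9]
      have h6 : 2 * al S {q} + 1 / 2 = 1 / q := by
        unfold al
        rw [hSe, Finset.sum_singleton, Finset.sum_singleton]
        push_cast
        ring
      have hq0 := hS.pos q hq
      have h7 : (1 : ℚ) / q ≠ 0 := by positivity
      have h8 : ((ii S k 0 : ℚ) - ii S k' 0) * (f * f' * (2 * al S {q} + 1 / 2)) = 0 := by
        linear_combination h4 + h5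
      rcases mul_eq_zero.1 h8 with h9 | h9
      · have h10 : (ii S k 0 : ℚ) = ii S k' 0 := sub_eq_zero.1 h9
        have h11 : ii S k 0 = ii S k' 0 := by exact_mod_cast h10
        omega
      · exfalso
        rw [h6] at h9
        exact mul_ne_zero (mul_ne_zero hf0 hf0') h7 h9

end Pool.Agent.GSN
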