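import Pool.Agent.GSN.A1
import Pool.Agent.GSN.A2
import Pool.Agent.GSG.K1

/-!
PROOF (module C1). `q`, `c` from `exists_lf` for `S`, `q'`, `c'` for `S'` (note `xp l S' = xp l S`); `i = ii S k 0`,
`i' = ii S' k' 0`, `r = rr S 0`, `r' = rr S' 0`. `thue` (GSG/K1) gives `n, m₀, m₀'` with `l ∣ n c - m₀`, `l ∣ n c' - m₀'`,
`m₀ > 0`; `m = m₀`, `m' = |m₀'|`, `ε` the sign of `m₀'`. For an integer `u` let `t = n u` and `z = zz l 1 u`
(`z = exp (2 π i u / l)`): `zz l c t = z ^ m` (`zz l c (n u) = zz l 1 (n c u)`, congruent to `m u` modulo `l`, `zz_congr`) and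
`zz l c' t = (z ^ m') ^ ε`. If `t` is not congruent to the bad `t₀` (`tz_unit`, GSG/R6), then `tz t` is a unit for `N`
(`uG_of`, GSG/M4, gives `UG S`, `UG S'`), and the trailing coefficients of `h t` (`Polynomial.trailingCoeff_mul`,
`trail` for `j = 0`, `s = tz t` and `s = 1`; `4 ^ (|S'| + 3) ≤ 4 ^ (|S| + 3) ≤ l`) and `gg_tz` (with `s = 1`) give
`c₁ * gg S k i r q 1 (z ^ m) ^ 2 = c₂ * gg S' k' i' r' q' ε (z ^ m') ^ 2` with constants `c₁, c₂ ≠ 0` (for `ε = -1` use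
`gg_neg`: the square removes the sign). `Z` from `points` for `c = 1` and a `u₀` with `n u₀ ≡ t₀` modulo `l`
(`l ≤ |Z| + 1`; if `l ∣ n u - t₀` then `l ∣ u - u₀`). By `zz_notMem` `z ^ m ∉ poles S k i q 1`, `z ^ m' ∉ poles S' k' i' q' ε`
(for `ε = -1` the poles of `-1` are the inverses of those of `1`). Apply `IsRF.decode` (H42/PF/Pow) to the two
functions (`gg_isRF`, H42/PF/Leaf): the condition is `2 (r m |TT| + r' m' |TT'|) < |Z|`, where `|poles| = |TT|`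
(`card_poles`); with `D = 2 ^ (|S| + 1)`: `r |TT| ≤ D - 1`, `r' |TT'| ≤ D - 1` (`deg_bound`), `m, m' ≤ M`, `M ^ 2 ≤ l`,
`16 D ^ 2 ≤ l`, hence `4 D M ≤ l` and `2 (..) ≤ 4 (D - 1) M ≤ l - 4 < l - 1 ≤ |Z|`. The last statement of `IsRF.decode`
at `z` with `z ^ m = (ww S k 1 T)⁻¹`, `z ^ m' = (ww S' k' ε T')⁻¹` and the values of `b`, `b'` from `gg_isRF` give the last
statement here with a constant `C ≠ 0` (the signs `(-1) ^ ..` and the powers of `2 I` and of `m, m'` are squared).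
-/

set_option autoImplicit false

open Finset

namespace Pool.Agent.GSN

open Pool.Agent.GSP Pool.Agent.GSG Pool.H42.PF

/-- `exp (2 π i u / l)` and its powers -/
private theorem C1_zz {l : ℕ} (hl : 0 < l) {n c m u : ℤ} (h : (l : ℤ) ∣ n * c - m) :
    zz l c (n * u) = zz l 1 (m * u) := by
  have h1 : zz l c (n * u) = zz l 1 (n * u * c) := by
    unfold zz
    congr 3
    push_cast
    ring
  rw [h1]
  refine zz_congr hl ?_
  have h2 : n * u * c - m * u = (n * c - m) * u := by ring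
  rw [h2]
  exact Dvd.dvd.mul_right h u

private theorem C1_pow (l : ℕ) (m : ℕ) (u : ℤ) : zz l 1 (m * u) = zz l 1 u ^ m := by
  unfold zz
  rw [← Complex.exp_nat_mul]
  congr 1
  push_cast
  ring

private theorem C1_trail {A B A' B' : Polynomial ℝ} (h : (A * B) ^ 2 = (A' * B') ^ 2) :
    ((A.trailingCoeff : ℝ) : ℂ) ^ 2 * ((B.trailingCoeff : ℝ) : ℂ) ^ 2 =
      ((A'.trailingCoeff : ℝ) : ℂ) ^ 2 * ((B'.trailingCoeff : ℝ) : ℂ) ^ 2 := by
  have h1 := congrArg Polynomial.trailingCoeff h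
  rw [pow_two, pow_two, Polynomial.trailingCoeff_mul, Polynomial.trailingCoeff_mul,
    Polynomial.trailingCoeff_mul, Polynomial.trailingCoeff_mul] at h1
  have h2 : (A.trailingCoeff) ^ 2 * (B.trailingCoeff) ^ 2 =
      (A'.trailingCoeff) ^ 2 * (B'.trailingCoeff) ^ 2 := by
    linear_combination h1
  exact_mod_cast congrArg (fun x : ℝ => (x : ℂ)) h2

private theorem C1_neg {S : Finset ℕ} {k i r q : ℕ} {s ε : ℤ} (hε : ε = 1 ∨ ε = -1) :
    gg S k i r q (s * ε) 1 ^ 2 = gg S k i r q s 1 ^ 2 := by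
  rcases hε with rfl | rfl
  · rw [mul_one]
  · have h1 := gg_neg S k i r q s one_ne_zero
    rw [inv_one] at h1
    rw [h1, mul_neg_one, mul_pow, ← pow_mul, mul_comm r 2, pow_mul, neg_one_sq, one_pow, one_mul]

private theorem C1_bound {D l m m' A A' z : ℕ} (h16 : 16 * D ^ 2 ≤ l) (hm : m ^ 2 ≤ l)
    (hm' : m' ^ 2 ≤ l) (h1 : 0 < m) (h1' : 0 < m') (hA : A < D) (hA' : A' < D)
    (hz : l ≤ z + 1) : 2 * (A * m + A' * m') < z := by
  have key : ∀ x : ℕ, x ^ 2 ≤ l → 4 * D * x ≤ l := by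
    intro x hx
    have h2 : (4 * D * x) ^ 2 ≤ l ^ 2 := by
      calc (4 * D * x) ^ 2 = 16 * D ^ 2 * x ^ 2 := by ring
        _ ≤ l * l := Nat.mul_le_mul h16 hx
        _ = l ^ 2 := by ring
    exact (Nat.pow_le_pow_iff_left (by norm_num)).1 h2
  have k1 := key m hm
  have k2 := key m' hm'
  have e1 : (A + 1) * m ≤ D * m := Nat.mul_le_mul_right m hA
  have e2 : (A' + 1) * m' ≤ D * m' := Nat.mul_le_mul_right m' hA'
  have e3 : 4 * D * m = 4 * (D * m) := by ring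
  have e4 : 4 * D * m' = 4 * (D * m') := by ring
  have e5 : (A + 1) * m = A * m + m := by ring
  have e6 : (A' + 1) * m' = A' * m' + m' := by ring
  omega

/-- the poles and the leading coefficients of the functions of two nodes with proportional moments -/
theorem dec_id {N : ℕ} (hN : 0 < N) (h4 : 4 ∣ N) {S S' : Finset ℕ} {k k' : ℕ}
    (hS : LeafG S k) (hS' : LeafG S' k') (hNS : ∀ p ∈ S, 2 * p ∣ N) (hNS' : ∀ p ∈ S', 2 * p ∣ N)
    (hc : S'.card ≤ S.card) {l : ℕ} (hl : l.Prime) (hb : 4 ^ (S.card + 3) ≤ l)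
    (hi : 1 ≤ xp l S) (hi' : xp l S' = xp l S)
    (h : ∀ t : ℤ, IsCoprime (tz N l (xp l S) t) (N : ℤ) →
      (YY S k 0 (tz N l (xp l S) t) * YY S' k' 0 1) ^ 2 =
        (YY S' k' 0 (tz N l (xp l S) t) * YY S k 0 1) ^ 2) :
    ∃ q ∈ S, ∃ q' ∈ S', l ∣ q ∧ l ∣ q' ∧ ∃ (m m' : ℕ) (ε : ℤ), (ε = 1 ∨ ε = -1) ∧ 0 < m ∧
      0 < m' ∧ Nat.Coprime m m' ∧ rr S 0 = rr S' 0 ∧
      m * (TT S k (ii S k 0) q).card = m' * (TT S' k' (ii S' k' 0) q').card ∧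
      (∀ z : ℂ, z ^ m ∈ poles S k (ii S k 0) q 1 ↔ z ^ m' ∈ poles S' k' (ii S' k' 0) q' ε) ∧
      ∃ C : ℂ, C ≠ 0 ∧ ∀ T ∈ TT S k (ii S k 0) q, ∀ T' ∈ TT S' k' (ii S' k' 0) q', ∀ z : ℂ,
        z ^ m = (ww S k 1 T)⁻¹ → z ^ m' = (ww S' k' ε T')⁻¹ →
          (tc k (ii S k 0) (al S T) : ℂ) ^ 2 = C * (tc k' (ii S' k' 0) (al S' T') : ℂ) ^ 2 := by
  have h5 : 5 ≤ l := by
    have e1 : 4 ^ 3 ≤ 4 ^ (S.card + 3) := Nat.pow_le_pow_right (by norm_num) (by omega)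
    have e2 : 4 ^ 3 = 64 := by norm_num
    omega
  have hi1 : 1 ≤ xp l S' := by rw [hi']; exact hi
  have hb' : 4 ^ (S'.card + 3) ≤ l :=
    (Nat.pow_le_pow_right (by norm_num) (by omega)).trans hb
  obtain ⟨q, c, hL⟩ := exists_lf hN hS hNS hl h5 hi
  obtain ⟨q', c', hL'⟩ := exists_lf hN hS' hNS' hl h5 hi1
  obtain ⟨n, m₀, m₀', hn, hm, hm', hco, hmm, hmm', hd, hd'⟩ := thue hl hL.cop hL'.cop
  obtain ⟨m, rfl⟩ : ∃ m : ℕ, m₀ = m := ⟨m₀.toNat, (Int.toNat_of_nonneg hm.le).symm⟩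
  obtain ⟨m', ε, hε, hme⟩ : ∃ (m' : ℕ) (ε : ℤ), (ε = 1 ∨ ε = -1) ∧ m₀' = ε * m' := by
    rcases le_or_gt 0 m₀' with h1 | h1
    · exact ⟨m₀'.natAbs, 1, Or.inl rfl, by omega⟩
    · exact ⟨m₀'.natAbs, -1, Or.inr rfl, by omega⟩
  subst hme
  have hεε : ε * ε = 1 := by rcases hε with rfl | rfl <;> norm_num
  have hm0 : 0 < m := by exact_mod_cast hm
  have hm0' : 0 < m' := by
    rcases Nat.eq_zero_or_pos m' with h1 | h1
    · rw [h1] at hm'
      simp at hm'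
    · exact h1
  have hcop : Nat.Coprime m m' := by
    rw [← Nat.isCoprime_iff_coprime]
    exact IsCoprime.of_mul_right_right hco
  have hml : m ^ 2 ≤ l := by exact_mod_cast hmm
  have hml' : m' ^ 2 ≤ l := by
    have e1 : (ε * (m' : ℤ)) ^ 2 = (m' : ℤ) ^ 2 := by
      rw [mul_pow, pow_two ε, hεε, one_mul]
    rw [e1] at hmm'
    exact_mod_cast hmm'
  -- the points
  obtain ⟨t₀, ht₀⟩ := tz_unit (N := N) (l := l) (i := xp l S) hN hl hi
  obtain ⟨a, b, hab⟩ := hn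
  obtain ⟨Z, hZc, hZ⟩ := points hl (isCoprime_one_left : IsCoprime (1 : ℤ) (l : ℤ)) (a * t₀)
  have hunit : ∀ u : ℤ, ¬ (l : ℤ) ∣ u - a * t₀ → IsCoprime (tz N l (xp l S) (n * u)) (N : ℤ) := by
    intro u hu
    refine ht₀ _ fun hd1 => hu ?_
    have e1 : u - a * t₀ = a * (n * u - t₀) + l * (b * u) := by
      linear_combination (-u) * hab
    rw [e1]
    exact dvd_add (Dvd.dvd.mul_left hd1 a) (dvd_mul_right _ _)
  have hU1 : UG S 1 := ⟨odd_one, fun p _ => isCoprime_one_left⟩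
  have hU1' : UG S' 1 := ⟨odd_one, fun p _ => isCoprime_one_left⟩
  have hεc : ∀ p ∈ S', IsCoprime ε (p : ℤ) := by
    intro p _
    rcases hε with rfl | rfl
    · exact isCoprime_one_left
    · exact isCoprime_one_left.neg_left
  obtain ⟨a1, a2⟩ := trail hS hl hb hi (Nat.zero_le 1) hU1 hL.mem
  obtain ⟨a3, a4⟩ := trail hS' hl hb' hi1 (Nat.zero_le 1) hU1' hL'.mem
  obtain ⟨β, hRF, hβ⟩ := gg_isRF (k := k) (i := ii S k 0) (q := q) hS.two_le hS.coprime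
    (rr_pos S 0) (s := 1) hU1.2
  obtain ⟨β', hRF', hβ'⟩ := gg_isRF (k := k') (i := ii S' k' 0) (q := q') hS'.two_le hS'.coprime
    (rr_pos S' 0) (s := ε) hεc
  have hk1 : kap S k 0 (rr S 0) ≠ 0 := kap_ne hS 0 _
  have hk2 : kap S' k' 0 (rr S' 0) ≠ 0 := kap_ne hS' 0 _
  set u1 : ℂ := (((YY S k 0 1).trailingCoeff : ℝ) : ℂ) with hu1
  set u2 : ℂ := (((YY S' k' 0 1).trailingCoeff : ℝ) : ℂ) with hu2
  have hu1' : u1 ≠ 0 := by
    rw [hu1]
    exact_mod_cast a1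
  have hu2' : u2 ≠ 0 := by
    rw [hu2]
    exact_mod_cast a3
  have hc1 : (kap S k 0 (rr S 0) * u2) ^ 2 ≠ 0 := pow_ne_zero _ (mul_ne_zero hk1 hu2')
  have hc2 : (kap S' k' 0 (rr S' 0) * u1) ^ 2 ≠ 0 := pow_ne_zero _ (mul_ne_zero hk2 hu1')
  have hne : (poles S k (ii S k 0) q 1).Nonempty := by
    rw [← Finset.card_pos, card_poles hS.two_le hS.coprime hU1.2]
    exact Finset.card_pos.2 (TT_nonempty hS hL.mem 0)
  have hcard : 2 * (rr S 0 * (m * (poles S k (ii S k 0) q 1).card) +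
      rr S' 0 * (m' * (poles S' k' (ii S' k' 0) q' ε).card)) < Z.card := by
    rw [card_poles hS.two_le hS.coprime hU1.2, card_poles hS'.two_le hS'.coprime hεc]
    have b1 := (deg_bound hL.mem k (ii S k 0)).1
    have b2 := (deg_bound hL'.mem k' (ii S' k' 0)).1
    have b3 : 2 ^ (S'.card + 1) ≤ 2 ^ (S.card + 1) :=
      Nat.pow_le_pow_right (by norm_num) (by omega)
    have b4 : 16 * (2 ^ (S.card + 1)) ^ 2 ≤ l := by
      refine le_trans (le_of_eq ?_) hb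
      rw [← pow_mul, mul_comm (S.card + 1) 2, pow_mul]
      norm_num
      ring
    have b5 := C1_bound b4 hml hml' hm0 hm0' b1 (b2.trans_le b3) hZc
    calc _ = 2 * (rr S 0 * (TT S k (ii S k 0) q).card * m +
        rr S' 0 * (TT S' k' (ii S' k' 0) q').card * m') := by ring
      _ < _ := b5
  have hmain : ∀ z ∈ Z, z ≠ 0 ∧ z ^ m ∉ poles S k (ii S k 0) q 1 ∧
      z ^ m' ∉ poles S' k' (ii S' k' 0) q' ε ∧
      (kap S k 0 (rr S 0) * u2) ^ 2 * gg S k (ii S k 0) (rr S 0) q 1 (z ^ m) ^ 2 =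
        (kap S' k' 0 (rr S' 0) * u1) ^ 2 *
          gg S' k' (ii S' k' 0) (rr S' 0) q' ε (z ^ m') ^ 2 := by
    intro z hz
    obtain ⟨u, hu, rfl⟩ := hZ z hz
    have hcu := hunit u hu
    have hUt := uG_of h4 hNS hcu
    have hUt' := uG_of h4 hNS' hcu
    have e1 : zz l c (n * u * 1) = zz l 1 u ^ m := by
      rw [mul_one, C1_zz hl.pos hd, C1_pow]
    have e2 : zz l c' (n * u * ε) = zz l 1 u ^ m' := by
      have f1 : n * u * ε = n * (u * ε) := by ring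
      have f2 : ε * (m' : ℤ) * (u * ε) = m' * u := by linear_combination (m' * u : ℤ) * hεε
      rw [f1, C1_zz hl.pos hd', f2, C1_pow]
    have g1 := gg_tz (k := k) hS hL (ii S k 0) (rr S 0) 1 (n * u)
    have g2 := gg_tz (k := k') hS' hL' (ii S' k' 0) (rr S' 0) ε (n * u)
    rw [e1, mul_one] at g1
    rw [e2] at g2
    have n1 := zz_notMem hS hL (s := 1) (t := n * u) (by rw [mul_one]; exact hUt.2) (ii S k 0)
    have n2 := zz_notMem hS' hL' (s := ε) (t := n * u) (by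
      intro p hp
      rw [hi']
      exact IsCoprime.mul_left (hUt'.2 p hp) (hεc p hp)) (ii S' k' 0)
    rw [e1] at n1
    rw [e2] at n2
    refine ⟨zz_ne _ _ _, n1, n2, ?_⟩
    rw [hi'] at g2
    have t1 := (trail hS hl hb hi (Nat.zero_le 1) hUt hL.mem).2
    have t2 := (trail hS' hl hb' hi1 (Nat.zero_le 1) hUt' hL'.mem).2
    rw [g1] at t1
    have t3 := C1_trail (h (n * u) hcu)
    rw [← hu1, ← hu2, t1, t2, mul_pow, mul_pow, ← C1_neg hε, g2] at t3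
    linear_combination t3
  obtain ⟨r1, r2, r3, r4⟩ := hRF.decode hRF' (rr_pos S 0) (rr_pos S' 0) hm0 hm0' hne hc1 hc2
    hcard hmain
  rw [card_poles hS.two_le hS.coprime hU1.2, card_poles hS'.two_le hS'.coprime hεc] at r2
  refine ⟨q, hL.mem, q', hL'.mem, hL.dvd, hL'.dvd, m, m', ε, hε, hm0, hm0', hcop, r1, r2, r3, ?_⟩
  have hmC : (m : ℂ) ≠ 0 := by exact_mod_cast hm0.ne'
  have hmC' : (m' : ℂ) ≠ 0 := by exact_mod_cast hm0'.ne'
  have hI : (2 * Complex.I) ≠ 0 := mul_ne_zero two_ne_zero Complex.I_ne_zero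
  have hx1 : (kap S k 0 (rr S 0) * u2) ^ 2 * ((2 * Complex.I) ^ rr S 0 / m ^ rr S 0) ^ 2 ≠ 0 :=
    mul_ne_zero hc1 (pow_ne_zero _ (div_ne_zero (pow_ne_zero _ hI) (pow_ne_zero _ hmC)))
  have hx2 : (kap S' k' 0 (rr S' 0) * u1) ^ 2 *
      ((2 * Complex.I) ^ rr S' 0 / m' ^ rr S' 0) ^ 2 ≠ 0 :=
    mul_ne_zero hc2 (pow_ne_zero _ (div_ne_zero (pow_ne_zero _ hI) (pow_ne_zero _ hmC')))
  refine ⟨(kap S' k' 0 (rr S' 0) * u1) ^ 2 * ((2 * Complex.I) ^ rr S' 0 / m' ^ rr S' 0) ^ 2 /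
    ((kap S k 0 (rr S 0) * u2) ^ 2 * ((2 * Complex.I) ^ rr S 0 / m ^ rr S 0) ^ 2),
    div_ne_zero hx2 hx1, ?_⟩
  intro T hT T' hT' z hz hz'
  have hzm : z ^ m ∈ poles S k (ii S k 0) q 1 := by
    rw [hz]
    exact Finset.mem_image.2 ⟨T, hT, rfl⟩
  have s1 := r4 z hzm
  rw [hz, hz', hβ T hT, hβ' T' hT'] at s1
  have s2 : ∀ j : ℕ, (((-1 : ℂ) ^ j)) ^ 2 = 1 := by
    intro j
    rw [← pow_mul, mul_comm, pow_mul, neg_one_sq, one_pow]
  have s3 := s2 (S \ T).card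
  have s4 := s2 (S' \ T').card
  have s5 : (kap S k 0 (rr S 0) * u2) ^ 2 * ((2 * Complex.I) ^ rr S 0 / m ^ rr S 0) ^ 2 *
      (tc k (ii S k 0) (al S T) : ℂ) ^ 2 =
      (kap S' k' 0 (rr S' 0) * u1) ^ 2 * ((2 * Complex.I) ^ rr S' 0 / m' ^ rr S' 0) ^ 2 *
      (tc k' (ii S' k' 0) (al S' T') : ℂ) ^ 2 := by
    have s6 : (kap S k 0 (rr S 0) * u2) ^ 2 *
        ((-1) ^ (S \ T).card * (tc k (ii S k 0) (al S T) : ℂ) * (2 * Complex.I) ^ rr S 0 /
          m ^ rr S 0) ^ 2 =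
        (kap S k 0 (rr S 0) * u2) ^ 2 * ((2 * Complex.I) ^ rr S 0 / m ^ rr S 0) ^ 2 *
      (tc k (ii S k 0) (al S T) : ℂ) ^ 2 * ((-1) ^ (S \ T).card) ^ 2 := by ring
    have s7 : (kap S' k' 0 (rr S' 0) * u1) ^ 2 *
        ((-1) ^ (S' \ T').card * (tc k' (ii S' k' 0) (al S' T') : ℂ) *
          (2 * Complex.I) ^ rr S' 0 / m' ^ rr S' 0) ^ 2 =
        (kap S' k' 0 (rr S' 0) * u1) ^ 2 * ((2 * Complex.I) ^ rr S' 0 / m' ^ rr S' 0) ^ 2 *
      (tc k' (ii S' k' 0) (al S' T') : ℂ) ^ 2 * ((-1) ^ (S' \ T').card) ^ 2 := by ring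
    rw [s6, s7, s3, s4, mul_one, mul_one] at s1
    exact s1
  rw [div_mul_eq_mul_div, eq_div_iff hx1]
  linear_combination s5

end Pool.Agent.GSN
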