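import Pool.Agent.GSN.A0
import Pool.Agent.GSN.A2
import Pool.Agent.GSG.M4

/-!
# The coefficients of the conjugate moments
-/

set_option autoImplicit false

open Finset

namespace Pool.Agent.GSN

open Pool.Agent.GSP Pool.Agent.GSG Pool.H42.PF

/-- The factor of the coefficient of `X ^ r`. -/
noncomputable def kap (S : Finset ℕ) (k j r : ℕ) : ℂ :=
  (∏ p ∈ S, (p : ℂ)) * (ex S k j).factorial * (-1) ^ r

theorem kap_ne {S : Finset ℕ} {k : ℕ} (hS : LeafG S k) (j r : ℕ) : kap S k j r ≠ 0 := by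
  unfold kap
  refine mul_ne_zero (mul_ne_zero ?_ ?_) (pow_ne_zero _ (by norm_num))
  · refine Finset.prod_ne_zero_iff.2 fun p hp => ?_
    have := hS.pos p hp
    exact_mod_cast this.ne'
  · exact_mod_cast (Nat.factorial_pos _).ne'

/-- the coefficients below `rr S j` vanish -/
theorem coeff_lt {S : Finset ℕ} {k : ℕ} (hS : LeafG S k) (hne : S.Nonempty) (j : ℕ) (s : ℤ)
    {n : ℕ} (hn : n < rr S j) : (YY S k j s).coeff n = 0 := by
  have h1 := hS.card_le
  have h2 := hS.one_le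
  unfold YY
  rw [if_neg hne.ne_empty, Polynomial.coeff_C_mul, Polynomial.finsetSum_coeff,
    Finset.sum_eq_zero, mul_zero]
  intro T _
  have h3 : ((-1 : Polynomial ℝ) ^ (S \ T).card) = Polynomial.C ((-1 : ℝ) ^ (S \ T).card) := by
    simp
  rw [h3, Polynomial.coeff_C_mul, Polynomial.finsetSum_coeff, Finset.sum_eq_zero, mul_zero]
  intro i hi
  rw [Finset.mem_range] at hi
  rw [mul_assoc, Polynomial.coeff_C_mul, Polynomial.coeff_C_mul, Polynomial.coeff_X_pow]
  by_cases h4 : n = ex S k j + 1 - i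
  · have h5 : ex S k j + 1 - i = 0 := by
      unfold rr ex at *
      omega
    rw [h5]
    simp [cotP]
  · rw [if_neg h4, mul_zero, mul_zero]

/-- the coefficients above `ex S k j + 1` vanish -/
theorem coeff_gt {S : Finset ℕ} (hne : S.Nonempty) (k j : ℕ) (s : ℤ) {n : ℕ}
    (hn : ex S k j + 1 < n) : (YY S k j s).coeff n = 0 := by
  unfold YY
  rw [if_neg hne.ne_empty, Polynomial.coeff_C_mul, Polynomial.finsetSum_coeff,
    Finset.sum_eq_zero, mul_zero]
  intro T _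
  have h3 : ((-1 : Polynomial ℝ) ^ (S \ T).card) = Polynomial.C ((-1 : ℝ) ^ (S \ T).card) := by
    simp
  rw [h3, Polynomial.coeff_C_mul, Polynomial.finsetSum_coeff, Finset.sum_eq_zero, mul_zero]
  intro i _
  rw [mul_assoc, Polynomial.coeff_C_mul, Polynomial.coeff_C_mul, Polynomial.coeff_X_pow,
    if_neg (by omega), mul_zero, mul_zero]

/-- the other coefficients -/
theorem coeff_eq {S : Finset ℕ} {k : ℕ} (hS : LeafG S k) {q : ℕ} (hq : q ∈ S) (j : ℕ) {r : ℕ}
    (hr : rr S j ≤ r) (hr2 : r ≤ ex S k j + 1) (s : ℤ) :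
    (((YY S k j s).coeff r : ℝ) : ℂ) = kap S k j r * gg S k (ex S k j + 1 - r) r q s 1 := by
  have h1 := hS.card_le
  have h2 := ii_lt hS j
  unfold ii at h2
  exact coeff_YY hq (by omega) ((rr_pos S j).trans hr) hr2 (by omega) s

private theorem al_eq {S T : Finset ℕ} (hT : T ⊆ S) :
    al S T = ∑ p ∈ S, (if p ∈ T then (1 : ℚ) else -1) / (2 * p) := by
  unfold al
  have h2 : ∑ p ∈ S, (if p ∈ T then (1 : ℚ) else -1) / (2 * p) =
      ∑ p ∈ S \ T, (if p ∈ T then (1 : ℚ) else -1) / (2 * p) +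
        ∑ p ∈ T, (if p ∈ T then (1 : ℚ) else -1) / (2 * p) :=
    (Finset.sum_sdiff hT).symm
  rw [h2, sub_div, Finset.sum_div, Finset.sum_div]
  have h3 : ∀ p ∈ T, (if p ∈ T then (1 : ℚ) else -1) / (2 * p) = 1 / p / 2 := by
    intro p hp
    rw [if_pos hp, div_div, mul_comm]
  have h4 : ∀ p ∈ S \ T, (if p ∈ T then (1 : ℚ) else -1) / (2 * p) = -(1 / p / 2) := by
    intro p hp
    rw [if_neg (Finset.mem_sdiff.1 hp).2, div_div, mul_comm, neg_div]
  rw [Finset.sum_congr rfl h3, Finset.sum_congr rfl h4, Finset.sum_neg_distrib]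
  ring

private theorem int_al {N : ℕ} {S T : Finset ℕ} (h0 : ∀ p ∈ S, 0 < p)
    (hNS : ∀ p ∈ S, 2 * p ∣ N) (hT : T ⊆ S) : ∃ a : ℤ, (N : ℚ) * al S T = a := by
  choose! d hd using hNS
  refine ⟨∑ p ∈ S, (if p ∈ T then (1 : ℤ) else -1) * d p, ?_⟩
  rw [al_eq hT, Finset.mul_sum]
  push_cast
  refine Finset.sum_congr rfl fun p hp => ?_
  have h1 : (N : ℚ) = 2 * p * d p := by exact_mod_cast hd p hp
  have h2 : (p : ℚ) ≠ 0 := by exact_mod_cast (h0 p hp).ne'
  rw [h1]
  split_ifs <;> field_simp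

private theorem toC_rat (q : ℚ) :
    toC (Polynomial.C ((q : ℚ) : ℝ)) = ((q : ℚ) : RatFunc ℂ) := by
  unfold toC
  rw [RingHom.comp_apply, Polynomial.coe_mapRingHom, Polynomial.map_C, Complex.coe_algebraMap,
    Complex.ofReal_ratCast, RatFunc.algebraMap_C, map_ratCast]

private theorem ct_int (x : ℝ) (n : ℤ) : ct (x + n) = ct x := by
  have h1 : Real.pi * (x + n) = Real.pi * x + n * Real.pi := by ring
  unfold ct
  rw [h1, Real.cos_add_int_mul_pi, Real.sin_add_int_mul_pi]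
  have h2 : ((-1 : ℝ) ^ n) ≠ 0 := zpow_ne_zero _ (by norm_num)
  rw [mul_div_mul_left _ _ h2]

/-- the conjugates of the coefficients -/
private theorem gal_coeff {N : ℕ} (hN : 0 < N) (h4 : 4 ∣ N) {s : ℤ} (hs : IsCoprime s (N : ℤ))
    (hodd : Odd s) {S : Finset ℕ} {k : ℕ} (hS : LeafG S k) (hne : S.Nonempty)
    (hNS : ∀ p ∈ S, 2 * p ∣ N) (j : ℕ) {r : ℕ} (hr : rr S j ≤ r) (hr2 : r ≤ ex S k j + 1) :
    Gal N s (((YY S k j 1).coeff r * Real.pi ^ r : ℝ) : ℂ)
      (toC (Polynomial.C ((YY S k j s).coeff r) * Polynomial.X ^ r)) := by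
  have h1 := hS.card_le
  have h2 := ii_lt hS j
  unfold ii at h2
  have hr1 := (rr_pos S j).trans hr
  have hrk : ex S k j + 1 - r < k := by omega
  have hcast : ∀ q : ℚ, Gal N s (((q : ℝ) : ℂ)) (toC (Polynomial.C ((q : ℚ) : ℝ))) := by
    intro q
    rw [toC_rat, Complex.ofReal_ratCast]
    exact Gal.rat hN hs q
  set K : ℚ := (∏ p ∈ S, (p : ℚ)) * ((ex S k j).factorial : ℚ) / 2 with hK
  set c : Finset ℕ → ℚ := fun T => (-1) ^ (S \ T).card * tc k (ex S k j + 1 - r) (al S T) *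
    (-1) ^ r with hc
  have hraw : ∀ u : ℤ, (YY S k j u).coeff r = (K : ℝ) * ∑ T ∈ S.powerset, ((c T : ℚ) : ℝ) *
      ((cotP r).map (algebraMap ℚ ℝ)).eval (ct (u * (al S T : ℝ) - k / 2)) := by
    intro u
    rw [coeff_raw hne.ne_empty k j hr1 hr2 hrk u, hK]
    push_cast
    congr 1
    refine Finset.sum_congr rfl fun T _ => ?_
    rw [hc]
    push_cast
    ring
  have e1 : (YY S k j 1).coeff r * Real.pi ^ r = (K : ℝ) * ∑ T ∈ S.powerset, ((c T : ℚ) : ℝ) *
      (Real.pi ^ r * ((cotP r).map (algebraMap ℚ ℝ)).eval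
        (ct ((al S T - (k : ℚ) / 2 : ℚ) : ℝ))) := by
    rw [hraw 1, mul_assoc, Finset.sum_mul]
    congr 1
    refine Finset.sum_congr rfl fun T _ => ?_
    have h5 : ((1 : ℤ) : ℝ) * (al S T : ℝ) - (k : ℝ) / 2 =
        ((al S T - (k : ℚ) / 2 : ℚ) : ℝ) := by
      push_cast
      ring
    rw [h5]
    ring
  have e2 : toC (Polynomial.C ((YY S k j s).coeff r) * Polynomial.X ^ r) =
      toC (Polynomial.C (K : ℝ)) * ∑ T ∈ S.powerset, toC (Polynomial.C ((c T : ℚ) : ℝ)) *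
        toC (Polynomial.C (((cotP r).map (algebraMap ℚ ℝ)).eval
          (ct (s * ((al S T - (k : ℚ) / 2 : ℚ) : ℝ)))) * Polynomial.X ^ r) := by
    rw [hraw s, Polynomial.C_mul, mul_assoc, map_mul toC]
    congr 1
    rw [map_sum Polynomial.C, Finset.sum_mul, map_sum toC]
    refine Finset.sum_congr rfl fun T _ => ?_
    have h6 : ct ((s : ℝ) * ((al S T - (k : ℚ) / 2 : ℚ) : ℝ)) =
        ct ((s : ℝ) * (al S T : ℝ) - k / 2) := by
      obtain ⟨m, hm⟩ := hodd
      rw [← ct_int ((s : ℝ) * ((al S T - (k : ℚ) / 2 : ℚ) : ℝ)) (m * k)]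
      congr 1
      rw [hm]
      push_cast
      ring
    rw [h6, ← map_mul toC, Polynomial.C_mul, mul_assoc]
  rw [e1, e2, Complex.ofReal_mul, Complex.ofReal_sum]
  refine Gal.mul hN hs (hcast K) (Gal.sum hN hs _ fun T hT => ?_)
  have hTS := Finset.mem_powerset.1 hT
  rw [Complex.ofReal_mul]
  refine Gal.mul hN hs (hcast (c T)) (gal_cot hN h4 hs r ?_ ?_)
  · obtain ⟨a, ha⟩ := int_al hS.pos hNS hTS
    obtain ⟨d, hd⟩ := h4
    refine ⟨a - 2 * d * k, ?_⟩
    rw [mul_sub, ha, hd]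
    push_cast
    ring
  · intro a ha
    apply ww_ne_one hS hne (s := 1) (fun p _ => isCoprime_one_left) hTS (k := k)
    have h0 : (1 : ℂ) = Complex.exp (2 * Real.pi * Complex.I * ((0 : ℚ) : ℂ)) := by simp
    rw [h0, ww_eq, exp_eq_iff]
    refine ⟨a, ?_⟩
    rw [← ha]
    push_cast
    ring

/-- the lowest coefficient does not vanish at the units -/
theorem lemN {S : Finset ℕ} {k : ℕ} (hS : LeafG S k) {l : ℕ} (hl : l.Prime)
    (hb : 4 ^ (S.card + 3) ≤ l) (hi : 1 ≤ xp l S) {j : ℕ} (hj : j ≤ 1) {s : ℤ} (hs : UG S s) :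
    (YY S k j s).coeff (rr S j) ≠ 0 := by
  intro h0
  have hne : S.Nonempty := by
    rw [Finset.nonempty_iff_ne_empty]
    rintro rfl
    simp [xp] at hi
  set N : ℕ := 4 * ∏ p ∈ S, p with hNdef
  have hN : 0 < N := Nat.mul_pos (by norm_num) (Finset.prod_pos fun p hp => hS.pos p hp)
  have h4 : 4 ∣ N := dvd_mul_right _ _
  have hNS : ∀ p ∈ S, 2 * p ∣ N := fun p hp => by
    have h1 : p ∣ ∏ p ∈ S, p := Finset.dvd_prod_of_mem _ hp
    exact mul_dvd_mul (by norm_num) h1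
  have hcop : ∀ u : ℤ, UG S u → IsCoprime u (N : ℤ) := by
    intro u hu
    rw [hNdef]
    push_cast
    refine IsCoprime.mul_right ?_ (IsCoprime.prod_right fun p hp => hu.2 p hp)
    have h1 : IsCoprime u (2 : ℤ) := by
      obtain ⟨m, hm⟩ := hu.1
      exact ⟨1, -m, by rw [hm]; ring⟩
    have h2 : (4 : ℤ) = 2 * 2 := by norm_num
    rw [h2]
    exact h1.mul_right h1
  have hrle := rr_le hS j
  have hzero : ∀ u : ℤ, IsCoprime u (N : ℤ) → Gal N u (0 : ℂ) (0 : RatFunc ℂ) := by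
    intro u hu
    have := Gal.rat hN hu (0 : ℚ)
    rwa [Rat.cast_zero, Rat.cast_zero] at this
  -- the coefficient vanishes at `1`
  have h1 : (YY S k j 1).coeff (rr S j) * Real.pi ^ (rr S j) = 0 := by
    have hg := gal_coeff hN h4 (hcop s hs) hs.1 hS hne hNS j le_rfl hrle
    rw [h0, Polynomial.C_0, zero_mul, map_zero] at hg
    have := Gal.inj hN (hcop s hs) hg (hzero s (hcop s hs))
    exact_mod_cast this
  -- so it vanishes at all units
  have h2 : ∀ u : ℤ, IsCoprime u (N : ℤ) → (YY S k j u).coeff (rr S j) = 0 := by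
    intro u hu
    have hu' := uG_of h4 hNS hu
    have hg := gal_coeff hN h4 hu hu'.1 hS hne hNS j le_rfl hrle
    rw [h1, Complex.ofReal_zero] at hg
    have h3 := Gal.unique hN hu hg (hzero u hu)
    have h5 : Polynomial.C ((YY S k j u).coeff (rr S j)) * Polynomial.X ^ (rr S j) =
        (0 : Polynomial ℝ) := toC_inj (by rw [h3, map_zero])
    rcases mul_eq_zero.1 h5 with h6 | h6
    · exact Polynomial.C_eq_zero.1 h6
    · exact absurd h6 (pow_ne_zero _ Polynomial.X_ne_zero)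
  have hl5 : 5 ≤ l := by
    have h3 : 4 ^ 3 ≤ 4 ^ (S.card + 3) := Nat.pow_le_pow_right (by norm_num) (by omega)
    omega
  obtain ⟨q, c, hLf⟩ := exists_lf hN hS hNS hl hl5 hi
  obtain ⟨t₀, ht₀⟩ := tz_unit hN hl hi
  obtain ⟨Z, hZc, hZ⟩ := points hl hLf.cop t₀
  obtain ⟨b, hb1, -⟩ := gg_isRF hS.two_le hS.coprime (k := k) (i := ii S k j) (q := q)
    (rr_pos S j) (s := 1) (fun p _ => isCoprime_one_left)
  have hne' : (poles S k (ii S k j) q 1).Nonempty := by
    unfold poles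
    exact (TT_nonempty hS hLf.mem j).image _
  have h3 := hb1.card_zeros hne' (Z := Z) fun z hz => by
    obtain ⟨t, ht, rfl⟩ := hZ z hz
    have hu := ht₀ t ht
    have hu' := uG_of h4 hNS hu
    have h5 := zz_notMem (k := k) (s := 1) (t := t) hS hLf (by simpa using hu'.2) (ii S k j)
    rw [mul_one] at h5
    refine ⟨zz_ne _ _ _, h5, ?_⟩
    have h6 := coeff_eq hS hLf.mem j le_rfl hrle (tz N l (xp l S) t * 1)
    have h7 := gg_tz hS hLf (ex S k j + 1 - rr S j) (rr S j) 1 t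
    rw [h7, mul_one, mul_one, h2 _ hu, Complex.ofReal_zero] at h6
    exact (mul_eq_zero.1 h6.symm).resolve_left (kap_ne hS j _)
  rw [card_poles hS.two_le hS.coprime (fun p _ => isCoprime_one_left)] at h3
  have h6 : rr S j * (TT S k (ii S k j) q).card < 2 ^ (S.card + 2) := by
    have h7 := deg_bound hLf.mem k (ii S k j)
    interval_cases j
    · have : 2 ^ (S.card + 1) ≤ 2 ^ (S.card + 2) := Nat.pow_le_pow_right (by norm_num) (by omega)
      exact h7.1.trans_le this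
    · exact h7.2
  have h8 : 2 ^ (S.card + 2) + 1 ≤ 4 ^ (S.card + 3) := by
    have e1 : 4 ^ (S.card + 3) = 2 ^ (S.card + 2) * 2 ^ (S.card + 4) := by
      rw [show (4 : ℕ) = 2 ^ 2 by norm_num, ← pow_mul, ← pow_add]
      congr 1
      ring
    have e2 : 2 ≤ 2 ^ (S.card + 4) := by
      calc 2 = 2 ^ 1 := by norm_num
        _ ≤ 2 ^ (S.card + 4) := Nat.pow_le_pow_right (by norm_num) (by omega)
    have e3 : 0 < 2 ^ (S.card + 2) := by positivity
    rw [e1]
    nlinarith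
  omega

/-- the trailing coefficient -/
theorem trail {S : Finset ℕ} {k : ℕ} (hS : LeafG S k) {l : ℕ} (hl : l.Prime)
    (hb : 4 ^ (S.card + 3) ≤ l) (hi : 1 ≤ xp l S) {j : ℕ} (hj : j ≤ 1) {s : ℤ} (hs : UG S s)
    {q : ℕ} (hq : q ∈ S) : (YY S k j s).trailingCoeff ≠ 0 ∧
      (((YY S k j s).trailingCoeff : ℝ) : ℂ) =
        kap S k j (rr S j) * gg S k (ii S k j) (rr S j) q s 1 := by
  have h1 := lemN hS hl hb hi hj hs
  have hne : YY S k j s ≠ 0 := by
    intro h
    rw [h, Polynomial.coeff_zero] at h1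
    exact h1 rfl
  have h2 : (YY S k j s).natTrailingDegree = rr S j := by
    refine le_antisymm (Polynomial.natTrailingDegree_le_of_ne_zero h1) ?_
    exact Polynomial.le_natTrailingDegree hne fun m hm => coeff_lt hS ⟨q, hq⟩ j s hm
  unfold Polynomial.trailingCoeff
  rw [h2]
  exact ⟨h1, coeff_eq hS hq j le_rfl (rr_le hS j) s⟩

end Pool.Agent.GSN
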