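import Pool.Agent.GSG.Defs
import Pool.Agent.H42.PF.Leaf
import Pool.Agent.H42.PF.Pow

/-!
# The lowest coefficient of the conjugate moments of a node

`rr S j` is the lowest exponent in `YY S k j s`, `ii S k j` is the index of the Taylor coefficient which
belongs to it, and `ms S j` is the degree of this Taylor coefficient.
-/

set_option autoImplicit false

open Finset

namespace Pool.Agent.GSN

open Pool.Agent.GSP Pool.Agent.GSG Pool.H42.PF

/-- The lowest exponent. -/
def rr (S : Finset ℕ) (j : ℕ) : ℕ := max 1 (4 + 2 * j - S.card)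

/-- The index of the Taylor coefficient. -/
def ii (S : Finset ℕ) (k j : ℕ) : ℕ := ex S k j + 1 - rr S j

/-- The degree of the Taylor coefficient. -/
def ms (S : Finset ℕ) (j : ℕ) : ℕ := S.card - (3 + 2 * j)

theorem rr_pos (S : Finset ℕ) (j : ℕ) : 1 ≤ rr S j := le_max_left _ _

theorem rr_le {S : Finset ℕ} {k : ℕ} (hS : LeafG S k) (j : ℕ) : rr S j ≤ ex S k j + 1 := by
  have h1 := hS.card_le
  have h2 := hS.one_le
  unfold rr ex
  omega

/-- The index is smaller than `k`. -/
theorem ii_lt {S : Finset ℕ} {k : ℕ} (hS : LeafG S k) (j : ℕ) : ii S k j < k := by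
  have h1 := hS.card_le
  have h2 := hS.one_le
  unfold ii rr ex
  omega

theorem ii_eq {S : Finset ℕ} {k : ℕ} (hS : LeafG S k) (j : ℕ) : ii S k j + ms S j + 1 = k := by
  have h1 := hS.card_le
  have h2 := hS.one_le
  unfold ii rr ex ms
  omega

theorem sub_ii {S : Finset ℕ} {k : ℕ} (hS : LeafG S k) (j : ℕ) : k - 1 - ii S k j = ms S j := by
  have := ii_eq hS j
  omega

theorem ex_sub_rr {S : Finset ℕ} {k : ℕ} (j : ℕ) : ex S k j + 1 - rr S j = ii S k j := rfl

/-- The Taylor coefficients are polynomials. -/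
theorem exists_tp {k i : ℕ} (hi : i < k) : ∃ F : Polynomial ℚ, (∀ x, F.eval x = tc k i x) ∧
    F.natDegree = k - 1 - i ∧ F.leadingCoeff = ((k - 1).choose i : ℚ) / (k - 1).factorial := by
  refine ⟨Polynomial.hasseDeriv i (binP k), fun x => ?_, ?_⟩
  · unfold tc
    rw [Polynomial.taylor_coeff]
  · have hm : (∏ i ∈ range (k - 1), (Polynomial.X + Polynomial.C ((k : ℚ) / 2 - (i + 1)))).Monic :=
      Polynomial.monic_prod_of_monic _ _ fun i _ => Polynomial.monic_X_add_C _
    have hd : (∏ i ∈ range (k - 1), (Polynomial.X + Polynomial.C ((k : ℚ) / 2 - (i + 1)))).natDegree =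
        k - 1 := by
      rw [Polynomial.natDegree_prod_of_monic _ _ fun i _ => Polynomial.monic_X_add_C _]
      simp only [Polynomial.natDegree_X_add_C, Finset.sum_const, Finset.card_range, smul_eq_mul,
        mul_one]
    have hf : (1 / ((k - 1).factorial : ℚ)) ≠ 0 := by positivity
    have hb : (binP k).natDegree = k - 1 := by
      unfold binP
      rw [Polynomial.natDegree_C_mul hf, hd]
    have hbc : (binP k).coeff (k - 1) = 1 / ((k - 1).factorial : ℚ) := by
      unfold binP
      rw [Polynomial.coeff_C_mul]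
      have h1 := hm.coeff_natDegree
      rw [hd] at h1
      rw [h1, mul_one]
    have hc : (Polynomial.hasseDeriv i (binP k)).coeff (k - 1 - i) =
        ((k - 1).choose i : ℚ) / (k - 1).factorial := by
      rw [Polynomial.hasseDeriv_coeff]
      have h1 : k - 1 - i + i = k - 1 := by omega
      rw [h1, hbc]
      ring
    have hpos : 0 < (k - 1).choose i := Nat.choose_pos (by omega)
    have hne : ((k - 1).choose i : ℚ) / (k - 1).factorial ≠ 0 := by
      have : ((k - 1).choose i : ℚ) ≠ 0 := by exact_mod_cast hpos.ne'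
      positivity
    have hle : (Polynomial.hasseDeriv i (binP k)).natDegree ≤ k - 1 - i := by
      have h1 := Polynomial.natDegree_hasseDeriv_le (binP k) i
      rwa [hb] at h1
    have heq : (Polynomial.hasseDeriv i (binP k)).natDegree = k - 1 - i :=
      Polynomial.natDegree_eq_of_le_of_coeff_ne_zero hle (by rw [hc]; exact hne)
    exact ⟨heq, by rw [Polynomial.leadingCoeff, heq, hc]⟩

/-- The number of all sets of leaves which contain `q`. -/
theorem card_filter {S : Finset ℕ} {q : ℕ} (hq : q ∈ S) :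
    (S.powerset.filter fun T => q ∈ T).card = 2 ^ (S.card - 1) := by
  have h1 : (S.powerset.filter fun T => q ∈ T) = (S.erase q).powerset.image (insert q) := by
    ext T
    rw [Finset.mem_filter, Finset.mem_image, Finset.mem_powerset]
    constructor
    · rintro ⟨h1, h2⟩
      exact ⟨T.erase q, Finset.mem_powerset.2 (Finset.erase_subset_erase q h1),
        Finset.insert_erase h2⟩
    · rintro ⟨U, hU, rfl⟩
      rw [Finset.mem_powerset] at hU
      exact ⟨Finset.insert_subset hq (hU.trans (Finset.erase_subset q S)),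
        Finset.mem_insert_self q U⟩
  rw [h1, Finset.card_image_of_injOn, Finset.card_powerset, Finset.card_erase_of_mem hq]
  intro U hU U' hU' h
  rw [Finset.mem_coe, Finset.mem_powerset] at hU hU'
  have h2 : q ∉ U := fun h => Finset.notMem_erase q S (hU h)
  have h3 : q ∉ U' := fun h => Finset.notMem_erase q S (hU' h)
  rw [← Finset.erase_insert h2, ← Finset.erase_insert h3]
  exact congrArg (fun A => Finset.erase A q) h

theorem al_inj {S : Finset ℕ} (hS2 : ∀ p ∈ S, 2 ≤ p)
    (hS : ∀ p ∈ S, ∀ q ∈ S, p ≠ q → Nat.Coprime p q) {T T' : Finset ℕ} (hT : T ⊆ S)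
    (hT' : T' ⊆ S) (h : al S T = al S T') : T = T' := by
  refine ww_inj (k := 0) (s := 1) hS2 hS (fun p _ => isCoprime_one_left) hT hT' ?_
  unfold ww
  rw [h]

/-- The number of the zeros of the Taylor coefficient. -/
theorem card_bad {S : Finset ℕ} {k : ℕ} (hS : LeafG S k) {i : ℕ} (hi : i < k) :
    (S.powerset.filter fun T => tc k i (al S T) = 0).card ≤ k - 1 - i := by
  obtain ⟨F, hF, hd, hl⟩ := exists_tp hi
  have hF0 : F ≠ 0 := by
    intro h
    rw [h, Polynomial.leadingCoeff_zero] at hl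
    have hpos : 0 < (k - 1).choose i := Nat.choose_pos (by omega)
    have hne : ((k - 1).choose i : ℚ) / (k - 1).factorial ≠ 0 := by
      have : ((k - 1).choose i : ℚ) ≠ 0 := by exact_mod_cast hpos.ne'
      positivity
    exact hne hl.symm
  have h1 : ((S.powerset.filter fun T => tc k i (al S T) = 0).image (al S)).card =
      (S.powerset.filter fun T => tc k i (al S T) = 0).card := by
    refine Finset.card_image_of_injOn ?_
    intro T hT T' hT' h
    rw [Finset.mem_coe, Finset.mem_filter, Finset.mem_powerset] at hT hT'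
    exact al_inj hS.two_le hS.coprime hT.1 hT'.1 h
  rw [← h1, ← hd]
  refine (Finset.card_le_card fun x hx => ?_).trans
    ((Multiset.toFinset_card_le F.roots).trans (Polynomial.card_roots' F))
  obtain ⟨T, hT, rfl⟩ := Finset.mem_image.1 hx
  rw [Multiset.mem_toFinset, Polynomial.mem_roots hF0, Polynomial.IsRoot.def, hF]
  exact (Finset.mem_filter.1 hT).2

theorem TT_le {S : Finset ℕ} {q : ℕ} (hq : q ∈ S) (k i : ℕ) :
    (TT S k i q).card ≤ 2 ^ (S.card - 1) := by
  rw [← card_filter hq]
  refine Finset.card_le_card fun T hT => ?_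
  have h1 := mem_TT.1 hT
  exact Finset.mem_filter.2 ⟨Finset.mem_powerset.2 h1.1, h1.2.1⟩

theorem le_TT {S : Finset ℕ} {k : ℕ} (hS : LeafG S k) {q : ℕ} (hq : q ∈ S) {i : ℕ} (hi : i < k) :
    2 ^ (S.card - 1) ≤ (TT S k i q).card + (k - 1 - i) := by
  rw [← card_filter hq]
  have h1 : (S.powerset.filter fun T => q ∈ T) ⊆
      TT S k i q ∪ (S.powerset.filter fun T => tc k i (al S T) = 0) := by
    intro T hT
    rw [Finset.mem_filter] at hT
    rw [Finset.mem_union, mem_TT, Finset.mem_filter]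
    by_cases h : tc k i (al S T) = 0
    · exact Or.inr ⟨hT.1, h⟩
    · exact Or.inl ⟨Finset.mem_powerset.1 hT.1, hT.2, h⟩
  exact (Finset.card_le_card h1).trans ((Finset.card_union_le _ _).trans
    (Nat.add_le_add_left (card_bad hS hi) _))

/-- For at most `3 + 2 j` leaves all sets give poles. -/
theorem TT_small {S : Finset ℕ} {k : ℕ} (hS : LeafG S k) {q : ℕ} (hq : q ∈ S) (j : ℕ)
    (h : S.card ≤ 3 + 2 * j) : (TT S k (ii S k j) q).card = 2 ^ (S.card - 1) := by
  have h1 := le_TT hS hq (ii_lt hS j)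
  have h2 := TT_le hq k (ii S k j)
  rw [sub_ii hS j] at h1
  have h3 : ms S j = 0 := by
    unfold ms
    omega
  omega

/-- More than half of the sets give poles. -/
theorem TT_big {S : Finset ℕ} {k : ℕ} (hS : LeafG S k) {q : ℕ} (hq : q ∈ S) (j : ℕ)
    (h : 3 ≤ S.card) : 2 ^ (S.card - 2) < (TT S k (ii S k j) q).card := by
  have h1 := le_TT hS hq (ii_lt hS j)
  rw [sub_ii hS j] at h1
  have h3 : ms S j ≤ S.card - 3 := by
    unfold ms
    omega
  obtain ⟨n, hn⟩ : ∃ n, S.card = n + 3 := ⟨S.card - 3, by omega⟩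
  rw [hn] at h1 h3 ⊢
  have e1 : n + 3 - 1 = n + 1 + 1 := by omega
  have e2 : n + 3 - 2 = n + 1 := by omega
  rw [e1, pow_succ] at h1
  rw [e2]
  have h4 : n < 2 ^ (n + 1) := (Nat.lt_two_pow_self).trans (Nat.pow_lt_pow_right (by norm_num)
    (by omega))
  omega

theorem TT_nonempty {S : Finset ℕ} {k : ℕ} (hS : LeafG S k) {q : ℕ} (hq : q ∈ S) (j : ℕ) :
    (TT S k (ii S k j) q).Nonempty := by
  rw [← Finset.card_pos]
  rcases le_or_gt 3 S.card with h | h
  · exact lt_of_le_of_lt (Nat.zero_le _) (TT_big hS hq j h)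
  · rw [TT_small hS hq j (by omega)]
    positivity

/-- The bound for the degree. -/
theorem deg_bound {S : Finset ℕ} {q : ℕ} (hq : q ∈ S) (k i : ℕ) :
    rr S 0 * (TT S k i q).card < 2 ^ (S.card + 1) ∧
      rr S 1 * (TT S k i q).card < 2 ^ (S.card + 2) := by
  have h0 : 1 ≤ S.card := Finset.card_pos.2 ⟨q, hq⟩
  have h1 := TT_le hq k i
  obtain ⟨n, hn⟩ : ∃ n, S.card = n + 1 := ⟨S.card - 1, by omega⟩
  have e1 : S.card - 1 = n := by omega
  have h2 : rr S 0 < 4 := by
    unfold rr
    omega
  have h3 : rr S 1 < 8 := by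
    unfold rr
    omega
  rw [e1] at h1
  rw [hn]
  have e2 : 2 ^ (n + 1 + 1) = 4 * 2 ^ n := by ring
  have e3 : 2 ^ (n + 1 + 2) = 8 * 2 ^ n := by ring
  have h4 : 0 < 2 ^ n := by positivity
  rw [e2, e3]
  constructor
  · calc rr S 0 * (TT S k i q).card ≤ rr S 0 * 2 ^ n := Nat.mul_le_mul_left _ h1
      _ < 4 * 2 ^ n := Nat.mul_lt_mul_of_pos_right h2 h4
  · calc rr S 1 * (TT S k i q).card ≤ rr S 1 * 2 ^ n := Nat.mul_le_mul_left _ h1
      _ < 8 * 2 ^ n := Nat.mul_lt_mul_of_pos_right h3 h4

end Pool.Agent.GSN
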