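import Pool.Agent.GSN.A0

/-!
PROOFS (module B1). `al S T = - (∑ p ∈ S, 1 / p) / 2 + ∑ p ∈ T, 1 / p` for `T ⊆ S`.
`frac`: multiply by `∏ q ∈ R, q`: `p ∣ f p * ∏ q ∈ R.erase p, q`, and `p` is coprime to the other members
(`Nat.Coprime.prod_right`). Compare the proof of `dvd_of_int` in H42/PF/Leaf.lean.
`transl`: take `T₀ ∈ Θ`, `T₁ ∈ Θ` for `T₀`, `T₂ ∈ Θ` for `T₁`: `al S T₀ + δ - al S T₁` and
`al S T₁ + δ - al S T₂` are integers, so `al S T₀ + al S T₂ - 2 al S T₁` is an integer, i.e.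
`∑ p ∈ S, f p / p` with `f p = [p ∈ T₀] + [p ∈ T₂] - 2 [p ∈ T₁]` is one. By `frac`, `p ∣ f p`. For `p ≥ 3`: `|f p| ≤ 2`
gives `f p = 0`, hence `p ∈ T₀ ↔ p ∈ T₁`. So `T₁ = T₀` and `δ` is an integer, or `symmDiff T₀ T₁ = {2}`
(so `2 ∈ S`, and `2 ≠ q` because `q ∈ T₀ ∩ T₁`) and `δ - 1 / 2` is an integer. In the second case let
`T ∈ Θ` be arbitrary, `T'` for `T` as in `h`: `al S T + 1 / 2 - al S T'` is an integer; with `U = symmDiff T {2} ⊆ S`
(`al S U - al S T = ± 1 / 2`) `al S U - al S T'` is an integer, so `T' = U` (`dvd_of_int` with `m = 1`).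
-/

set_option autoImplicit false

open Finset

namespace Pool.Agent.GSN

open Pool.Agent.GSP Pool.Agent.GSG Pool.H42.PF

/-- the coordinates of an integral sum of fractions with coprime denominators -/
theorem frac {R : Finset ℕ} (h0 : ∀ p ∈ R, 0 < p)
    (hc : ∀ p ∈ R, ∀ q ∈ R, p ≠ q → Nat.Coprime p q) (f : ℕ → ℤ) {n : ℤ}
    (h : ∑ p ∈ R, (f p : ℚ) / p = n) {p : ℕ} (hp : p ∈ R) : (p : ℤ) ∣ f p := by
  set M : ℕ := ∏ x ∈ R.erase p, x with hM
  have hpM : IsCoprime (p : ℤ) (M : ℤ) := by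
    rw [Nat.isCoprime_iff_coprime, hM]
    exact Nat.Coprime.prod_right fun x hx =>
      hc p hp x (Finset.mem_of_mem_erase hx) (Finset.ne_of_mem_erase hx).symm
  have hx0 : ∀ x ∈ R, (x : ℚ) ≠ 0 := fun x hx => by
    have := h0 x hx
    exact_mod_cast this.ne'
  have h2 : (M : ℚ) * ∑ x ∈ R.erase p, (f x : ℚ) / x =
      ((∑ x ∈ R.erase p, f x * ((∏ y ∈ (R.erase p).erase x, y : ℕ) : ℤ) : ℤ) : ℚ) := by
    rw [Finset.mul_sum, Int.cast_sum]
    refine Finset.sum_congr rfl fun x hx => ?_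
    have h3 : (M : ℚ) = x * ((∏ y ∈ (R.erase p).erase x, y : ℕ) : ℚ) := by
      rw [hM, ← Finset.mul_prod_erase _ _ hx]
      push_cast
      rfl
    have h4 := hx0 x (Finset.mem_of_mem_erase hx)
    rw [h3]
    push_cast
    field_simp
  set e : ℤ := ∑ x ∈ R.erase p, f x * ((∏ y ∈ (R.erase p).erase x, y : ℕ) : ℤ) with he
  have h3 : (f p : ℚ) * M = p * (M * n - e) := by
    have h4 := hx0 p hp
    rw [← Finset.add_sum_erase R _ hp] at h
    rw [← h, ← h2]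
    field_simp
    ring
  have h4 : f p * M = p * (M * n - e) := by exact_mod_cast h3
  exact hpM.dvd_of_dvd_mul_right ⟨_, h4⟩

private theorem al_eq {S T : Finset ℕ} (hT : T ⊆ S) :
    al S T = -(∑ p ∈ S, (1 : ℚ) / p) / 2 + ∑ p ∈ S, (if p ∈ T then (1 : ℚ) else 0) / p := by
  have h1 : ∑ p ∈ S, (if p ∈ T then (1 : ℚ) else 0) / p = ∑ p ∈ T, (1 : ℚ) / p := by
    simp only [ite_div, zero_div]
    rw [Finset.sum_ite_mem, Finset.inter_eq_right.2 hT]
  unfold al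
  rw [h1, Finset.sum_sdiff_eq_sub hT]
  ring

private theorem eq_of_int {S : Finset ℕ} {k : ℕ} (hS : LeafG S k) {T T' : Finset ℕ}
    (hT : T ⊆ S) (hT' : T' ⊆ S) {n : ℤ} (h : al S T - al S T' = n) : T = T' := by
  by_contra hne
  have h1 : (symmDiff T T').Nonempty := by
    rw [Finset.nonempty_iff_ne_empty, Ne, ← Finset.bot_eq_empty, symmDiff_eq_bot]
    exact hne
  obtain ⟨p, hp⟩ := h1
  have hpS : p ∈ S := by
    rcases Finset.mem_symmDiff.1 hp with h1 | h1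
    · exact hT h1.1
    · exact hT' h1.1
  have h2 : (p : ℤ) ∣ 1 := dvd_of_int hS.two_le hS.coprime hT hT' (m := 1) (n := n)
    (by rw [Int.cast_one, one_mul, h]) hp
  have h3 := hS.two_le p hpS
  have h4 := Int.le_of_dvd one_pos h2
  omega

private theorem al_flip {S T : Finset ℕ} (hT : T ⊆ S) (h2 : 2 ∈ S) :
    symmDiff T {2} ⊆ S ∧ (al S (symmDiff T {2}) = al S T - 1 / 2 ∨
      al S (symmDiff T {2}) = al S T + 1 / 2) := by
  have hsub : symmDiff T {2} ⊆ S := by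
    intro x hx
    rcases Finset.mem_symmDiff.1 hx with h | h
    · exact hT h.1
    · rw [Finset.mem_singleton.1 h.1]
      exact h2
  refine ⟨hsub, ?_⟩
  have h3 : ∀ f : ℕ → ℚ, ∑ p ∈ S, f p = f 2 + ∑ p ∈ S.erase 2, f p := fun f =>
    (Finset.add_sum_erase S f h2).symm
  have h4 : ∑ p ∈ S.erase 2, (if p ∈ symmDiff T {2} then (1 : ℚ) else 0) / p =
      ∑ p ∈ S.erase 2, (if p ∈ T then (1 : ℚ) else 0) / p := by
    refine Finset.sum_congr rfl fun p hp => ?_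
    have h5 : p ∈ symmDiff T {2} ↔ p ∈ T := by
      have h6 := Finset.ne_of_mem_erase hp
      rw [Finset.mem_symmDiff, Finset.mem_singleton]
      tauto
    rw [if_congr h5 rfl rfl]
  rw [al_eq hsub, al_eq hT, h3 (fun p => (if p ∈ symmDiff T {2} then (1 : ℚ) else 0) / p),
    h3 (fun p => (if p ∈ T then (1 : ℚ) else 0) / p), h4]
  by_cases h : 2 ∈ T
  · left
    have h5 : 2 ∉ symmDiff T {2} := by
      rw [Finset.mem_symmDiff, Finset.mem_singleton]
      tauto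
    rw [if_pos h, if_neg h5]
    push_cast
    ring
  · right
    have h5 : 2 ∈ symmDiff T {2} := by
      rw [Finset.mem_symmDiff, Finset.mem_singleton]
      tauto
    rw [if_neg h, if_pos h5]
    push_cast
    ring

/-- the translations of a set of the numbers `α_T` modulo `1` -/
theorem transl {S : Finset ℕ} {k : ℕ} (hS : LeafG S k) {q : ℕ} {Θ : Finset (Finset ℕ)}
    (hΘ : ∀ T ∈ Θ, T ⊆ S ∧ q ∈ T) (hne : Θ.Nonempty) {δ : ℚ}
    (h : ∀ T ∈ Θ, ∃ T' ∈ Θ, ∃ n : ℤ, al S T + δ - al S T' = n) :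
    (∃ n : ℤ, δ = n) ∨ (2 ∈ S.erase q ∧ (∃ n : ℤ, δ - 1 / 2 = n) ∧
      ∀ T ∈ Θ, symmDiff T {2} ∈ Θ) := by
  obtain ⟨T₀, hT₀⟩ := hne
  obtain ⟨T₁, hT₁, n₁, hn₁⟩ := h T₀ hT₀
  obtain ⟨T₂, hT₂, n₂, hn₂⟩ := h T₁ hT₁
  have key : ∀ p ∈ S, (p : ℤ) ∣ (if p ∈ T₀ then 1 else 0) + (if p ∈ T₂ then 1 else 0) -
      2 * (if p ∈ T₁ then 1 else 0) := by
    intro p hp
    refine frac (R := S) hS.pos hS.coprime
      (fun p => (if p ∈ T₀ then 1 else 0) + (if p ∈ T₂ then 1 else 0) -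
        2 * (if p ∈ T₁ then 1 else 0)) (n := n₁ - n₂) ?_ hp
    have h1 : al S T₀ + al S T₂ - 2 * al S T₁ = n₁ - n₂ := by
      rw [← hn₁, ← hn₂]
      ring
    rw [al_eq (hΘ _ hT₀).1, al_eq (hΘ _ hT₁).1, al_eq (hΘ _ hT₂).1] at h1
    push_cast
    rw [← h1]
    simp only [sub_div, add_div, mul_div_assoc, Finset.sum_sub_distrib, Finset.sum_add_distrib,
      ← Finset.mul_sum]
    ring
  have hiff : ∀ p ∈ S, p ≠ 2 → (p ∈ T₀ ↔ p ∈ T₁) := by
    intro p hp hp2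
    have h1 := key p hp
    have h2 := hS.two_le p hp
    have h3 : (3 : ℤ) ≤ p := by
      have : 3 ≤ p := by omega
      exact_mod_cast this
    obtain ⟨c, hc⟩ := h1
    have hc0 : c = 0 := by
      by_contra hc0
      rcases lt_or_gt_of_ne hc0 with h4 | h4
      · have h5 : (p : ℤ) * c ≤ -3 := by nlinarith
        rw [← hc] at h5
        split_ifs at h5 <;> omega
      · have h5 : (3 : ℤ) ≤ (p : ℤ) * c := by nlinarith
        rw [← hc] at h5
        split_ifs at h5 <;> omega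
    rw [hc0, mul_zero] at hc
    by_cases h4 : p ∈ T₀ <;> by_cases h5 : p ∈ T₁ <;> by_cases h6 : p ∈ T₂ <;>
      simp [h4, h5, h6] at hc ⊢
  by_cases heq : 2 ∈ symmDiff T₀ T₁
  · right
    have hsd : symmDiff T₀ T₁ = {2} := by
      ext p
      rw [Finset.mem_singleton]
      constructor
      · intro hp
        by_contra hp2
        rcases Finset.mem_symmDiff.1 hp with h1 | h1
        · exact h1.2 ((hiff p ((hΘ _ hT₀).1 h1.1) hp2).1 h1.1)
        · exact h1.2 ((hiff p ((hΘ _ hT₁).1 h1.1) hp2).2 h1.1)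
      · intro hp
        rw [hp]
        exact heq
    have h2S : 2 ∈ S := by
      rcases Finset.mem_symmDiff.1 heq with h1 | h1
      · exact (hΘ _ hT₀).1 h1.1
      · exact (hΘ _ hT₁).1 h1.1
    have h2q : 2 ≠ q := by
      intro h1
      rw [h1] at heq
      rcases Finset.mem_symmDiff.1 heq with h1 | h1
      · exact h1.2 (hΘ _ hT₁).2
      · exact h1.2 (hΘ _ hT₀).2
    have hT1 : T₁ = symmDiff T₀ {2} := by
      rw [← hsd, symmDiff_symmDiff_cancel_left]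
    have hδ : ∃ n : ℤ, δ - 1 / 2 = n := by
      rcases (al_flip (hΘ _ hT₀).1 h2S).2 with h1 | h1
      · rw [← hT1] at h1
        refine ⟨n₁ - 1, ?_⟩
        push_cast
        linarith
      · rw [← hT1] at h1
        refine ⟨n₁, ?_⟩
        linarith
    refine ⟨Finset.mem_erase.2 ⟨h2q, h2S⟩, hδ, fun T hT => ?_⟩
    obtain ⟨T', hT', n, hn⟩ := h T hT
    obtain ⟨d, hd⟩ := hδ
    obtain ⟨hsub, hfl⟩ := al_flip (hΘ _ hT).1 h2S
    have h3 : symmDiff T {2} = T' := by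
      rcases hfl with h1 | h1
      · refine eq_of_int hS hsub (hΘ _ hT').1 (n := n - d - 1) ?_
        push_cast
        linarith
      · refine eq_of_int hS hsub (hΘ _ hT').1 (n := n - d) ?_
        push_cast
        linarith
    rw [h3]
    exact hT'
  · left
    have hT : T₀ = T₁ := by
      rw [← symmDiff_eq_bot, Finset.bot_eq_empty, Finset.eq_empty_iff_forall_notMem]
      intro p hp
      by_cases hp2 : p = 2
      · rw [hp2] at hp
        exact heq hp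
      · rcases Finset.mem_symmDiff.1 hp with h1 | h1
        · exact h1.2 ((hiff p ((hΘ _ hT₀).1 h1.1) hp2).1 h1.1)
        · exact h1.2 ((hiff p ((hΘ _ hT₁).1 h1.1) hp2).2 h1.1)
    refine ⟨n₁, ?_⟩
    rw [← hn₁, hT]
    ring

end Pool.Agent.GSN
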